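import Mathlib

/-!
Conditional expectations given the configuration outside a block.
-/

namespace H111R4

open Finset

section Proj

variable {V I : Type} [Fintype V] [DecidableEq V] [DecidableEq I]

/-- `T` on the block `i`, `S` elsewhere. -/
def mix (b : V → I) (i : I) (S T : Finset V) : Finset V :=
  univ.filter (fun v => if b v = i then v ∈ T else v ∈ S)

@[simp] lemma mem_mix (b : V → I) (i : I) (S T : Finset V) (v : V) :
    v ∈ mix b i S T ↔ if b v = i then v ∈ T else v ∈ S := by
  simp [mix]

lemma mix_self (b : V → I) (i : I) (S : Finset V) : mix b i S S = S := by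
  ext v; simp

lemma mix_mix_left (b : V → I) (i : I) (S T U : Finset V) :
    mix b i (mix b i S T) U = mix b i S U := by
  ext v; simp only [mem_mix]; split_ifs <;> rfl

lemma mix_mix_right (b : V → I) (i : I) (S T U : Finset V) :
    mix b i S (mix b i T U) = mix b i S U := by
  ext v; simp only [mem_mix]; split_ifs <;> rfl

lemma mix_swap (b : V → I) (i : I) (S T : Finset V) :
    mix b i (mix b i S T) (mix b i T S) = S := by
  ext v; simp only [mem_mix]; split_ifs <;> rfl

lemma mix_comm (b : V → I) {i j : I} (hij : i ≠ j) (S U T : Finset V) :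
    mix b i (mix b j S U) T = mix b j (mix b i S T) U := by
  ext v; simp only [mem_mix]
  split_ifs with h1 h2 h2
  · exact absurd (h1.symm.trans h2) hij
  · rfl
  · rfl
  · rfl

/-- the swap of the block `i` between two configurations -/
def swapEquiv (b : V → I) (i : I) : (Finset V × Finset V) ≃ (Finset V × Finset V) where
  toFun p := (mix b i p.1 p.2, mix b i p.2 p.1)
  invFun p := (mix b i p.1 p.2, mix b i p.2 p.1)
  left_inv p := by simp [mix_swap]
  right_inv p := by simp [mix_swap]

lemma sum_swap (b : V → I) (i : I) (F : Finset V → Finset V → ℝ) :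
    ∑ S, ∑ T, F S T = ∑ S, ∑ T, F (mix b i S T) (mix b i T S) := by
  have h1 := Fintype.sum_prod_type (fun p : Finset V × Finset V => F p.1 p.2)
  have h2 := Fintype.sum_prod_type
    (fun p : Finset V × Finset V => F (mix b i p.1 p.2) (mix b i p.2 p.1))
  simp only at h1 h2
  rw [← h1, ← h2]
  exact ((swapEquiv b i).sum_comp (fun p : Finset V × Finset V => F p.1 p.2)).symm

variable (w : Finset V → ℝ)

/-- normalisation -/
def Zc (b : V → I) (i : I) (S : Finset V) : ℝ := ∑ T, w (mix b i S T)

/-- conditional expectation given the configuration off block `i` -/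
noncomputable def Pr (b : V → I) (i : I) (f : Finset V → ℝ) (S : Finset V) : ℝ :=
  (∑ T, w (mix b i S T) * f (mix b i S T)) / Zc w b i S

/-- inner product -/
def ip (f g : Finset V → ℝ) : ℝ := ∑ S, w S * f S * g S

variable {w}
variable (hw : ∀ S, 0 < w S)
include hw

lemma Zc_pos (b : V → I) (i : I) (S : Finset V) : 0 < Zc w b i S :=
  Finset.sum_pos (fun T _ => hw _) ⟨∅, mem_univ _⟩

omit hw in
lemma Zc_mix (b : V → I) (i : I) (S T : Finset V) : Zc w b i (mix b i S T) = Zc w b i S := by
  unfold Zc
  exact Finset.sum_congr rfl fun U _ => by rw [mix_mix_left]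

omit hw in
lemma Pr_mix (b : V → I) (i : I) (f : Finset V → ℝ) (S T : Finset V) :
    Pr w b i f (mix b i S T) = Pr w b i f S := by
  unfold Pr
  rw [Zc_mix]
  congr 1
  exact Finset.sum_congr rfl fun U _ => by rw [mix_mix_left]

lemma Pr_of_const_on (b : V → I) (i : I) (f : Finset V → ℝ) (S : Finset V) (c : ℝ)
    (h : ∀ T, f (mix b i S T) = c) : Pr w b i f S = c := by
  unfold Pr
  rw [show (∑ T, w (mix b i S T) * f (mix b i S T)) = Zc w b i S * c from ?_]
  · have := Zc_pos hw b i S
    field_simp
  · unfold Zc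
    rw [Finset.sum_mul]
    exact Finset.sum_congr rfl fun T _ => by rw [h T]

lemma Pr_const (b : V → I) (i : I) (c : ℝ) (S : Finset V) :
    Pr w b i (fun _ => c) S = c :=
  Pr_of_const_on hw b i _ S c (fun _ => rfl)

lemma Pr_Pr (b : V → I) (i : I) (f : Finset V → ℝ) (S : Finset V) :
    Pr w b i (Pr w b i f) S = Pr w b i f S :=
  Pr_of_const_on hw b i _ S _ (fun T => Pr_mix b i f S T)

omit hw in
lemma Pr_add (b : V → I) (i : I) (f g : Finset V → ℝ) (S : Finset V) :
    Pr w b i (fun S => f S + g S) S = Pr w b i f S + Pr w b i g S := by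
  unfold Pr
  rw [← add_div, ← Finset.sum_add_distrib]
  congr 1
  exact Finset.sum_congr rfl fun T _ => by ring

omit hw in
lemma Pr_smul (b : V → I) (i : I) (c : ℝ) (f : Finset V → ℝ) (S : Finset V) :
    Pr w b i (fun S => c * f S) S = c * Pr w b i f S := by
  unfold Pr
  rw [← mul_div_assoc, Finset.mul_sum]
  congr 1
  exact Finset.sum_congr rfl fun T _ => by ring

lemma Pr_sub_const (b : V → I) (i : I) (f : Finset V → ℝ) (c : ℝ) (S : Finset V) :
    Pr w b i (fun S => f S - c) S = Pr w b i f S - c := by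
  have h1 := Pr_add (w := w) b i f (fun _ => -c) S
  rw [Pr_const hw] at h1
  simpa [sub_eq_add_neg] using h1

omit hw in
lemma ip_comm (f g : Finset V → ℝ) : ip w f g = ip w g f := by
  unfold ip
  exact Finset.sum_congr rfl fun S _ => by ring

lemma ip_self_nonneg (f : Finset V → ℝ) : 0 ≤ ip w f f := by
  unfold ip
  apply Finset.sum_nonneg
  intro S _
  rw [mul_assoc]
  exact mul_nonneg (hw S).le (mul_self_nonneg _)

lemma Pr_selfadj (b : V → I) (i : I) (f g : Finset V → ℝ) :
    ip w (Pr w b i f) g = ip w f (Pr w b i g) := by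
  have key : ∀ f g : Finset V → ℝ, ip w (Pr w b i f) g =
      ∑ S, ∑ T, w S * g S * (w (mix b i S T) * f (mix b i S T)) / Zc w b i S := by
    intro f g
    unfold ip Pr
    apply Finset.sum_congr rfl
    intro S _
    rw [← Finset.sum_div, ← Finset.mul_sum]
    ring
  rw [key f g, ip_comm f, key g f, sum_swap b i]
  apply Finset.sum_congr rfl
  intro S _
  apply Finset.sum_congr rfl
  intro T _
  rw [mix_swap, Zc_mix]
  ring

lemma ip_Pr_Pr (b : V → I) (i : I) (f : Finset V → ℝ) :
    ip w (Pr w b i f) (Pr w b i f) = ip w f (Pr w b i f) := by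
  rw [Pr_selfadj hw]
  congr 1
  funext S
  exact Pr_Pr hw b i f S

omit hw in
lemma ip_add_left (f g h : Finset V → ℝ) :
    ip w (fun S => f S + g S) h = ip w f h + ip w g h := by
  unfold ip
  rw [← Finset.sum_add_distrib]
  exact Finset.sum_congr rfl fun S _ => by ring

omit hw in
lemma ip_sub_left (f g h : Finset V → ℝ) :
    ip w (fun S => f S - g S) h = ip w f h - ip w g h := by
  unfold ip
  rw [← Finset.sum_sub_distrib]
  exact Finset.sum_congr rfl fun S _ => by ring

omit hw in
lemma ip_smul_left (c : ℝ) (f h : Finset V → ℝ) :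
    ip w (fun S => c * f S) h = c * ip w f h := by
  unfold ip
  rw [Finset.mul_sum]
  exact Finset.sum_congr rfl fun S _ => by ring

omit hw in
lemma ip_sum_left {ι : Type} (s : Finset ι) (F : ι → Finset V → ℝ) (h : Finset V → ℝ) :
    ip w (fun S => ∑ i ∈ s, F i S) h = ∑ i ∈ s, ip w (F i) h := by
  unfold ip
  rw [Finset.sum_comm]
  apply Finset.sum_congr rfl
  intro S _
  rw [Finset.mul_sum, Finset.sum_mul]

lemma ip_residual (b : V → I) (i : I) (f : Finset V → ℝ) :
    ip w (fun S => f S - Pr w b i f S) (fun S => f S - Pr w b i f S) =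
      ip w f f - ip w f (Pr w b i f) := by
  rw [ip_sub_left, ip_comm f, ip_comm (Pr w b i f), ip_sub_left, ip_sub_left, ip_Pr_Pr hw,
    ip_comm (Pr w b i f) f]
  ring

lemma mean_Pr (b : V → I) (i : I) (f : Finset V → ℝ) :
    ∑ S, w S * Pr w b i f S = ∑ S, w S * f S := by
  have h1 := Pr_selfadj hw b i f (fun _ => 1)
  have h2 : Pr w b i (fun _ => (1 : ℝ)) = fun _ => 1 := by
    funext S; exact Pr_const hw b i 1 S
  rw [h2] at h1
  unfold ip at h1
  simpa using h1

/-- Cauchy-Schwarz -/
lemma ip_sq_le (f g : Finset V → ℝ) : (ip w f g) ^ 2 ≤ ip w f f * ip w g g := by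
  unfold ip
  have h := Finset.sum_mul_sq_le_sq_mul_sq univ
    (fun S => Real.sqrt (w S) * f S) (fun S => Real.sqrt (w S) * g S)
  have e1 : ∀ f g : Finset V → ℝ, ∀ S, (Real.sqrt (w S) * f S) * (Real.sqrt (w S) * g S) =
      w S * f S * g S := by
    intro f g S
    have := Real.mul_self_sqrt (hw S).le
    linear_combination (f S * g S) * this
  have e2 : ∀ f : Finset V → ℝ, ∀ S, (Real.sqrt (w S) * f S) ^ 2 = w S * f S * f S := by
    intro f S
    rw [sq, e1]
  simp only [e1, e2] at h
  exact h

end Proj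

end H111R4
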