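import Mathlib
import Pool.Agent.H111R4.Proj

/-!
Dobrushin condition for blocks implies a Poincaré inequality for the block dynamics.
-/

namespace H111R4

open Finset

section Dob

variable {V I : Type} [Fintype V] [DecidableEq V] [DecidableEq I] [Fintype I]

/-- oscillation of `f` in the block `i` -/
noncomputable def osc (b : V → I) (i : I) (f : Finset V → ℝ) : ℝ :=
  ⨆ p : Finset V × Finset V, |f p.1 - f (mix b i p.1 p.2)|

omit [Fintype I] in
lemma le_osc (b : V → I) (i : I) (f : Finset V → ℝ) (S T : Finset V) :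
    |f S - f (mix b i S T)| ≤ osc b i f :=
  le_ciSup (f := fun p : Finset V × Finset V => |f p.1 - f (mix b i p.1 p.2)|)
    (Set.finite_range _).bddAbove (S, T)

omit [Fintype I] in
lemma osc_le (b : V → I) (i : I) (f : Finset V → ℝ) (c : ℝ)
    (h : ∀ S T, |f S - f (mix b i S T)| ≤ c) : osc b i f ≤ c :=
  ciSup_le fun p => h p.1 p.2

omit [Fintype I] in
lemma osc_nonneg (b : V → I) (i : I) (f : Finset V → ℝ) : 0 ≤ osc b i f :=
  (abs_nonneg _).trans (le_osc b i f ∅ ∅)

variable {w : Finset V → ℝ} (hw : ∀ S, 0 < w S)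
include hw

omit [Fintype I] in
lemma Pr_eq_sum (b : V → I) (i : I) (f : Finset V → ℝ) (S : Finset V) :
    Pr w b i f S = ∑ T, (w (mix b i S T) / Zc w b i S) * f (mix b i S T) := by
  unfold Pr
  rw [Finset.sum_div]
  exact Finset.sum_congr rfl fun T _ => by ring

omit [Fintype I] in
lemma sum_nu (b : V → I) (i : I) (S : Finset V) :
    ∑ T, (w (mix b i S T) / Zc w b i S) = 1 := by
  rw [← Finset.sum_div]
  exact div_self (Zc_pos hw b i S).ne'

omit [Fintype I] in
lemma osc_Pr_ne (b : V → I) {i j : I} (hij : i ≠ j) (c : ℝ)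
    (hc : ∀ S U, ∑ T, |w (mix b i S T) / Zc w b i S -
      w (mix b i (mix b j S U) T) / Zc w b i (mix b j S U)| ≤ c) (f : Finset V → ℝ) :
    osc b j (Pr w b i f) ≤ osc b j f + c * osc b i f := by
  apply osc_le
  intro S U
  set S' := mix b j S U with hS'
  have e : Pr w b i f S - Pr w b i f S' =
      ∑ T, (w (mix b i S T) / Zc w b i S) * (f (mix b i S T) - f (mix b i S' T)) +
      ∑ T, (w (mix b i S T) / Zc w b i S - w (mix b i S' T) / Zc w b i S') *
        (f (mix b i S' T) - f S') := by
    have h1 : ∑ T, (w (mix b i S T) / Zc w b i S - w (mix b i S' T) / Zc w b i S') * f S' = 0 := by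
      rw [← Finset.sum_mul, Finset.sum_sub_distrib, sum_nu hw, sum_nu hw]; ring
    rw [Pr_eq_sum hw, Pr_eq_sum hw]
    have h2 : ∑ T, (w (mix b i S T) / Zc w b i S - w (mix b i S' T) / Zc w b i S') *
        (f (mix b i S' T) - f S') = ∑ T, (w (mix b i S T) / Zc w b i S -
          w (mix b i S' T) / Zc w b i S') * f (mix b i S' T) := by
      rw [← sub_zero (∑ T, (w (mix b i S T) / Zc w b i S -
          w (mix b i S' T) / Zc w b i S') * f (mix b i S' T)), ← h1, ← Finset.sum_sub_distrib]
      exact Finset.sum_congr rfl fun T _ => by ring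
    rw [h2, ← Finset.sum_add_distrib, ← Finset.sum_sub_distrib]
    exact Finset.sum_congr rfl fun T _ => by ring
  rw [e]
  refine (abs_add_le _ _).trans (add_le_add ?_ ?_)
  · refine (Finset.abs_sum_le_sum_abs _ _).trans ?_
    have h3 : ∀ T ∈ (univ : Finset (Finset V)),
        |w (mix b i S T) / Zc w b i S * (f (mix b i S T) - f (mix b i S' T))| ≤
        w (mix b i S T) / Zc w b i S * osc b j f := by
      intro T _
      rw [abs_mul, abs_of_pos (div_pos (hw _) (Zc_pos hw b i S))]
      apply mul_le_mul_of_nonneg_left _ (div_pos (hw _) (Zc_pos hw b i S)).le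
      rw [hS', mix_comm b hij]
      exact le_osc b j f _ _
    refine (Finset.sum_le_sum h3).trans ?_
    rw [← Finset.sum_mul, sum_nu hw, one_mul]
  · refine (Finset.abs_sum_le_sum_abs _ _).trans ?_
    have h3 : ∀ T ∈ (univ : Finset (Finset V)),
        |(w (mix b i S T) / Zc w b i S - w (mix b i S' T) / Zc w b i S') *
          (f (mix b i S' T) - f S')| ≤
        |w (mix b i S T) / Zc w b i S - w (mix b i S' T) / Zc w b i S'| * osc b i f := by
      intro T _
      rw [abs_mul]
      apply mul_le_mul_of_nonneg_left _ (abs_nonneg _)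
      rw [abs_sub_comm]
      exact le_osc b i f _ _
    refine (Finset.sum_le_sum h3).trans ?_
    rw [← Finset.sum_mul]
    exact mul_le_mul_of_nonneg_right (hc S U) (osc_nonneg b i f)

omit [Fintype I] hw in
lemma osc_Pr_self (b : V → I) (i : I) (f : Finset V → ℝ) :
    osc b i (Pr w b i f) ≤ 0 := by
  apply osc_le
  intro S T
  rw [Pr_mix]; simp

/-- the block dynamics -/
noncomputable def Qop (w : Finset V → ℝ) (b : V → I) (f : Finset V → ℝ) (S : Finset V) : ℝ :=
  (∑ i : I, Pr w b i f S) / Fintype.card I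

/-- total oscillation -/
noncomputable def Del (b : V → I) (f : Finset V → ℝ) : ℝ := ∑ i : I, osc b i f

omit hw in
lemma osc_Q (b : V → I) (j : I) (f : Finset V → ℝ) :
    osc b j (Qop w b f) ≤ (∑ i, osc b j (Pr w b i f)) / Fintype.card I := by
  apply osc_le
  intro S T
  unfold Qop
  rw [← sub_div, abs_div, abs_of_nonneg (Nat.cast_nonneg (Fintype.card I) : (0:ℝ) ≤ _),
    ← Finset.sum_sub_distrib]
  apply div_le_div_of_nonneg_right _ (Nat.cast_nonneg _)
  refine (Finset.abs_sum_le_sum_abs _ _).trans (Finset.sum_le_sum fun i _ => ?_)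
  exact le_osc b j _ S T

lemma Del_Q (b : V → I) (c : I → I → ℝ)
    (hc : ∀ i j, i ≠ j → ∀ S U, ∑ T, |w (mix b i S T) / Zc w b i S -
      w (mix b i (mix b j S U) T) / Zc w b i (mix b j S U)| ≤ c i j)
    (hsum : ∀ i, ∑ j ∈ univ.erase i, c i j ≤ 1 / 2) [Nonempty I] (f : Finset V → ℝ) :
    Del b (Qop w b f) ≤ (1 - 1 / (2 * Fintype.card I)) * Del b f := by
  have hm : (0 : ℝ) < Fintype.card I := by exact_mod_cast Fintype.card_pos
  unfold Del
  have h1 : ∑ j, osc b j (Qop w b f) ≤ ∑ j, (∑ i, osc b j (Pr w b i f)) / Fintype.card I :=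
    Finset.sum_le_sum fun j _ => osc_Q b j f
  refine h1.trans ?_
  rw [← Finset.sum_div, Finset.sum_comm, div_le_iff₀ hm]
  have h2 : ∀ i, ∑ j, osc b j (Pr w b i f) ≤ (∑ j, osc b j f) - osc b i f / 2 := by
    intro i
    rw [← Finset.add_sum_erase univ (fun j => osc b j (Pr w b i f)) (mem_univ i),
      ← Finset.add_sum_erase univ (fun j => osc b j f) (mem_univ i)]
    have h3 : ∑ j ∈ univ.erase i, osc b j (Pr w b i f) ≤
        ∑ j ∈ univ.erase i, (osc b j f + c i j * osc b i f) := by
      apply Finset.sum_le_sum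
      intro j hj
      have hij : i ≠ j := (Finset.ne_of_mem_erase hj).symm
      exact osc_Pr_ne hw b hij (c i j) (hc i j hij) f
    rw [Finset.sum_add_distrib, ← Finset.sum_mul] at h3
    have h4 := mul_le_mul_of_nonneg_right (hsum i) (osc_nonneg b i f)
    have h5 := osc_Pr_self (w := w) b i f
    linarith
  have h3 := Finset.sum_le_sum (s := univ) (fun i _ => h2 i)
  rw [Finset.sum_sub_distrib, ← Finset.sum_div, Finset.sum_const, card_univ, nsmul_eq_mul] at h3
  refine h3.trans (le_of_eq ?_)
  field_simp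

/-- `T` on the blocks of `J`, `S` elsewhere. -/
def mixJ (b : V → I) (J : Finset I) (S T : Finset V) : Finset V :=
  univ.filter (fun v => if b v ∈ J then v ∈ T else v ∈ S)

omit hw [Fintype I] in
lemma abs_sub_mixJ_le (b : V → I) (f : Finset V → ℝ) (S T : Finset V) (J : Finset I) :
    |f S - f (mixJ b J S T)| ≤ ∑ i ∈ J, osc b i f := by
  classical
  induction J using Finset.induction_on with
  | empty =>
    have : mixJ b ∅ S T = S := by ext v; simp [mixJ]
    simp [this]
  | insert i J hi ih =>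
    rw [Finset.sum_insert hi]
    have e : mixJ b (insert i J) S T = mix b i (mixJ b J S T) T := by
      ext v
      simp only [mixJ, mem_mix, Finset.mem_filter, mem_univ, true_and, Finset.mem_insert]
      by_cases h1 : b v = i
      · simp [h1]
      · simp [h1]
    rw [e]
    have h1 := le_osc b i f (mixJ b J S T) T
    have h2 := abs_sub_le (f S) (f (mixJ b J S T)) (f (mix b i (mixJ b J S T) T))
    linarith

omit hw in
lemma abs_sub_le_Del (b : V → I) (f : Finset V → ℝ) (S T : Finset V) :
    |f S - f T| ≤ Del b f := by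
  have h := abs_sub_mixJ_le b f S T univ
  have e : mixJ b univ S T = T := by ext v; simp [mixJ]
  rw [e] at h
  exact h

lemma abs_le_Del (b : V → I) (f : Finset V → ℝ) (hf : ∑ S, w S * f S = 0) (S : Finset V) :
    |f S| ≤ Del b f := by
  have hW : 0 < ∑ T, w T := Finset.sum_pos (fun T _ => hw T) ⟨∅, mem_univ _⟩
  have h1 : (∑ T, w T) * f S = ∑ T, w T * (f S - f T) := by
    simp only [mul_sub]
    rw [Finset.sum_sub_distrib, hf, sub_zero, Finset.sum_mul]
  have h2 : (∑ T, w T) * |f S| ≤ (∑ T, w T) * Del b f := by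
    rw [← abs_of_pos hW, ← abs_mul, h1, abs_of_pos hW, Finset.sum_mul]
    refine (Finset.abs_sum_le_sum_abs _ _).trans (Finset.sum_le_sum fun T _ => ?_)
    rw [abs_mul, abs_of_pos (hw T)]
    exact mul_le_mul_of_nonneg_left (abs_sub_le_Del b f S T) (hw T).le
  exact le_of_mul_le_mul_left h2 hW

lemma mean_Q (b : V → I) [Nonempty I] (f : Finset V → ℝ) :
    ∑ S, w S * Qop w b f S = ∑ S, w S * f S := by
  have hm : (0 : ℝ) < Fintype.card I := by exact_mod_cast Fintype.card_pos
  unfold Qop
  have : ∑ S, w S * ((∑ i : I, Pr w b i f S) / Fintype.card I) =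
      (∑ i : I, ∑ S, w S * Pr w b i f S) / Fintype.card I := by
    rw [Finset.sum_comm, Finset.sum_div]
    apply Finset.sum_congr rfl
    intro S _
    rw [← Finset.mul_sum]; ring
  rw [this]
  simp only [mean_Pr hw]
  rw [Finset.sum_const, card_univ, nsmul_eq_mul]
  field_simp

lemma Q_selfadj (b : V → I) (f g : Finset V → ℝ) :
    ip w (Qop w b f) g = ip w f (Qop w b g) := by
  have key : ∀ f g : Finset V → ℝ, ip w (Qop w b f) g =
      (∑ i : I, ip w (Pr w b i f) g) / Fintype.card I := by
    intro f g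
    rw [← ip_sum_left]
    unfold ip Qop
    rw [Finset.sum_div]
    exact Finset.sum_congr rfl fun S _ => by ring
  rw [key, ip_comm f, key]
  congr 1
  apply Finset.sum_congr rfl
  intro i _
  rw [Pr_selfadj hw, ip_comm]

omit hw [DecidableEq V] in
lemma ip_self_le (f : Finset V → ℝ) (M : ℝ) (hw : ∀ S, 0 < w S) (h : ∀ S, |f S| ≤ M) :
    ip w f f ≤ (∑ S, w S) * M ^ 2 := by
  unfold ip
  rw [Finset.sum_mul]
  apply Finset.sum_le_sum
  intro S _
  rw [mul_assoc]
  apply mul_le_mul_of_nonneg_left _ (hw S).le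
  rw [← sq, ← sq_abs]
  exact pow_le_pow_left₀ (abs_nonneg _) (h S) 2

/-- the contraction in `L²` of the block dynamics -/
lemma Q_contract (b : V → I) (c : I → I → ℝ)
    (hc : ∀ i j, i ≠ j → ∀ S U, ∑ T, |w (mix b i S T) / Zc w b i S -
      w (mix b i (mix b j S U) T) / Zc w b i (mix b j S U)| ≤ c i j)
    (hsum : ∀ i, ∑ j ∈ univ.erase i, c i j ≤ 1 / 2) [Nonempty I] (g : Finset V → ℝ)
    (hg : ∑ S, w S * g S = 0) :
    ip w (Qop w b g) (Qop w b g) ≤ (1 - 1 / (2 * Fintype.card I)) ^ 2 * ip w g g := by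
  have hm : (1 : ℝ) ≤ Fintype.card I := by exact_mod_cast Fintype.card_pos
  set ρ : ℝ := 1 - 1 / (2 * Fintype.card I) with hρ
  have hρ0 : 0 < ρ := by
    rw [hρ]
    have : 1 / (2 * (Fintype.card I : ℝ)) ≤ 1 / 2 := by
      apply one_div_le_one_div_of_le (by norm_num); linarith
    linarith
  set G : ℕ → Finset V → ℝ := fun t => (Qop w b)^[t] g with hG
  have hGs : ∀ t, G (t + 1) = Qop w b (G t) := fun t => Function.iterate_succ_apply' _ _ _
  have hmean : ∀ t, ∑ S, w S * G t S = 0 := by
    intro t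
    induction t with
    | zero => exact hg
    | succ t ih => rw [hGs, mean_Q hw, ih]
  have hDel : ∀ t, Del b (G t) ≤ ρ ^ t * Del b g := by
    intro t
    induction t with
    | zero => simp [hG]
    | succ t ih =>
      rw [hGs]
      refine (Del_Q hw b c hc hsum (G t)).trans ?_
      rw [pow_succ, mul_comm (ρ ^ t) ρ, mul_assoc]
      exact mul_le_mul_of_nonneg_left ih hρ0.le
  set B : ℕ → ℝ := fun t => ip w (G t) (G t) with hB
  set K : ℝ := (∑ S, w S) * (Del b g) ^ 2 with hK
  have hBle : ∀ t, B t ≤ K * (ρ ^ 2) ^ t := by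
    intro t
    have h1 : B t ≤ (∑ S, w S) * (ρ ^ t * Del b g) ^ 2 := by
      apply ip_self_le _ _ hw
      intro S
      exact (abs_le_Del hw b (G t) (hmean t) S).trans (hDel t)
    refine h1.trans (le_of_eq ?_)
    rw [hK, mul_pow, ← pow_mul, ← pow_mul, mul_comm 2 t]
    ring
  have hBnn : ∀ t, 0 ≤ B t := fun t => ip_self_nonneg hw _
  have hlog : ∀ t, B (t + 1) ^ 2 ≤ B t * B (t + 2) := by
    intro t
    have h1 : B (t + 1) = ip w (G t) (G (t + 2)) := by
      rw [hB]
      show ip w (G (t + 1)) (G (t + 1)) = _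
      rw [show t + 2 = (t + 1) + 1 from rfl, hGs (t + 1), hGs t, Q_selfadj hw]
    rw [h1]
    exact ip_sq_le hw _ _
  have hB0 : B 0 = ip w g g := rfl
  have hB1 : B 1 = ip w (Qop w b g) (Qop w b g) := by
    show ip w (G (0 + 1)) (G (0 + 1)) = _
    rw [hGs]; rfl
  rw [← hB0, ← hB1]
  by_contra hcon
  push Not at hcon
  have hB0pos : 0 < B 0 := by
    rcases (hBnn 0).eq_or_lt with h | h
    · exfalso
      have h2 : g = fun _ => 0 := by
        funext S
        have h3 : ∑ S, w S * g S * g S = 0 := h.symm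
        rw [Finset.sum_eq_zero_iff_of_nonneg] at h3
        · have h4 := h3 S (mem_univ _)
          have h5 : g S * g S = 0 := by
            have h6 : w S * (g S * g S) = 0 := by rw [← h4]; ring
            rcases mul_eq_zero.1 h6 with h7 | h7
            · exact absurd h7 (hw S).ne'
            · exact h7
          exact mul_self_eq_zero.1 h5
        · intro S _
          rw [mul_assoc]
          exact mul_nonneg (hw S).le (mul_self_nonneg _)
      have h3 : Del b g ≤ 0 := by
        unfold Del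
        apply Finset.sum_nonpos
        intro i _
        apply osc_le
        intro S T
        rw [h2]; simp
      have h4 : B 1 ≤ 0 := by
        have h5 := hBle 1
        have h6 : 0 ≤ Del b g := Finset.sum_nonneg fun i _ => osc_nonneg b i g
        have h7 : Del b g = 0 := le_antisymm h3 h6
        rw [hK, h7] at h5
        simpa using h5
      rw [← h] at hcon
      simp at hcon
      linarith
    · exact h
  set r : ℝ := B 1 / B 0 with hr
  have hr1 : ρ ^ 2 < r := by rw [hr, lt_div_iff₀ hB0pos]; exact hcon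
  have hr0 : 0 < r := lt_trans (by positivity) hr1
  have hstep : ∀ t, 0 < B t ∧ r * B t ≤ B (t + 1) := by
    intro t
    induction t with
    | zero =>
      refine ⟨hB0pos, ?_⟩
      rw [hr]; field_simp; exact le_rfl
    | succ t ih =>
      have h1 : 0 < B (t + 1) := lt_of_lt_of_le (mul_pos hr0 ih.1) ih.2
      refine ⟨h1, ?_⟩
      have h2 := hlog t
      have h3 : r * B t * B (t + 1) ≤ B t * B (t + 2) := by nlinarith [ih.2]
      have h4 : B t * (r * B (t + 1)) ≤ B t * B (t + 2) := by linarith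
      exact le_of_mul_le_mul_left h4 ih.1
  have hgrow : ∀ t, r ^ t * B 0 ≤ B t := by
    intro t
    induction t with
    | zero => simp
    | succ t ih =>
      have h1 := (hstep t).2
      have h2 := mul_le_mul_of_nonneg_left ih hr0.le
      rw [pow_succ]
      linarith
  have hq : 1 < r / ρ ^ 2 := by rw [lt_div_iff₀ (by positivity)]; linarith
  have hbdd : ∀ t, (r / ρ ^ 2) ^ t ≤ K / B 0 := by
    intro t
    have h1 := (hgrow t).trans (hBle t)
    rw [div_pow, div_le_div_iff₀ (by positivity) hB0pos]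
    linarith
  obtain ⟨t, ht⟩ := pow_unbounded_of_one_lt (K / B 0) hq
  exact absurd (hbdd t) (not_le.2 ht)

/-- Poincaré inequality for the block dynamics, mean zero functions. -/
theorem block_poincare_zero (b : V → I) (c : I → I → ℝ)
    (hc : ∀ i j, i ≠ j → ∀ S U, ∑ T, |w (mix b i S T) / Zc w b i S -
      w (mix b i (mix b j S U) T) / Zc w b i (mix b j S U)| ≤ c i j)
    (hsum : ∀ i, ∑ j ∈ univ.erase i, c i j ≤ 1 / 2) [Nonempty I] (g : Finset V → ℝ)
    (hg : ∑ S, w S * g S = 0) :
    ip w g g ≤ 2 * ∑ i, ip w (fun S => g S - Pr w b i g S) (fun S => g S - Pr w b i g S) := by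
  have hm : (1 : ℝ) ≤ Fintype.card I := by exact_mod_cast Fintype.card_pos
  have h1 := Q_contract hw b c hc hsum g hg
  set m : ℝ := (Fintype.card I : ℝ) with hmdef
  set ρ : ℝ := 1 - 1 / (2 * m) with hρ
  have hρ0 : 0 < ρ := by
    rw [hρ]
    have : 1 / (2 * m) ≤ 1 / 2 := by
      apply one_div_le_one_div_of_le (by norm_num); linarith
    linarith
  have h2 : ip w g (Qop w b g) ≤ ρ * ip w g g := by
    have h3 := ip_sq_le hw g (Qop w b g)
    have h4 : (ip w g (Qop w b g)) ^ 2 ≤ (ρ * ip w g g) ^ 2 := by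
      have h5 := mul_le_mul_of_nonneg_left h1 (ip_self_nonneg hw g)
      nlinarith
    exact le_of_sq_le_sq h4 (mul_nonneg hρ0.le (ip_self_nonneg hw g))
  have h3 : ip w g (Qop w b g) = (∑ i, ip w g (Pr w b i g)) / m := by
    rw [ip_comm]
    have : ∀ i, ip w g (Pr w b i g) = ip w (Pr w b i g) g := fun i => ip_comm _ _
    simp only [this]
    rw [← ip_sum_left]
    unfold ip Qop
    rw [Finset.sum_div]
    exact Finset.sum_congr rfl fun S _ => by ring
  simp only [ip_residual hw]
  rw [Finset.sum_sub_distrib, Finset.sum_const, card_univ, nsmul_eq_mul]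
  rw [h3, div_le_iff₀ (by linarith)] at h2
  have h5 : ρ * ip w g g * m = (m - 1 / 2) * ip w g g := by
    rw [hρ]; field_simp
  rw [h5] at h2
  rw [← hmdef]
  linarith

end Dob

end H111R4
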