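import Mathlib
import Pool.Agent.H111R4.Def
import Pool.Agent.H111R4.Dob

/-!
The influence coefficients of the antiferromagnetic Ising model between blocks.
-/

namespace H111R4

open Finset

section Tilt

/-- the effect of a tilt -/
lemma tilt_le {ι : Type} [Fintype ι] [Nonempty ι] (a a' : ι → ℝ) (ha : ∀ T, 0 < a T)
    (A : ι → Prop) [DecidablePred A] (κ s : ℝ) (hκ : 0 < κ) (hs0 : 0 ≤ s) (hs1 : s < 1)
    (ha' : ∀ T, a' T = κ * a T * (if A T then 1 - s else 1)) :
    ∑ T, |a T / ∑ T, a T - a' T / ∑ T, a' T| ≤
      2 * s * ((∑ T ∈ univ.filter A, a T) / ∑ T, a T) := by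
  set Z := ∑ T, a T with hZ
  set Z₁ := ∑ T ∈ univ.filter A, a T with hZ₁
  have hZpos : 0 < Z := Finset.sum_pos (fun T _ => ha T) univ_nonempty
  have hZ₁0 : 0 ≤ Z₁ := Finset.sum_nonneg fun T _ => (ha T).le
  have hZ₁Z : Z₁ ≤ Z := Finset.sum_le_sum_of_subset_of_nonneg (filter_subset _ _)
    (fun T _ _ => (ha T).le)
  have split : ∀ p q : ℝ, ∑ T, a T * (if A T then p else q) = Z₁ * p + (Z - Z₁) * q := by
    intro p q
    have h1 : ∑ T, a T * (if A T then p else q) =
        ∑ T ∈ univ.filter A, a T * p + ∑ T ∈ univ.filter (fun T => ¬ A T), a T * q := by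
      rw [← Finset.sum_filter_add_sum_filter_not univ A]
      congr 1
      · apply Finset.sum_congr rfl
        intro T hT
        rw [if_pos (Finset.mem_filter.1 hT).2]
      · apply Finset.sum_congr rfl
        intro T hT
        rw [if_neg (Finset.mem_filter.1 hT).2]
    have h2 : ∑ T ∈ univ.filter (fun T => ¬ A T), a T = Z - Z₁ := by
      rw [hZ, hZ₁, ← Finset.sum_filter_add_sum_filter_not univ A (fun T => a T)]
      ring
    rw [h1, ← Finset.sum_mul, ← Finset.sum_mul, h2]
  have hZ' : ∑ T, a' T = κ * (Z - s * Z₁) := by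
    have h1 : ∑ T, a' T = κ * ∑ T, a T * (if A T then 1 - s else 1) := by
      rw [Finset.mul_sum]
      exact Finset.sum_congr rfl fun T _ => by rw [ha' T]; ring
    rw [h1, split]; ring
  have hden : 0 < Z - s * Z₁ := by nlinarith
  have hT : ∀ T, |a T / Z - a' T / ∑ T, a' T| =
      a T * (if A T then s * (Z - Z₁) else s * Z₁) / (Z * (Z - s * Z₁)) := by
    intro T
    rw [hZ', ha' T]
    by_cases hA : A T
    · rw [if_pos hA, if_pos hA]
      have e : a T / Z - κ * a T * (1 - s) / (κ * (Z - s * Z₁)) =
          a T * (s * (Z - Z₁)) / (Z * (Z - s * Z₁)) := by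
        field_simp
        ring
      rw [e, abs_of_nonneg]
      apply div_nonneg _ (by positivity)
      exact mul_nonneg (ha T).le (mul_nonneg hs0 (by linarith))
    · rw [if_neg hA, if_neg hA]
      have e : a T / Z - κ * a T * 1 / (κ * (Z - s * Z₁)) =
          -(a T * (s * Z₁) / (Z * (Z - s * Z₁))) := by
        field_simp
        ring
      rw [e, abs_neg, abs_of_nonneg]
      apply div_nonneg _ (by positivity)
      exact mul_nonneg (ha T).le (mul_nonneg hs0 hZ₁0)
  simp only [hT]
  rw [← Finset.sum_div, split, div_le_iff₀ (by positivity)]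
  have e2 : 2 * s * (Z₁ / Z) * (Z * (Z - s * Z₁)) = 2 * s * Z₁ * (Z - s * Z₁) := by
    field_simp
  rw [e2]
  have h3 : 0 ≤ s * Z₁ := mul_nonneg hs0 hZ₁0
  nlinarith [mul_nonneg h3 (mul_nonneg (sub_nonneg.2 hs1.le) hZ₁0)]

variable {V I : Type} [Fintype V] [DecidableEq V] [DecidableEq I]
variable (G : SimpleGraph V) (lam β : ℝ)

lemma edgesIn_insert {S : Finset V} {v : V} (hv : v ∉ S) :
    edgesIn G (insert v S) = edgesIn G S + nbrsIn G v S := by
  unfold edgesIn nbrsIn
  have e : {e : Sym2 V | e ∈ G.edgeSet ∧ ∀ u ∈ e, u ∈ insert v S} =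
      {e : Sym2 V | e ∈ G.edgeSet ∧ ∀ u ∈ e, u ∈ S} ∪
        (fun u => s(v, u)) '' {u : V | G.Adj v u ∧ u ∈ S} := by
    ext e
    induction e using Sym2.ind with
    | _ x y =>
      simp only [Set.mem_setOf_eq, SimpleGraph.mem_edgeSet, Sym2.mem_iff, forall_eq_or_imp,
        forall_eq, Finset.mem_insert, Set.mem_union, Set.mem_image]
      constructor
      · rintro ⟨h, hx, hy⟩
        rcases hx with rfl | hx
        · rcases hy with rfl | hy
          · exact absurd h (G.loopless.irrefl _)
          · right; exact ⟨y, ⟨h, hy⟩, rfl⟩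
        · rcases hy with rfl | hy
          · right; exact ⟨x, ⟨h.symm, hx⟩, Sym2.eq_swap⟩
          · left; exact ⟨h, hx, hy⟩
      · rintro (⟨h, hx, hy⟩ | ⟨u, ⟨hu, huS⟩, he⟩)
        · exact ⟨h, Or.inr hx, Or.inr hy⟩
        · rw [Sym2.eq_iff] at he
          rcases he with ⟨rfl, rfl⟩ | ⟨rfl, rfl⟩
          · exact ⟨hu, Or.inl rfl, Or.inr huS⟩
          · exact ⟨hu.symm, Or.inr huS, Or.inl rfl⟩
  rw [e, Set.ncard_union_eq, Set.ncard_image_of_injective]
  · intro x y hxy
    simp only [Sym2.eq_iff] at hxy
    rcases hxy with ⟨_, h⟩ | ⟨h1, h2⟩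
    · exact h
    · rw [← h1, h2]
  · rw [Set.disjoint_left]
    rintro e ⟨_, he⟩ ⟨u, _, rfl⟩
    exact hv (he v (Sym2.mem_mk_left v u))

lemma weight_pos {lam : ℝ} (hl : 0 < lam) (β : ℝ) (S : Finset V) : 0 < weight G lam β S := by
  unfold weight; positivity

lemma weight_insert {S : Finset V} {v : V} (hv : v ∉ S) :
    weight G lam β (insert v S) =
      weight G lam β S * (lam * Real.exp (-(β * nbrsIn G v S))) := by
  unfold weight
  rw [Finset.card_insert_of_notMem hv, edgesIn_insert G hv, pow_succ]
  push_cast
  rw [show -(β * ((edgesIn G S : ℝ) + nbrsIn G v S)) =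
    -(β * edgesIn G S) + -(β * nbrsIn G v S) by ring, Real.exp_add]
  ring

variable {lam β}
variable (hl : 0 < lam) (hβ : 0 < β)

/-- distance of conditional laws of block `i` -/
noncomputable def Dd (w : Finset V → ℝ) (b : V → I) (i : I) (S S' : Finset V) : ℝ :=
  ∑ T, |w (mix b i S T) / Zc w b i S - w (mix b i S' T) / Zc w b i S'|

omit G [DecidableEq V] in
lemma Dd_self [DecidableEq V] (w : Finset V → ℝ) (b : V → I) (i : I) (S : Finset V) :
    Dd w b i S S = 0 := by simp [Dd]

lemma Dd_comm (w : Finset V → ℝ) (b : V → I) (i : I) (S S' : Finset V) :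
    Dd w b i S S' = Dd w b i S' S := by
  unfold Dd
  exact Finset.sum_congr rfl fun T _ => abs_sub_comm _ _

lemma Dd_tri (w : Finset V → ℝ) (b : V → I) (i : I) (S S' S'' : Finset V) :
    Dd w b i S S'' ≤ Dd w b i S S' + Dd w b i S' S'' := by
  unfold Dd
  rw [← Finset.sum_add_distrib]
  exact Finset.sum_le_sum fun T _ => abs_sub_le _ _ _

/-- vertices having a neighbour in block `i` -/
def HasNbr (G : SimpleGraph V) (b : V → I) (i : I) (u : V) : Prop := ∃ v, G.Adj u v ∧ b v = i

open Classical in
include hl hβ in
lemma Dd_single (b : V → I) (i : I) (u : V) (hu : b u ≠ i)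
    (huniq : ∀ v v', G.Adj u v → b v = i → G.Adj u v' → b v' = i → v = v') (S : Finset V) :
    Dd (weight G lam β) b i (S.erase u) (insert u S) ≤
      2 * (lam * (1 - Real.exp (-β))) * (if HasNbr G b i u then 1 else 0) := by
  set w := weight G lam β with hwdef
  have hw : ∀ S, 0 < w S := weight_pos G hl β
  set X := S.erase u with hX
  have huX : u ∉ X := by simp [hX]
  have hY : insert u S = insert u X := by ext v; simp [hX]; tauto
  have hmixY : ∀ T, mix b i (insert u S) T = insert u (mix b i X T) := by
    intro T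
    rw [hY]
    ext v
    simp only [mem_mix, Finset.mem_insert]
    by_cases hv : v = u
    · subst hv; simp [hu]
    · simp [hv]
  have humix : ∀ T, u ∉ mix b i X T := by
    intro T; simp [hu, huX]
  have hwY : ∀ T, w (mix b i (insert u S) T) =
      w (mix b i X T) * (lam * Real.exp (-(β * nbrsIn G u (mix b i X T)))) := by
    intro T
    rw [hmixY, hwdef, weight_insert G lam β (humix T)]
  set c0 := nbrsIn G u (X.filter (fun v => b v ≠ i)) with hc0
  unfold Dd
  by_cases hN : HasNbr G b i u
  · rw [if_pos hN]
    obtain ⟨v₀, hv₀, hbv₀⟩ := hN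
    have hnb : ∀ T, nbrsIn G u (mix b i X T) = c0 + (if v₀ ∈ T then 1 else 0) := by
      intro T
      by_cases hT : v₀ ∈ T
      · rw [if_pos hT]
        have e : {x : V | G.Adj u x ∧ x ∈ mix b i X T} =
            insert v₀ {x : V | G.Adj u x ∧ x ∈ X.filter (fun v => b v ≠ i)} := by
          ext x
          simp only [Set.mem_setOf_eq, mem_mix, Set.mem_insert_iff, Finset.mem_filter]
          constructor
          · rintro ⟨h1, h2⟩
            by_cases hx : b x = i
            · left; exact huniq x v₀ h1 hx hv₀ hbv₀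
            · rw [if_neg hx] at h2; right; exact ⟨h1, h2, hx⟩
          · rintro (rfl | ⟨h1, h2, h3⟩)
            · exact ⟨hv₀, by rw [if_pos hbv₀]; exact hT⟩
            · exact ⟨h1, by rw [if_neg h3]; exact h2⟩
        unfold nbrsIn at hc0 ⊢
        rw [e, Set.ncard_insert_of_notMem _ (Set.toFinite _), hc0]
        simp [hbv₀]
      · rw [if_neg hT]
        have e : {x : V | G.Adj u x ∧ x ∈ mix b i X T} =
            {x : V | G.Adj u x ∧ x ∈ X.filter (fun v => b v ≠ i)} := by
          ext x
          simp only [Set.mem_setOf_eq, mem_mix, Finset.mem_filter]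
          constructor
          · rintro ⟨h1, h2⟩
            by_cases hx : b x = i
            · rw [if_pos hx] at h2
              exact absurd (huniq x v₀ h1 hx hv₀ hbv₀ ▸ h2) hT
            · rw [if_neg hx] at h2; exact ⟨h1, h2, hx⟩
          · rintro ⟨h1, h2, h3⟩
            exact ⟨h1, by rw [if_neg h3]; exact h2⟩
        unfold nbrsIn at hc0 ⊢
        rw [e, hc0]; rfl
    have hs1 : 1 - Real.exp (-β) < 1 := by linarith [Real.exp_pos (-β)]
    have hs0 : 0 ≤ 1 - Real.exp (-β) := by
      have : Real.exp (-β) ≤ 1 := Real.exp_le_one_iff.2 (by linarith)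
      linarith
    have key := tilt_le (fun T => w (mix b i X T)) (fun T => w (mix b i (insert u S) T))
      (fun T => hw _) (fun T : Finset V => v₀ ∈ T) (lam * Real.exp (-(β * c0)))
      (1 - Real.exp (-β)) (by positivity) hs0 hs1 (by
        intro T
        rw [hwY, hnb]
        by_cases hT : v₀ ∈ T
        · simp only [if_pos hT]
          push_cast
          rw [show -(β * ((c0 : ℝ) + 1)) = -(β * c0) + -β by ring, Real.exp_add]
          ring
        · simp only [if_neg hT]
          push_cast
          rw [add_zero]; ring)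
    refine (le_trans ?_ key).trans ?_
    · apply le_of_eq
      apply Finset.sum_congr rfl
      intro T _
      rfl
    · have hZ1 : (∑ T ∈ univ.filter (fun T : Finset V => v₀ ∈ T), w (mix b i X T)) ≤
          lam * ∑ T, w (mix b i X T) := by
        have h1 : (∑ T ∈ univ.filter (fun T : Finset V => v₀ ∈ T), w (mix b i X T)) =
            ∑ T ∈ univ.filter (fun T : Finset V => v₀ ∉ T), w (mix b i X (insert v₀ T)) := by
          refine Finset.sum_nbij' (fun T => T.erase v₀) (fun T => insert v₀ T) ?_ ?_ ?_ ?_ ?_
          · intro T hT; simp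
          · intro T hT; simp
          · intro T hT
            simp only [Finset.mem_filter, mem_univ, true_and] at hT
            exact Finset.insert_erase hT
          · intro T hT
            simp only [Finset.mem_filter, mem_univ, true_and] at hT
            exact Finset.erase_insert hT
          · intro T hT
            simp only [Finset.mem_filter, mem_univ, true_and] at hT
            rw [Finset.insert_erase hT]
        rw [h1]
        have h2 : ∀ T ∈ univ.filter (fun T : Finset V => v₀ ∉ T),
            w (mix b i X (insert v₀ T)) ≤ lam * w (mix b i X T) := by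
          intro T hT
          simp only [Finset.mem_filter, mem_univ, true_and] at hT
          have e : mix b i X (insert v₀ T) = insert v₀ (mix b i X T) := by
            ext x
            simp only [mem_mix, Finset.mem_insert]
            by_cases hx : x = v₀
            · subst hx; simp [hbv₀]
            · simp [hx]
          have hv₀mix : v₀ ∉ mix b i X T := by simp [hbv₀, hT]
          rw [e, hwdef, weight_insert G lam β hv₀mix]
          have h3 : Real.exp (-(β * nbrsIn G v₀ (mix b i X T))) ≤ 1 := by
            rw [Real.exp_le_one_iff]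
            have : 0 ≤ β * (nbrsIn G v₀ (mix b i X T) : ℝ) := by positivity
            linarith
          have h4 : 0 < weight G lam β (mix b i X T) := hw _
          have h5 : lam * Real.exp (-(β * nbrsIn G v₀ (mix b i X T))) ≤ lam * 1 :=
            mul_le_mul_of_nonneg_left h3 hl.le
          nlinarith
        refine (Finset.sum_le_sum h2).trans ?_
        rw [← Finset.mul_sum]
        apply mul_le_mul_of_nonneg_left _ hl.le
        exact Finset.sum_le_sum_of_subset_of_nonneg (filter_subset _ _) (fun T _ _ => (hw _).le)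
      have hZpos : 0 < ∑ T, w (mix b i X T) :=
        Finset.sum_pos (fun T _ => hw _) ⟨∅, mem_univ _⟩
      have hq : (∑ T ∈ univ.filter (fun T : Finset V => v₀ ∈ T), w (mix b i X T)) /
          (∑ T, w (mix b i X T)) ≤ lam := by
        rw [div_le_iff₀ hZpos]; exact hZ1
      have := mul_le_mul_of_nonneg_left hq (mul_nonneg (zero_le_two) hs0)
      calc _ ≤ 2 * (1 - Real.exp (-β)) * lam := this
        _ = _ := by ring
  · rw [if_neg hN, mul_zero]
    have hnb : ∀ T, nbrsIn G u (mix b i X T) = c0 := by
      intro T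
      have e : {x : V | G.Adj u x ∧ x ∈ mix b i X T} =
          {x : V | G.Adj u x ∧ x ∈ X.filter (fun v => b v ≠ i)} := by
        ext x
        simp only [Set.mem_setOf_eq, mem_mix, Finset.mem_filter]
        constructor
        · rintro ⟨h1, h2⟩
          by_cases hx : b x = i
          · exact absurd ⟨x, h1, hx⟩ hN
          · rw [if_neg hx] at h2; exact ⟨h1, h2, hx⟩
        · rintro ⟨h1, h2, h3⟩
          exact ⟨h1, by rw [if_neg h3]; exact h2⟩
      unfold nbrsIn at hc0 ⊢
      rw [e, hc0]
    have hZ : Zc w b i (insert u S) = (lam * Real.exp (-(β * c0))) * Zc w b i X := by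
      unfold Zc
      rw [Finset.mul_sum]
      apply Finset.sum_congr rfl
      intro T _
      rw [hwY, hnb]; ring
    apply le_of_eq
    apply Finset.sum_eq_zero
    intro T _
    rw [hZ, hwY, hnb]
    have h1 := Zc_pos hw b i X
    have h2 : 0 < lam * Real.exp (-(β * c0)) := by positivity
    rw [abs_eq_zero, sub_eq_zero]
    field_simp

/-- `T` on the vertices of `J`, `S` elsewhere. -/
def mixV (J : Finset V) (S T : Finset V) : Finset V :=
  univ.filter (fun v => if v ∈ J then v ∈ T else v ∈ S)

lemma mixV_empty (S T : Finset V) : mixV ∅ S T = S := by ext v; simp [mixV]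

lemma mixV_insert (J : Finset V) (S T : Finset V) (u : V) :
    mixV (insert u J) S T = if u ∈ T then insert u (mixV J S T) else (mixV J S T).erase u := by
  by_cases hu : u ∈ T
  · rw [if_pos hu]
    ext v
    simp only [mixV, Finset.mem_filter, mem_univ, true_and, Finset.mem_insert]
    by_cases hv : v = u
    · subst hv; simp [hu]
    · simp [hv]
  · rw [if_neg hu]
    ext v
    simp only [mixV, Finset.mem_filter, mem_univ, true_and, Finset.mem_insert, Finset.mem_erase]
    by_cases hv : v = u
    · subst hv; simp [hu]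
    · simp [hv]

open Classical in
include hl hβ in
lemma Dd_mixV (b : V → I) (i : I)
    (huniq : ∀ u, b u ≠ i → ∀ v v', G.Adj u v → b v = i → G.Adj u v' → b v' = i → v = v')
    (S U : Finset V) (J : Finset V) (hJ : ∀ u ∈ J, b u ≠ i) :
    Dd (weight G lam β) b i S (mixV J S U) ≤
      ∑ u ∈ J, 2 * (lam * (1 - Real.exp (-β))) * (if HasNbr G b i u then 1 else 0) := by
  have hα : 0 ≤ 2 * (lam * (1 - Real.exp (-β))) := by
    have : Real.exp (-β) ≤ 1 := Real.exp_le_one_iff.2 (by linarith)
    have h2 : 0 ≤ 1 - Real.exp (-β) := by linarith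
    positivity
  induction J using Finset.induction_on with
  | empty => rw [mixV_empty, Dd_self]; simp
  | insert u J hu ih =>
    rw [Finset.sum_insert hu]
    have ih' := ih (fun x hx => hJ x (Finset.mem_insert_of_mem hx))
    have hub := hJ u (Finset.mem_insert_self _ _)
    set X := mixV J S U with hX
    have h1 : Dd (weight G lam β) b i X (mixV (insert u J) S U) ≤
        2 * (lam * (1 - Real.exp (-β))) * (if HasNbr G b i u then 1 else 0) := by
      have hnn : 0 ≤ 2 * (lam * (1 - Real.exp (-β))) * (if HasNbr G b i u then (1:ℝ) else 0) := by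
        apply mul_nonneg hα; split_ifs <;> norm_num
      have hs := Dd_single G hl hβ b i u hub (huniq u hub) X
      rw [mixV_insert, ← hX]
      by_cases hU : u ∈ U
      · rw [if_pos hU]
        by_cases hX' : u ∈ X
        · rw [Finset.insert_eq_of_mem hX', Dd_self]; exact hnn
        · rw [Finset.erase_eq_of_notMem hX'] at hs; exact hs
      · rw [if_neg hU]
        by_cases hX' : u ∈ X
        · rw [Finset.insert_eq_of_mem hX'] at hs
          rw [Dd_comm]; exact hs
        · rw [Finset.erase_eq_of_notMem hX', Dd_self]; exact hnn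
    have h2 := Dd_tri (weight G lam β) b i S X (mixV (insert u J) S U)
    linarith

open Classical in
include hl hβ in
/-- The Dobrushin condition. -/
lemma dobrushin [Fintype I] (b : V → I) 
    (huniq : ∀ i, ∀ u, b u ≠ i → ∀ v v', G.Adj u v → b v = i → G.Adj u v' → b v' = i → v = v')
    (K : ℕ) (hK : ∀ i, (univ.filter (fun u => b u ≠ i ∧ HasNbr G b i u)).card ≤ K)
    (hα : 2 * (lam * (1 - Real.exp (-β))) * K ≤ 1 / 2) :
    ∃ c : I → I → ℝ, (∀ i j, i ≠ j → ∀ S U, ∑ T, |weight G lam β (mix b i S T) /
        Zc (weight G lam β) b i S - weight G lam β (mix b i (mix b j S U) T) /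
        Zc (weight G lam β) b i (mix b j S U)| ≤ c i j) ∧
      ∀ i, ∑ j ∈ univ.erase i, c i j ≤ 1 / 2 := by
  have hα0 : 0 ≤ 2 * (lam * (1 - Real.exp (-β))) := by
    have : Real.exp (-β) ≤ 1 := Real.exp_le_one_iff.2 (by linarith)
    have h2 : 0 ≤ 1 - Real.exp (-β) := by linarith
    positivity
  refine ⟨fun i j => ∑ u ∈ univ.filter (fun u => b u = j),
    2 * (lam * (1 - Real.exp (-β))) * (if HasNbr G b i u then 1 else 0), ?_, ?_⟩
  · intro i j hij S U
    have h := Dd_mixV G hl hβ b i (huniq i) S U (univ.filter (fun u => b u = j)) (by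
      intro u hu
      simp only [Finset.mem_filter, mem_univ, true_and] at hu
      rw [hu]; exact hij.symm)
    have e : mixV (univ.filter (fun u => b u = j)) S U = mix b j S U := by
      ext v
      simp [mixV]
    rw [e] at h
    exact h
  · intro i
    have h1 : ∑ j ∈ univ.erase i, ∑ u ∈ univ.filter (fun u => b u = j),
        2 * (lam * (1 - Real.exp (-β))) * (if HasNbr G b i u then (1:ℝ) else 0) =
        ∑ u ∈ univ.filter (fun u => b u ≠ i),
          2 * (lam * (1 - Real.exp (-β))) * (if HasNbr G b i u then (1:ℝ) else 0) := by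
      rw [← Finset.sum_biUnion]
      · apply Finset.sum_congr _ (fun _ _ => rfl)
        ext u
        simp
      · intro j _ j' _ hjj'
        rw [Function.onFun, Finset.disjoint_left]
        intro u hu hu'
        simp only [Finset.mem_filter, mem_univ, true_and] at hu hu'
        exact hjj' (hu.symm.trans hu')
    rw [h1, ← Finset.mul_sum, Finset.sum_ite, Finset.sum_const_zero, add_zero,
      Finset.sum_const, nsmul_eq_mul, mul_one, Finset.filter_filter]
    refine le_trans ?_ hα
    apply mul_le_mul_of_nonneg_left _ hα0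
    exact_mod_cast hK i

end Tilt

end H111R4
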