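import Mathlib
import Pool.Agent.H111R4.Tilt

/-!
Comparison of block and single site updates.
-/

namespace H111R4

open Finset

section Comp

variable {V I : Type} [Fintype V] [DecidableEq V] [DecidableEq I]
variable {w : Finset V → ℝ} (hw : ∀ S, 0 < w S)

omit [DecidableEq I] in
lemma mix_id (v : V) (S T : Finset V) :
    mix (id : V → V) v S T = if v ∈ T then insert v S else S.erase v := by
  by_cases hv : v ∈ T
  · rw [if_pos hv]
    ext x
    simp only [mem_mix, id, Finset.mem_insert]
    by_cases hx : x = v
    · subst hx; simp [hv]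
    · simp [hx]
  · rw [if_neg hv]
    ext x
    simp only [mem_mix, id, Finset.mem_erase]
    by_cases hx : x = v
    · subst hx; simp [hv]
    · simp [hx]

omit [DecidableEq I] in
lemma card_mem_eq (v : V) : (univ.filter (fun T : Finset V => v ∈ T)).card =
    (univ.filter (fun T : Finset V => v ∉ T)).card := by
  refine Finset.card_nbij' (fun T => T.erase v) (fun T => insert v T) ?_ ?_ ?_ ?_
  · intro T hT; simp
  · intro T hT; simp
  · intro T hT
    simp only [Finset.coe_filter, mem_univ, true_and, Set.mem_setOf_eq] at hT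
    exact Finset.insert_erase hT
  · intro T hT
    simp only [Finset.coe_filter, mem_univ, true_and, Set.mem_setOf_eq] at hT
    exact Finset.erase_insert hT

omit [DecidableEq I] in
lemma sum_site (v : V) (S : Finset V) (F : Finset V → ℝ) :
    ∑ T, F (mix (id : V → V) v S T) =
      ((univ.filter (fun T : Finset V => v ∈ T)).card : ℝ) *
        (F (insert v S) + F (S.erase v)) := by
  rw [← Finset.sum_filter_add_sum_filter_not univ (fun T : Finset V => v ∈ T)]
  have h1 : ∑ T ∈ univ.filter (fun T : Finset V => v ∈ T), F (mix (id : V → V) v S T) =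
      ((univ.filter (fun T : Finset V => v ∈ T)).card : ℝ) * F (insert v S) := by
    rw [← nsmul_eq_mul, ← Finset.sum_const]
    apply Finset.sum_congr rfl
    intro T hT
    rw [mix_id, if_pos (Finset.mem_filter.1 hT).2]
  have h2 : ∑ T ∈ univ.filter (fun T : Finset V => ¬ v ∈ T), F (mix (id : V → V) v S T) =
      ((univ.filter (fun T : Finset V => v ∈ T)).card : ℝ) * F (S.erase v) := by
    rw [card_mem_eq, ← nsmul_eq_mul, ← Finset.sum_const]
    apply Finset.sum_congr rfl
    intro T hT
    rw [mix_id, if_neg (Finset.mem_filter.1 hT).2]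
  rw [h1, h2]; ring

include hw

omit [DecidableEq I] in
lemma Pr_site (v : V) (f : Finset V → ℝ) (S : Finset V) :
    Pr w (id : V → V) v f S =
      (w (insert v S) * f (insert v S) + w (S.erase v) * f (S.erase v)) /
        (w (insert v S) + w (S.erase v)) := by
  unfold Pr Zc
  rw [sum_site v S (fun X => w X * f X), sum_site v S w]
  have h1 : (0 : ℝ) < ((univ.filter (fun T : Finset V => v ∈ T)).card : ℝ) := by
    have : 0 < (univ.filter (fun T : Finset V => v ∈ T)).card :=
      Finset.card_pos.2 ⟨{v}, by simp⟩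
    exact_mod_cast this
  have h2 : 0 < w (insert v S) + w (S.erase v) := add_pos (hw _) (hw _)
  field_simp

variable {r : ℝ} (hr1 : 1 ≤ r)
  (hr : ∀ S v, w (insert v S) ≤ r * w (S.erase v) ∧ w (S.erase v) ≤ r * w (insert v S))
include hr1 hr

omit [DecidableEq I] in
lemma flip_sq_le (v : V) (f : Finset V → ℝ) (z : Finset V) :
    (f (insert v z) - f (z.erase v)) ^ 2 ≤
      4 * r ^ 2 * (f z - Pr w (id : V → V) v f z) ^ 2 := by
  rw [Pr_site hw]
  set a := w (insert v z) with ha
  set c := w (z.erase v) with hc
  have hapos : 0 < a := hw _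
  have hcpos : 0 < c := hw _
  obtain ⟨h1, h2⟩ := hr z v
  rw [← ha, ← hc] at h1 h2
  have hsum : 0 < a + c := by linarith
  set D := f (insert v z) - f (z.erase v) with hD
  by_cases hv : v ∈ z
  · have e : insert v z = z := Finset.insert_eq_of_mem hv
    rw [e] at hD ⊢
    have e2 : f z - (a * f z + c * f (z.erase v)) / (a + c) = (c / (a + c)) * D := by
      rw [hD]; field_simp; ring
    rw [e2]
    have h3 : 1 ≤ 2 * r * (c / (a + c)) := by
      rw [mul_div_assoc', le_div_iff₀ hsum]
      nlinarith
    have h4 : 1 ≤ (2 * r * (c / (a + c))) ^ 2 := one_le_pow₀ h3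
    calc D ^ 2 = 1 * D ^ 2 := by ring
      _ ≤ (2 * r * (c / (a + c))) ^ 2 * D ^ 2 := mul_le_mul_of_nonneg_right h4 (sq_nonneg _)
      _ = _ := by ring
  · have e : z.erase v = z := Finset.erase_eq_of_notMem hv
    rw [e] at hD ⊢
    have e2 : f z - (a * f (insert v z) + c * f z) / (a + c) = -((a / (a + c)) * D) := by
      rw [hD]; field_simp; ring
    rw [e2]
    have h3 : 1 ≤ 2 * r * (a / (a + c)) := by
      rw [mul_div_assoc', le_div_iff₀ hsum]
      nlinarith
    have h4 : 1 ≤ (2 * r * (a / (a + c))) ^ 2 := one_le_pow₀ h3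
    calc D ^ 2 = 1 * D ^ 2 := by ring
      _ ≤ (2 * r * (a / (a + c))) ^ 2 * D ^ 2 := mul_le_mul_of_nonneg_right h4 (sq_nonneg _)
      _ = _ := by ring

omit [DecidableEq I] in
lemma ratio_mixV (J : Finset V) (S T : Finset V) :
    w (mixV J S T) ≤ r ^ J.card * w S := by
  induction J using Finset.induction_on with
  | empty => rw [mixV_empty]; simp
  | insert u J hu ih =>
    rw [Finset.card_insert_of_notMem hu, pow_succ, mixV_insert]
    set X := mixV J S T with hX
    have h0 : 0 < w X := hw _
    have h1 : w (if u ∈ T then insert u X else X.erase u) ≤ r * w X := by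
      obtain ⟨h1, h2⟩ := hr X u
      split_ifs
      · by_cases hX' : u ∈ X
        · rw [Finset.insert_eq_of_mem hX']; nlinarith
        · rw [Finset.erase_eq_of_notMem hX'] at h1; exact h1
      · by_cases hX' : u ∈ X
        · rw [Finset.insert_eq_of_mem hX'] at h2; exact h2
        · rw [Finset.erase_eq_of_notMem hX']; nlinarith
    have h2 := mul_le_mul_of_nonneg_left ih (by linarith : (0:ℝ) ≤ r)
    calc _ ≤ r * w X := h1
      _ ≤ r * (r ^ J.card * w S) := h2
      _ = _ := by ring

lemma ratio_mix (b : V → I) (i : I) (S T : Finset V) :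
    w (mix b i S T) ≤ r ^ (univ.filter (fun v => b v = i)).card * w S := by
  have h := ratio_mixV hw hr1 hr (univ.filter (fun v => b v = i)) S T
  have e : mixV (univ.filter (fun v => b v = i)) S T = mix b i S T := by
    ext v; simp [mixV]
  rw [e] at h
  exact h

lemma point_le_avg (b : V → I) (i : I) (h : Finset V → ℝ) (hh : ∀ S, 0 ≤ h S)
    (S T₀ : Finset V) :
    h (mix b i S T₀) ≤ (2 ^ (univ.filter (fun v => b v = i)).card *
      r ^ (univ.filter (fun v => b v = i)).card) * Pr w b i h S := by
  set B := univ.filter (fun v => b v = i) with hB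
  set z := mix b i S T₀ with hz
  have hZpos := Zc_pos hw b i S
  have h1 : (2 : ℝ) ^ (Bᶜ).card * (w z * h z) ≤ ∑ T, w (mix b i S T) * h (mix b i S T) := by
    have hinj : Set.InjOn (fun U : Finset V => (T₀ ∩ B) ∪ U) (Bᶜ.powerset : Set (Finset V)) := by
      intro U hU U' hU' hUU'
      simp only [Finset.coe_powerset, Set.mem_preimage, Set.mem_powerset_iff,
        Finset.coe_subset] at hU hU'
      simp only at hUU'
      ext x
      by_cases hx : x ∈ B
      · constructor
        · intro h; exact absurd hx (Finset.mem_compl.1 (hU h))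
        · intro h; exact absurd hx (Finset.mem_compl.1 (hU' h))
      · have := congrArg (fun Y => x ∈ Y) hUU'
        simp only [Finset.mem_union, Finset.mem_inter, hx, and_false, false_or, eq_iff_iff] at this
        exact this
    have h2 : ∑ T ∈ (Bᶜ.powerset).image (fun U : Finset V => (T₀ ∩ B) ∪ U),
        w (mix b i S T) * h (mix b i S T) ≤ ∑ T, w (mix b i S T) * h (mix b i S T) :=
      Finset.sum_le_sum_of_subset_of_nonneg (Finset.subset_univ _)
        (fun T _ _ => mul_nonneg (hw _).le (hh _))
    rw [Finset.sum_image hinj] at h2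
    have h3 : ∀ U ∈ Bᶜ.powerset, w (mix b i S ((T₀ ∩ B) ∪ U)) * h (mix b i S ((T₀ ∩ B) ∪ U)) =
        w z * h z := by
      intro U hU
      have e : mix b i S ((T₀ ∩ B) ∪ U) = z := by
        rw [hz]
        ext x
        simp only [mem_mix, Finset.mem_union, Finset.mem_inter]
        by_cases hx : b x = i
        · have hxB : x ∈ B := by simp [hB, hx]
          have hxU : x ∉ U := fun hxU => Finset.mem_compl.1 ((Finset.mem_powerset.1 hU) hxU) hxB
          simp [hx, hxB, hxU]
        · simp [hx]
      rw [e]
    rw [Finset.sum_congr rfl h3, Finset.sum_const, Finset.card_powerset, nsmul_eq_mul] at h2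
    push_cast at h2
    exact h2
  have h4 : Zc w b i S ≤ 2 ^ B.card * 2 ^ (Bᶜ).card * (r ^ B.card * w z) := by
    unfold Zc
    have h5 : ∀ T ∈ (univ : Finset (Finset V)), w (mix b i S T) ≤ r ^ B.card * w z := by
      intro T _
      have := ratio_mix hw hr1 hr b i z T
      rw [hz, mix_mix_left] at this
      exact this
    refine (Finset.sum_le_sum h5).trans ?_
    rw [Finset.sum_const, card_univ, Fintype.card_finset, nsmul_eq_mul,
      ← Finset.card_add_card_compl B, pow_add]
    push_cast
    exact le_rfl
  unfold Pr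
  rw [mul_div_assoc', le_div_iff₀ hZpos]
  have hz0 := hh z
  have hwz := hw z
  calc h z * Zc w b i S ≤ h z * (2 ^ B.card * 2 ^ (Bᶜ).card * (r ^ B.card * w z)) :=
        mul_le_mul_of_nonneg_left h4 hz0
    _ = (2 ^ B.card * r ^ B.card) * (2 ^ (Bᶜ).card * (w z * h z)) := by ring
    _ ≤ _ := by
        apply mul_le_mul_of_nonneg_left h1
        have : 0 < r := by linarith
        positivity

lemma tele (f : Finset V → ℝ) (S T : Finset V) (B : Finset V) (m : V → ℝ)
    (hm : ∀ J ⊆ B, ∀ v ∈ B, |f (insert v (mixV J S T)) - f ((mixV J S T).erase v)| ≤ m v)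
    (J : Finset V) (hJ : J ⊆ B) :
    |f S - f (mixV J S T)| ≤ ∑ v ∈ J, m v := by
  induction J using Finset.induction_on with
  | empty => rw [mixV_empty]; simp
  | insert u J hu ih =>
    rw [Finset.sum_insert hu]
    have hJB : J ⊆ B := fun x hx => hJ (Finset.mem_insert_of_mem hx)
    have huB : u ∈ B := hJ (Finset.mem_insert_self _ _)
    have ih' := ih hJB
    have h1 := hm J hJB u huB
    set X := mixV J S T with hX
    have hm0 : 0 ≤ m u := (abs_nonneg _).trans h1
    have h2 : |f X - f (mixV (insert u J) S T)| ≤ m u := by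
      rw [mixV_insert, ← hX]
      by_cases hU : u ∈ T
      · rw [if_pos hU]
        by_cases hX' : u ∈ X
        · rw [Finset.insert_eq_of_mem hX']; simpa using hm0
        · rw [Finset.erase_eq_of_notMem hX'] at h1
          rw [abs_sub_comm]; exact h1
      · rw [if_neg hU]
        by_cases hX' : u ∈ X
        · rw [Finset.insert_eq_of_mem hX'] at h1; exact h1
        · rw [Finset.erase_eq_of_notMem hX']; simpa using hm0
    have h3 := abs_sub_le (f S) (f X) (f (mixV (insert u J) S T))
    linarith

/-- The comparison. -/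
theorem block_le_site (b : V → I) (i : I) (f : Finset V → ℝ) :
    ip w (fun S => f S - Pr w b i f S) (fun S => f S - Pr w b i f S) ≤
      ((univ.filter (fun v => b v = i)).card * (4 * r ^ 2 *
        (2 ^ (univ.filter (fun v => b v = i)).card *
          r ^ (univ.filter (fun v => b v = i)).card))) *
      ∑ v ∈ univ.filter (fun v => b v = i),
        ip w (fun S => f S - Pr w (id : V → V) v f S) (fun S => f S - Pr w (id : V → V) v f S) := by
  set B := univ.filter (fun v => b v = i) with hB
  set A : ℝ := 2 ^ B.card * r ^ B.card with hA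
  have hr0 : 0 < r := by linarith
  have hA0 : 0 < A := by rw [hA]; positivity
  set h : V → Finset V → ℝ := fun v S => (f S - Pr w (id : V → V) v f S) ^ 2 with hh
  have hh0 : ∀ v S, 0 ≤ h v S := fun v S => sq_nonneg _
  set m : Finset V → V → ℝ := fun S v => Real.sqrt (4 * r ^ 2 * (A * Pr w b i (h v) S)) with hm
  have hPr0 : ∀ v S, 0 ≤ Pr w b i (h v) S := by
    intro v S
    unfold Pr
    exact div_nonneg (Finset.sum_nonneg fun T _ => mul_nonneg (hw _).le (hh0 _ _))
      (Zc_pos hw b i S).le
  have hm2 : ∀ S v, (m S v) ^ 2 = 4 * r ^ 2 * (A * Pr w b i (h v) S) := by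
    intro S v
    rw [hm]
    exact Real.sq_sqrt (by have := hPr0 v S; positivity)
  have hm0 : ∀ S v, 0 ≤ m S v := fun S v => Real.sqrt_nonneg _
  have hflip : ∀ S T, ∀ J ⊆ B, ∀ v ∈ B,
      |f (insert v (mixV J S T)) - f ((mixV J S T).erase v)| ≤ m S v := by
    intro S T J hJ v hv
    apply abs_le_of_sq_le_sq _ (hm0 S v)
    rw [hm2]
    refine (flip_sq_le hw hr1 hr v f _).trans ?_
    apply mul_le_mul_of_nonneg_left _ (by positivity)
    have e : mixV J S T = mix b i S (mixV J S T) := by
      ext x
      simp only [mem_mix]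
      by_cases hx : b x = i
      · simp [hx]
      · have hxJ : x ∉ J := fun hxJ => by
          have := hJ hxJ
          simp [hB] at this
          exact hx this
        simp [hx, mixV, hxJ]
    have h1 := point_le_avg hw hr1 hr b i (h v) (hh0 v) S (mixV J S T)
    rw [← e] at h1
    exact h1
  have hpt : ∀ S, (f S - Pr w b i f S) ^ 2 ≤ B.card * ∑ v ∈ B, (m S v) ^ 2 := by
    intro S
    have h1 : |f S - Pr w b i f S| ≤ ∑ v ∈ B, m S v := by
      have e : f S - Pr w b i f S =
          ∑ T, (w (mix b i S T) / Zc w b i S) * (f S - f (mix b i S T)) := by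
        simp only [mul_sub]
        rw [Finset.sum_sub_distrib, ← Finset.sum_mul, sum_nu hw, one_mul, Pr_eq_sum hw]
      rw [e]
      refine (Finset.abs_sum_le_sum_abs _ _).trans ?_
      have h2 : ∀ T ∈ (univ : Finset (Finset V)),
          |w (mix b i S T) / Zc w b i S * (f S - f (mix b i S T))| ≤
          w (mix b i S T) / Zc w b i S * ∑ v ∈ B, m S v := by
        intro T _
        rw [abs_mul, abs_of_pos (div_pos (hw _) (Zc_pos hw b i S))]
        apply mul_le_mul_of_nonneg_left _ (div_pos (hw _) (Zc_pos hw b i S)).le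
        have h3 := tele hw hr1 hr f S T B (m S) (hflip S T) B (Finset.Subset.refl _)
        have e : mixV B S T = mix b i S T := by
          ext v; simp [mixV, hB]
        rw [e] at h3
        exact h3
      refine (Finset.sum_le_sum h2).trans ?_
      rw [← Finset.sum_mul, sum_nu hw, one_mul]
    have h2 : (f S - Pr w b i f S) ^ 2 ≤ (∑ v ∈ B, m S v) ^ 2 := by
      rw [← sq_abs]
      exact pow_le_pow_left₀ (abs_nonneg _) h1 2
    exact h2.trans sq_sum_le_card_mul_sum_sq
  have h1 : ip w (fun S => f S - Pr w b i f S) (fun S => f S - Pr w b i f S) ≤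
      ∑ S, w S * (B.card * ∑ v ∈ B, (m S v) ^ 2) := by
    unfold ip
    apply Finset.sum_le_sum
    intro S _
    rw [mul_assoc, ← sq]
    exact mul_le_mul_of_nonneg_left (hpt S) (hw S).le
  refine h1.trans (le_of_eq ?_)
  have h2 : ∀ v, ip w (fun S => f S - Pr w (id : V → V) v f S)
      (fun S => f S - Pr w (id : V → V) v f S) = ∑ S, w S * Pr w b i (h v) S := by
    intro v
    rw [mean_Pr hw]
    unfold ip
    exact Finset.sum_congr rfl fun S _ => by rw [hh]; ring
  simp only [h2, hm2]
  rw [Finset.sum_comm, Finset.mul_sum]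
  apply Finset.sum_congr rfl
  intro S _
  simp only [Finset.mul_sum]
  apply Finset.sum_congr rfl
  intro v _
  ring

end Comp

end H111R4
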