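import Mathlib
import Pool.Agent.H111R4.Dob

/-!
Poincaré inequality for the block dynamics from a weighted single site Dobrushin condition.
-/

namespace H111R4

open Finset

section Dob2

variable {V I : Type} [Fintype V] [DecidableEq V] [DecidableEq I] [Fintype I]
variable {w : Finset V → ℝ} (hw : ∀ S, 0 < w S)
include hw

/-- geometric decay along the orbit gives a contraction -/
lemma contract_of_decay (b : V → I) (g : Finset V → ℝ) (ρ K : ℝ) (hρ0 : 0 < ρ)
    (hBle : ∀ t : ℕ, ip w ((Qop w b)^[t] g) ((Qop w b)^[t] g) ≤ K * (ρ ^ 2) ^ t) :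
    ip w (Qop w b g) (Qop w b g) ≤ ρ ^ 2 * ip w g g := by
  set G : ℕ → Finset V → ℝ := fun t => (Qop w b)^[t] g with hG
  have hGs : ∀ t, G (t + 1) = Qop w b (G t) := fun t => Function.iterate_succ_apply' _ _ _
  set B : ℕ → ℝ := fun t => ip w (G t) (G t) with hB
  have hBnn : ∀ t, 0 ≤ B t := fun t => ip_self_nonneg hw _
  have hlog : ∀ t, B (t + 1) ^ 2 ≤ B t * B (t + 2) := by
    intro t
    have h1 : B (t + 1) = ip w (G t) (G (t + 2)) := by
      rw [hB]
      show ip w (G (t + 1)) (G (t + 1)) = _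
      rw [show t + 2 = (t + 1) + 1 from rfl, hGs (t + 1), hGs t, Q_selfadj hw]
    rw [h1]
    exact ip_sq_le hw _ _
  have hB0 : B 0 = ip w g g := rfl
  have hB1 : B 1 = ip w (Qop w b g) (Qop w b g) := by
    show ip w (G (0 + 1)) (G (0 + 1)) = _
    rw [hGs]; rfl
  rw [← hB0, ← hB1]
  by_contra hcon
  push Not at hcon
  have hB0pos : 0 < B 0 := by
    rcases (hBnn 0).eq_or_lt with h | h
    · exfalso
      have h1 := hlog 0
      rw [← h, zero_mul] at h1
      have h2 : B 1 = 0 := by
        have : B (0 + 1) ^ 2 = 0 := le_antisymm h1 (sq_nonneg _)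
        exact pow_eq_zero_iff (two_ne_zero) |>.1 this
      rw [← h, h2, mul_zero] at hcon
      exact lt_irrefl _ hcon
    · exact h
  set r : ℝ := B 1 / B 0 with hr
  have hr1 : ρ ^ 2 < r := by rw [hr, lt_div_iff₀ hB0pos]; exact hcon
  have hr0 : 0 < r := lt_trans (by positivity) hr1
  have hstep : ∀ t, 0 < B t ∧ r * B t ≤ B (t + 1) := by
    intro t
    induction t with
    | zero =>
      refine ⟨hB0pos, ?_⟩
      rw [hr]; field_simp; exact le_rfl
    | succ t ih =>
      have h1 : 0 < B (t + 1) := lt_of_lt_of_le (mul_pos hr0 ih.1) ih.2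
      refine ⟨h1, ?_⟩
      have h2 := hlog t
      have h3 : r * B t * B (t + 1) ≤ B t * B (t + 2) := by nlinarith [ih.2]
      have h4 : B t * (r * B (t + 1)) ≤ B t * B (t + 2) := by linarith
      exact le_of_mul_le_mul_left h4 ih.1
  have hgrow : ∀ t, r ^ t * B 0 ≤ B t := by
    intro t
    induction t with
    | zero => simp
    | succ t ih =>
      have h1 := (hstep t).2
      have h2 := mul_le_mul_of_nonneg_left ih hr0.le
      rw [pow_succ]
      linarith
  have hq : 1 < r / ρ ^ 2 := by rw [lt_div_iff₀ (by positivity)]; linarith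
  have hbdd : ∀ t, (r / ρ ^ 2) ^ t ≤ K / B 0 := by
    intro t
    have h1 := (hgrow t).trans (hBle t)
    rw [div_pow, div_le_div_iff₀ (by positivity) hB0pos]
    linarith
  obtain ⟨t, ht⟩ := pow_unbounded_of_one_lt (K / B 0) hq
  exact absurd (hbdd t) (not_le.2 ht)

omit hw in
lemma osc_site_Q (b : V → I) (u : V) (f : Finset V → ℝ) :
    osc (id : V → V) u (Qop w b f) ≤
      (∑ i, osc (id : V → V) u (Pr w b i f)) / Fintype.card I := by
  apply osc_le
  intro S T
  unfold Qop
  rw [← sub_div, abs_div, abs_of_nonneg (Nat.cast_nonneg (Fintype.card I) : (0:ℝ) ≤ _),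
    ← Finset.sum_sub_distrib]
  apply div_le_div_of_nonneg_right _ (Nat.cast_nonneg _)
  refine (Finset.abs_sum_le_sum_abs _ _).trans (Finset.sum_le_sum fun i _ => ?_)
  exact le_osc (id : V → V) u _ S T

omit hw [Fintype I] in
lemma osc_site_Pr_own (b : V → I) (u : V) (f : Finset V → ℝ) :
    osc (id : V → V) u (Pr w b (b u) f) ≤ 0 := by
  apply osc_le
  intro S T
  have e : mix (id : V → V) u S T = mix b (b u) S (mix (id : V → V) u S T) := by
    ext x
    simp only [mem_mix, id]
    by_cases hx : x = u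
    · subst hx; simp
    · simp [hx]
  rw [e, Pr_mix]; simp

omit hw in
lemma Lip_Q (b : V → I) [Nonempty I] (c : V → V → ℝ) (a : V → ℝ)
    (hc0 : ∀ u v, 0 ≤ c u v)
    (hδ : ∀ (i : I) (u : V) (f : Finset V → ℝ), b u ≠ i →
      osc (id : V → V) u (Pr w b i f) ≤ osc (id : V → V) u f +
        ∑ v ∈ univ.filter (fun v => b v = i), c u v * osc (id : V → V) v f)
    (hsum : ∀ u, ∑ v ∈ univ.filter (fun v => b v ≠ b u), c u v * a v ≤ a u / 2)
    (f : Finset V → ℝ) (Λ : ℝ) (hΛ : 0 ≤ Λ) (hf : ∀ u, osc (id : V → V) u f ≤ Λ * a u) (u : V) :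
    osc (id : V → V) u (Qop w b f) ≤ ((1 - 1 / (2 * Fintype.card I)) * Λ) * a u := by
  have hm : (0 : ℝ) < Fintype.card I := by exact_mod_cast Fintype.card_pos
  refine (osc_site_Q b u f).trans ?_
  rw [div_le_iff₀ hm, ← Finset.add_sum_erase univ _ (mem_univ (b u))]
  have h1 := osc_site_Pr_own (w := w) b u f
  have h2 : ∑ i ∈ univ.erase (b u), osc (id : V → V) u (Pr w b i f) ≤
      ∑ i ∈ univ.erase (b u), (Λ * a u +
        ∑ v ∈ univ.filter (fun v => b v = i), c u v * (Λ * a v)) := by
    apply Finset.sum_le_sum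
    intro i hi
    refine (hδ i u f (Finset.ne_of_mem_erase hi).symm).trans (add_le_add (hf u) ?_)
    exact Finset.sum_le_sum fun v _ => mul_le_mul_of_nonneg_left (hf v) (hc0 u v)
  rw [Finset.sum_add_distrib, Finset.sum_const, nsmul_eq_mul] at h2
  have h3 : ∑ i ∈ univ.erase (b u), ∑ v ∈ univ.filter (fun v => b v = i), c u v * (Λ * a v) =
      Λ * ∑ v ∈ univ.filter (fun v => b v ≠ b u), c u v * a v := by
    rw [Finset.mul_sum, ← Finset.sum_biUnion]
    · apply Finset.sum_congr
      · ext v; simp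
      · intro v _; ring
    · intro j _ j' _ hjj'
      rw [Function.onFun, Finset.disjoint_left]
      intro x hx hx'
      simp only [Finset.mem_filter, mem_univ, true_and] at hx hx'
      exact hjj' (hx.symm.trans hx')
  rw [h3] at h2
  have h4 := mul_le_mul_of_nonneg_left (hsum u) hΛ
  have h5 : (((univ : Finset I).erase (b u)).card : ℝ) = Fintype.card I - 1 := by
    rw [Finset.card_erase_of_mem (mem_univ _), card_univ, Nat.cast_sub Fintype.card_pos]
    simp
  rw [h5] at h2
  have h6 : ((1 - 1 / (2 * (Fintype.card I : ℝ))) * Λ) * a u * Fintype.card I =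
      (Fintype.card I - 1) * (Λ * a u) + Λ * (a u / 2) := by
    field_simp
    ring
  rw [h6]
  linarith

/-- Poincaré inequality for mean zero functions from the weighted condition. -/
theorem block_poincare_lip (b : V → I) [Nonempty I] (c : V → V → ℝ) (a : V → ℝ)
    (ha : ∀ u, 0 < a u) (hc0 : ∀ u v, 0 ≤ c u v)
    (hδ : ∀ (i : I) (u : V) (f : Finset V → ℝ), b u ≠ i →
      osc (id : V → V) u (Pr w b i f) ≤ osc (id : V → V) u f +
        ∑ v ∈ univ.filter (fun v => b v = i), c u v * osc (id : V → V) v f)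
    (hsum : ∀ u, ∑ v ∈ univ.filter (fun v => b v ≠ b u), c u v * a v ≤ a u / 2)
    (g : Finset V → ℝ) (hg : ∑ S, w S * g S = 0) :
    ip w g g ≤ 2 * ∑ i, ip w (fun S => g S - Pr w b i g S) (fun S => g S - Pr w b i g S) := by
  have hm : (1 : ℝ) ≤ Fintype.card I := by exact_mod_cast Fintype.card_pos
  set m : ℝ := (Fintype.card I : ℝ) with hmdef
  set ρ : ℝ := 1 - 1 / (2 * m) with hρ
  have hρ0 : 0 < ρ := by
    rw [hρ]
    have : 1 / (2 * m) ≤ 1 / 2 := by
      apply one_div_le_one_div_of_le (by norm_num); linarith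
    linarith
  set Λ : ℝ := ∑ u, osc (id : V → V) u g / a u with hΛ
  have hΛ0 : 0 ≤ Λ := Finset.sum_nonneg fun u _ => div_nonneg (osc_nonneg _ _ _) (ha u).le
  have hΛu : ∀ u, osc (id : V → V) u g ≤ Λ * a u := by
    intro u
    have h1 : osc (id : V → V) u g / a u ≤ Λ :=
      Finset.single_le_sum (f := fun u => osc (id : V → V) u g / a u)
        (fun u _ => div_nonneg (osc_nonneg _ _ _) (ha u).le) (mem_univ u)
    rwa [div_le_iff₀ (ha u)] at h1
  set G : ℕ → Finset V → ℝ := fun t => (Qop w b)^[t] g with hG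
  have hGs : ∀ t, G (t + 1) = Qop w b (G t) := fun t => Function.iterate_succ_apply' _ _ _
  have hmean : ∀ t, ∑ S, w S * G t S = 0 := by
    intro t
    induction t with
    | zero => exact hg
    | succ t ih => rw [hGs, mean_Q hw, ih]
  have hLip : ∀ t u, osc (id : V → V) u (G t) ≤ (ρ ^ t * Λ) * a u := by
    intro t
    induction t with
    | zero => intro u; simpa [hG] using hΛu u
    | succ t ih =>
      intro u
      rw [hGs]
      have h := Lip_Q b c a hc0 hδ hsum (G t) (ρ ^ t * Λ) (by positivity) ih u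
      refine h.trans (le_of_eq ?_)
      rw [pow_succ, ← hmdef, ← hρ]; ring
  set M : ℝ := Λ * ∑ u, a u with hM
  have hdecay : ∀ t : ℕ, ip w ((Qop w b)^[t] g) ((Qop w b)^[t] g) ≤
      ((∑ S, w S) * M ^ 2) * (ρ ^ 2) ^ t := by
    intro t
    have h1 : ip w (G t) (G t) ≤ (∑ S, w S) * (ρ ^ t * M) ^ 2 := by
      apply ip_self_le _ _ hw
      intro S
      refine (abs_le_Del hw (id : V → V) (G t) (hmean t) S).trans ?_
      unfold Del
      refine (Finset.sum_le_sum fun u _ => hLip t u).trans (le_of_eq ?_)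
      rw [← Finset.mul_sum, hM]; ring
    refine h1.trans (le_of_eq ?_)
    rw [mul_pow, ← pow_mul, ← pow_mul, mul_comm 2 t]
    ring
  have h1 := contract_of_decay hw b g ρ _ hρ0 hdecay
  have h2 : ip w g (Qop w b g) ≤ ρ * ip w g g := by
    have h3 := ip_sq_le hw g (Qop w b g)
    have h4 : (ip w g (Qop w b g)) ^ 2 ≤ (ρ * ip w g g) ^ 2 := by
      have h5 := mul_le_mul_of_nonneg_left h1 (ip_self_nonneg hw g)
      nlinarith
    exact le_of_sq_le_sq h4 (mul_nonneg hρ0.le (ip_self_nonneg hw g))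
  have h3 : ip w g (Qop w b g) = (∑ i, ip w g (Pr w b i g)) / m := by
    rw [ip_comm]
    have : ∀ i, ip w g (Pr w b i g) = ip w (Pr w b i g) g := fun i => ip_comm _ _
    simp only [this]
    rw [← ip_sum_left]
    unfold ip Qop
    rw [Finset.sum_div]
    exact Finset.sum_congr rfl fun S _ => by ring
  simp only [ip_residual hw]
  rw [Finset.sum_sub_distrib, Finset.sum_const, card_univ, nsmul_eq_mul]
  rw [h3, div_le_iff₀ (by linarith)] at h2
  have h5 : ρ * ip w g g * m = (m - 1 / 2) * ip w g g := by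
    rw [hρ]; field_simp
  rw [h5] at h2
  rw [← hmdef]
  linarith

end Dob2

end H111R4
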