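import Mathlib

/-!
Expansion of nearly regular bipartite graphs with codegrees at most one on `p² + p²` vertices.
-/

namespace H111R4

open Finset Classical

section Intra

variable {A B : Type} [Fintype A] [Fintype B]

/-- neighbourhood -/
noncomputable def nb (R : A → B → Prop) (X : Finset A) : Finset B :=
  univ.filter (fun b => ∃ a ∈ X, R a b)

lemma second_moment (R : A → B → Prop) (q : ℕ)
    (h1 : ∀ a, q ≤ (univ.filter (fun b => R a b)).card)
    (h2 : ∀ a, (univ.filter (fun b => R a b)).card ≤ q + 1)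
    (h3 : ∀ a a', a ≠ a' → (univ.filter (fun b => R a b ∧ R a' b)).card ≤ 1)
    (X : Finset A) : q ^ 2 * X.card ≤ (nb R X).card * (q + 1 + X.card) := by
  rcases X.eq_empty_or_nonempty with rfl | hX
  · simp
  have hXpos : 0 < X.card := Finset.card_pos.2 hX
  set deg : B → ℕ := fun b => (X.filter (fun a => R a b)).card with hdeg
  have hzero : ∀ b, b ∉ nb R X → deg b = 0 := by
    intro b hb
    simp only [nb, Finset.mem_filter, mem_univ, true_and, not_exists, not_and] at hb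
    rw [hdeg]
    simp only [Finset.card_eq_zero, Finset.filter_eq_empty_iff]
    intro a ha; exact hb a ha
  have hsum1 : q * X.card ≤ ∑ b ∈ nb R X, deg b := by
    have e : ∑ b ∈ nb R X, deg b = ∑ b, deg b := by
      apply Finset.sum_subset (Finset.subset_univ _)
      intro b _ hb; exact hzero b hb
    rw [e, hdeg]
    simp only [Finset.card_filter]
    rw [Finset.sum_comm]
    simp only [← Finset.card_filter]
    calc q * X.card = ∑ a ∈ X, q := by rw [Finset.sum_const, smul_eq_mul, mul_comm]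
      _ ≤ _ := Finset.sum_le_sum fun a _ => h1 a
  have hsum2 : ∑ b ∈ nb R X, deg b ^ 2 ≤ X.card * (q + 1 + X.card) := by
    have e : ∑ b ∈ nb R X, deg b ^ 2 ≤ ∑ b, deg b ^ 2 :=
      Finset.sum_le_sum_of_subset (Finset.subset_univ _)
    refine e.trans ?_
    have e2 : ∑ b, deg b ^ 2 =
        ∑ a ∈ X, ∑ a' ∈ X, (univ.filter (fun b => R a b ∧ R a' b)).card := by
      rw [hdeg]
      simp only [Finset.card_filter, sq, Finset.sum_mul_sum]
      rw [Finset.sum_comm]
      apply Finset.sum_congr rfl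
      intro a _
      rw [Finset.sum_comm]
      apply Finset.sum_congr rfl
      intro a' _
      apply Finset.sum_congr rfl
      intro b _
      by_cases ha : R a b <;> by_cases ha' : R a' b <;> simp [ha, ha']
    rw [e2]
    have h4 : ∀ a ∈ X, ∑ a' ∈ X, (univ.filter (fun b => R a b ∧ R a' b)).card ≤
        q + 1 + X.card := by
      intro a ha
      rw [← Finset.add_sum_erase X _ ha]
      apply Nat.add_le_add
      · simpa using h2 a
      · calc ∑ a' ∈ X.erase a, (univ.filter (fun b => R a b ∧ R a' b)).card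
            ≤ ∑ a' ∈ X.erase a, 1 := by
              apply Finset.sum_le_sum
              intro a' ha'
              exact h3 a a' (Finset.ne_of_mem_erase ha').symm
          _ = (X.erase a).card := by simp
          _ ≤ X.card := Finset.card_le_card (Finset.erase_subset _ _)
    calc _ ≤ ∑ a ∈ X, (q + 1 + X.card) := Finset.sum_le_sum h4
      _ = _ := by rw [Finset.sum_const, smul_eq_mul]
  have hcs : (∑ b ∈ nb R X, deg b) ^ 2 ≤ (nb R X).card * ∑ b ∈ nb R X, deg b ^ 2 :=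
    sq_sum_le_card_mul_sum_sq
  have h5 : (q * X.card) ^ 2 ≤ (nb R X).card * (X.card * (q + 1 + X.card)) :=
    (Nat.pow_le_pow_left hsum1 2).trans (hcs.trans (Nat.mul_le_mul_left _ hsum2))
  have h6 : X.card * (q ^ 2 * X.card) ≤ X.card * ((nb R X).card * (q + 1 + X.card)) := by
    calc _ = (q * X.card) ^ 2 := by ring
      _ ≤ _ := h5
      _ = _ := by ring
  exact Nat.le_of_mul_le_mul_left h6 hXpos

lemma intra_small (R : A → B → Prop) (q : ℕ) (hq : 19 ≤ q)
    (h1 : ∀ a, q ≤ (univ.filter (fun b => R a b)).card)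
    (h2 : ∀ a, (univ.filter (fun b => R a b)).card ≤ q + 1)
    (h3 : ∀ a a', a ≠ a' → (univ.filter (fun b => R a b ∧ R a' b)).card ≤ 1)
    (X : Finset A) (hX : 4 * X.card ≤ (q + 1) ^ 2) : 2 * X.card ≤ (nb R X).card := by
  have h := second_moment R q h1 h2 h3 X
  by_contra hcon
  push Not at hcon
  have hx : 0 < X.card := by omega
  have h4 : q ^ 2 * X.card < 2 * X.card * (q + 1 + X.card) :=
    lt_of_le_of_lt h (Nat.mul_lt_mul_of_pos_right hcon (by omega))
  have h5 : q ^ 2 < 2 * (q + 1 + X.card) := by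
    have : X.card * q ^ 2 < X.card * (2 * (q + 1 + X.card)) := by linarith
    exact Nat.lt_of_mul_lt_mul_left this
  nlinarith

lemma intra_large (R : A → B → Prop) (q : ℕ) (hq : 19 ≤ q)
    (h1 : ∀ a, q ≤ (univ.filter (fun b => R a b)).card)
    (h2 : ∀ a, (univ.filter (fun b => R a b)).card ≤ q + 1)
    (h3 : ∀ a a', a ≠ a' → (univ.filter (fun b => R a b ∧ R a' b)).card ≤ 1)
    (X : Finset A) (hX : (q + 1) ^ 2 < 4 * X.card) :
    3 * (q + 1) ^ 2 ≤ 4 * (nb R X).card := by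
  have h := second_moment R q h1 h2 h3 X
  by_contra hcon
  push Not at hcon
  set x : ℤ := (X.card : ℤ) with hx
  set y : ℤ := ((nb R X).card : ℤ) with hy
  have h' : (q : ℤ) ^ 2 * x ≤ y * (q + 1 + x) := by rw [hx, hy]; exact_mod_cast h
  have hcon' : 4 * y < 3 * ((q : ℤ) + 1) ^ 2 := by rw [hy]; exact_mod_cast hcon
  have hX' : ((q : ℤ) + 1) ^ 2 < 4 * x := by rw [hx]; exact_mod_cast hX
  have hq' : (19 : ℤ) ≤ q := by exact_mod_cast hq
  have hx0 : 0 < x := by nlinarith
  have h4 : 4 * (q : ℤ) ^ 2 * x < 3 * ((q : ℤ) + 1) ^ 2 * (q + 1 + x) := by nlinarith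
  have h5 : x * (4 * (q : ℤ) ^ 2 - 3 * ((q : ℤ) + 1) ^ 2) < 3 * ((q : ℤ) + 1) ^ 3 := by nlinarith
  have h6 : 0 < 4 * (q : ℤ) ^ 2 - 3 * ((q : ℤ) + 1) ^ 2 := by nlinarith
  have h7 : ((q : ℤ) + 1) ^ 2 * (4 * (q : ℤ) ^ 2 - 3 * ((q : ℤ) + 1) ^ 2) <
      12 * ((q : ℤ) + 1) ^ 3 := by nlinarith
  have h8 : 0 < ((q : ℤ) + 1) ^ 2 := by positivity
  have h9 : 4 * (q : ℤ) ^ 2 - 3 * ((q : ℤ) + 1) ^ 2 < 12 * ((q : ℤ) + 1) := by
    have : ((q : ℤ) + 1) ^ 2 * (4 * (q : ℤ) ^ 2 - 3 * ((q : ℤ) + 1) ^ 2) <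
      ((q : ℤ) + 1) ^ 2 * (12 * ((q : ℤ) + 1)) := by
      calc _ < _ := h7
        _ = _ := by ring
    exact lt_of_mul_lt_mul_left this h8.le
  nlinarith

/-- combined statement -/
lemma intra (R : A → B → Prop) (q : ℕ) (hq : 19 ≤ q)
    (hA : Fintype.card A = (q + 1) ^ 2) (hB : Fintype.card B = (q + 1) ^ 2)
    (h1 : ∀ a, q ≤ (univ.filter (fun b => R a b)).card)
    (h2 : ∀ a, (univ.filter (fun b => R a b)).card ≤ q + 1)
    (h3 : ∀ a a', a ≠ a' → (univ.filter (fun b => R a b ∧ R a' b)).card ≤ 1)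
    (h1' : ∀ b, q ≤ (univ.filter (fun a => R a b)).card)
    (h2' : ∀ b, (univ.filter (fun a => R a b)).card ≤ q + 1)
    (h3' : ∀ b b', b ≠ b' → (univ.filter (fun a => R a b ∧ R a b')).card ≤ 1)
    (X : Finset A) :
    (4 * X.card ≤ (q + 1) ^ 2 → 2 * X.card ≤ (nb R X).card) ∧
    ((q + 1) ^ 2 < 4 * X.card → (q + 1) ^ 2 + X.card ≤ 2 * (nb R X).card) := by
  refine ⟨intra_small R q hq h1 h2 h3 X, fun hX => ?_⟩
  have h4 := intra_large R q hq h1 h2 h3 X hX
  have h5 : (nb R X).card + ((nb R X)ᶜ).card = (q + 1) ^ 2 := by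
    rw [Finset.card_add_card_compl, hB]
  have h6 := intra_small (fun b a => R a b) q hq h1' h2' h3' (nb R X)ᶜ (by omega)
  have h7 : nb (fun b a => R a b) (nb R X)ᶜ ⊆ Xᶜ := by
    intro a ha
    simp only [nb, Finset.mem_filter, mem_univ, true_and, Finset.mem_compl] at ha ⊢
    obtain ⟨b, hb, hR⟩ := ha
    intro haX
    exact hb ⟨a, haX, hR⟩
  have h8 := Finset.card_le_card h7
  have h9 : X.card + Xᶜ.card = (q + 1) ^ 2 := by rw [Finset.card_add_card_compl, hA]
  omega

end Intra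

end H111R4
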