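import Mathlib

/-!
Sixteen permutations of `m` points such that every set of at most half of the points has a large
boundary (counting argument).
-/

namespace H111R4

open Finset

section Perm

variable {ι : Type} [Fintype ι] [DecidableEq ι]

/-- permutations mapping `A` into `F` -/
def NA (F A : Finset ι) : Finset (Equiv.Perm ι) := univ.filter (fun π => ∀ x ∈ A, π x ∈ F)

lemma card_preimage_perm (π : Equiv.Perm ι) (F : Finset ι) :
    (univ.filter (fun b => π b ∈ F)).card = F.card := by
  refine Finset.card_nbij' (fun b => π b) (fun b => π.symm b) ?_ ?_ ?_ ?_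
  · intro b hb; simpa using hb
  · intro b hb; simpa using hb
  · intro b _; simp
  · intro b _; simp

lemma NA_step (F A : Finset ι) (a : ι) (ha : a ∉ A) :
    ((NA F (insert a A)).card : ℝ) * Fintype.card ι ≤ F.card * (NA F A).card := by
  have h1 : ∀ b ∈ Aᶜ, ((NA F A).filter (fun π => π b ∈ F)).card = (NA F (insert a A)).card := by
    intro b hb
    have hb' : b ∉ A := Finset.mem_compl.1 hb
    refine Finset.card_nbij' (fun π => π * Equiv.swap a b) (fun π => π * Equiv.swap a b)
      ?_ ?_ ?_ ?_
    · intro π hπ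
      simp only [NA, Finset.coe_filter, Finset.mem_filter, mem_univ, true_and,
        Set.mem_setOf_eq, Finset.mem_insert, forall_eq_or_imp, Equiv.Perm.mul_apply] at hπ ⊢
      refine ⟨by rw [Equiv.swap_apply_left]; exact hπ.2, ?_⟩
      intro x hx
      rw [Equiv.swap_apply_of_ne_of_ne]
      · exact hπ.1 x hx
      · rintro rfl; exact ha hx
      · rintro rfl; exact hb' hx
    · intro π hπ
      simp only [NA, Finset.coe_filter, Finset.mem_filter, mem_univ, true_and,
        Set.mem_setOf_eq, Finset.mem_insert, forall_eq_or_imp, Equiv.Perm.mul_apply] at hπ ⊢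
      refine ⟨?_, by rw [Equiv.swap_apply_right]; exact hπ.1⟩
      intro x hx
      rw [Equiv.swap_apply_of_ne_of_ne]
      · exact hπ.2 x hx
      · rintro rfl; exact ha hx
      · rintro rfl; exact hb' hx
    · intro π _; simp [mul_assoc]
    · intro π _; simp [mul_assoc]
  have h2 : ∑ b ∈ Aᶜ, ((NA F A).filter (fun π => π b ∈ F)).card =
      ∑ π ∈ NA F A, (Aᶜ.filter (fun b => π b ∈ F)).card := by
    simp only [Finset.card_filter]
    rw [Finset.sum_comm]
  rw [Finset.sum_congr rfl h1, Finset.sum_const, smul_eq_mul] at h2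
  have h3 : ∀ π ∈ NA F A, (Aᶜ.filter (fun b => π b ∈ F)).card + A.card = F.card := by
    intro π hπ
    rw [← card_preimage_perm π F, ← Finset.card_union_of_disjoint]
    · congr 1
      ext b
      simp only [NA, Finset.mem_filter, mem_univ, true_and] at hπ
      simp only [Finset.mem_union, Finset.mem_filter, Finset.mem_compl, mem_univ, true_and]
      constructor
      · rintro (h | h)
        · exact h.2
        · exact hπ b h
      · intro h
        by_cases hb : b ∈ A
        · right; exact hb
        · left; exact ⟨hb, h⟩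
    · rw [Finset.disjoint_left]
      intro b hb
      exact Finset.mem_compl.1 (Finset.mem_filter.1 hb).1
  have h4 : ((Aᶜ.card : ℝ)) * (NA F (insert a A)).card =
      (NA F A).card * ((F.card : ℝ) - A.card) := by
    have h5 : ((∑ π ∈ NA F A, (Aᶜ.filter (fun b => π b ∈ F)).card : ℕ) : ℝ) =
        (NA F A).card * ((F.card : ℝ) - A.card) := by
      push_cast
      rw [← nsmul_eq_mul, ← Finset.sum_const]
      apply Finset.sum_congr rfl
      intro π hπ
      have := h3 π hπ
      have h6 : ((Aᶜ.filter (fun b => π b ∈ F)).card : ℝ) + A.card = F.card := by exact_mod_cast this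
      linarith
    rw [← h5, ← h2]; push_cast; ring
  have h5 : (Aᶜ.card : ℝ) = Fintype.card ι - A.card := by
    have := Finset.card_add_card_compl A
    have h6 : (A.card : ℝ) + Aᶜ.card = Fintype.card ι := by exact_mod_cast this
    linarith
  have hpos : 0 < (Aᶜ.card : ℝ) := by
    have : 0 < Aᶜ.card := Finset.card_pos.2 ⟨a, Finset.mem_compl.2 ha⟩
    exact_mod_cast this
  have hFm : (F.card : ℝ) ≤ Fintype.card ι := by exact_mod_cast Finset.card_le_univ F
  have hA0 : (0:ℝ) ≤ A.card := Nat.cast_nonneg _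
  have hN0 : (0:ℝ) ≤ (NA F A).card := Nat.cast_nonneg _
  rw [h5] at h4 hpos
  have h6 : ((Fintype.card ι : ℝ) - A.card) * ((NA F (insert a A)).card * Fintype.card ι) ≤
      ((Fintype.card ι : ℝ) - A.card) * (F.card * (NA F A).card) := by
    have h7 : ((F.card : ℝ) - A.card) * Fintype.card ι ≤ F.card * ((Fintype.card ι : ℝ) - A.card) := by
      nlinarith
    have h8 := mul_le_mul_of_nonneg_left h7 hN0
    calc _ = (((Fintype.card ι : ℝ) - A.card) * (NA F (insert a A)).card) * Fintype.card ι := by ring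
      _ = ((NA F A).card * ((F.card : ℝ) - A.card)) * Fintype.card ι := by rw [h4]
      _ = (NA F A).card * (((F.card : ℝ) - A.card) * Fintype.card ι) := by ring
      _ ≤ _ := h8
      _ = _ := by ring
  exact le_of_mul_le_mul_left h6 hpos

lemma NA_le [Nonempty ι] (F A : Finset ι) :
    ((NA F A).card : ℝ) ≤ ((F.card : ℝ) / Fintype.card ι) ^ A.card * (Fintype.card ι).factorial := by
  have hm : (0:ℝ) < Fintype.card ι := by exact_mod_cast Fintype.card_pos
  induction A using Finset.induction_on with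
  | empty =>
    simp only [Finset.card_empty, pow_zero, one_mul]
    rw [← Fintype.card_perm]
    exact_mod_cast Finset.card_le_univ _
  | insert a A ha ih =>
    rw [Finset.card_insert_of_notMem ha, pow_succ]
    have h := NA_step F A a ha
    have h2 : ((NA F (insert a A)).card : ℝ) ≤ ((F.card : ℝ) / Fintype.card ι) * (NA F A).card := by
      rw [div_mul_eq_mul_div, le_div_iff₀ hm]; exact h
    refine h2.trans ?_
    have h3 := mul_le_mul_of_nonneg_left ih (show (0:ℝ) ≤ (F.card : ℝ) / Fintype.card ι by positivity)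
    refine h3.trans (le_of_eq ?_)
    ring

/-- number of points of `F` staying in `F` -/
def stay (F : Finset ι) (π : Equiv.Perm ι) : ℕ := (F.filter (fun a => π a ∈ F)).card

lemma gen_le [Nonempty ι] (F : Finset ι) (y : ℝ) (hy : 0 ≤ y) :
    ∑ π : Equiv.Perm ι, (1 + y) ^ (stay F π) ≤
      (Fintype.card ι).factorial * (1 + y * ((F.card : ℝ) / Fintype.card ι)) ^ F.card := by
  have h1 : ∀ π : Equiv.Perm ι, (1 + y) ^ (stay F π) =
      ∑ A ∈ F.powerset, (if π ∈ NA F A then y ^ A.card else 0) := by
    intro π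
    have h2 : (1 + y) ^ (stay F π) = ∏ a ∈ F, (1 + (if π a ∈ F then y else 0)) := by
      unfold stay
      rw [← Finset.prod_const, Finset.prod_filter]
      apply Finset.prod_congr rfl
      intro a _
      split_ifs <;> simp
    rw [h2, Finset.prod_one_add]
    apply Finset.sum_congr rfl
    intro A _
    by_cases hA : π ∈ NA F A
    · rw [if_pos hA]
      simp only [NA, Finset.mem_filter, mem_univ, true_and] at hA
      rw [← Finset.prod_const]
      exact Finset.prod_congr rfl fun a ha => by rw [if_pos (hA a ha)]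
    · rw [if_neg hA]
      simp only [NA, Finset.mem_filter, mem_univ, true_and, not_forall] at hA
      obtain ⟨a, ha, hπ⟩ := hA
      exact Finset.prod_eq_zero ha (if_neg hπ)
  simp only [h1]
  rw [Finset.sum_comm]
  have h3 : ∀ A ∈ F.powerset, ∑ π : Equiv.Perm ι, (if π ∈ NA F A then y ^ A.card else 0) ≤
      (Fintype.card ι).factorial * (y * ((F.card : ℝ) / Fintype.card ι)) ^ A.card := by
    intro A _
    rw [Finset.sum_ite_mem, Finset.univ_inter, Finset.sum_const, nsmul_eq_mul, mul_pow]
    have h4 := mul_le_mul_of_nonneg_right (NA_le F A) (pow_nonneg hy A.card)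
    refine h4.trans (le_of_eq ?_)
    ring
  refine (Finset.sum_le_sum h3).trans (le_of_eq ?_)
  rw [← Finset.mul_sum]
  congr 1
  have h5 := Finset.prod_one_add (s := F)
    (f := fun _ => y * ((F.card : ℝ) / Fintype.card ι))
  rw [Finset.prod_const] at h5
  rw [h5]
  exact Finset.sum_congr rfl fun A _ => by rw [Finset.prod_const]

/-- tuples that are bad for `F` -/
def bad (F : Finset ι) : Finset (Fin 16 → Equiv.Perm ι) :=
  univ.filter (fun p => 14 * F.card < ∑ t, stay F (p t))

lemma bad_le [Nonempty ι] (F : Finset ι) (hF : F.Nonempty) (hF2 : 2 * F.card ≤ Fintype.card ι) :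
    ((bad F).card : ℝ) ≤ (((Fintype.card ι).factorial : ℝ) ^ 16) *
      ((((F.card : ℝ) / Fintype.card ι) / 3) ^ 2) ^ F.card := by
  have hm : (0:ℝ) < Fintype.card ι := by exact_mod_cast Fintype.card_pos
  have hs : (0:ℝ) < F.card := by exact_mod_cast Finset.card_pos.2 hF
  set ρ : ℝ := (F.card : ℝ) / Fintype.card ι with hρ
  have hρ0 : 0 < ρ := by positivity
  have hρ2 : ρ ≤ 1 / 2 := by
    rw [hρ, div_le_iff₀ hm]
    have : (2:ℝ) * F.card ≤ Fintype.card ι := by exact_mod_cast hF2
    linarith
  set y : ℝ := 7 / ρ with hy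
  have hy0 : 0 < y := by positivity
  have h1 : (1 + y) ^ (14 * F.card) * (bad F).card ≤
      ∑ p : Fin 16 → Equiv.Perm ι, ∏ t, (1 + y) ^ (stay F (p t)) := by
    have h2 : ∑ p ∈ bad F, (1 + y) ^ (14 * F.card) ≤
        ∑ p ∈ bad F, ∏ t, (1 + y) ^ (stay F (p t)) := by
      apply Finset.sum_le_sum
      intro p hp
      rw [Finset.prod_pow_eq_pow_sum]
      apply pow_le_pow_right₀ (by linarith)
      exact (Finset.mem_filter.1 hp).2.le
    rw [Finset.sum_const, nsmul_eq_mul] at h2
    refine le_trans (le_of_eq (mul_comm _ _)) (h2.trans ?_)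
    exact Finset.sum_le_sum_of_subset_of_nonneg (Finset.subset_univ _)
      (fun p _ _ => Finset.prod_nonneg fun t _ => by positivity)
  have h2 : ∑ p : Fin 16 → Equiv.Perm ι, ∏ t, (1 + y) ^ (stay F (p t)) =
      (∑ π : Equiv.Perm ι, (1 + y) ^ (stay F π)) ^ 16 := by
    rw [Fintype.sum_pow]
  have h3 : (∑ π : Equiv.Perm ι, (1 + y) ^ (stay F π)) ^ 16 ≤
      ((Fintype.card ι).factorial * (1 + y * ρ) ^ F.card) ^ 16 := by
    apply pow_le_pow_left₀ (Finset.sum_nonneg fun _ _ => by positivity)
    exact gen_le F y hy0.le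
  have h4 : (1 + y) ^ (14 * F.card) * (bad F).card ≤
      ((Fintype.card ι).factorial * (1 + y * ρ) ^ F.card) ^ 16 := by
    rw [h2] at h1; exact h1.trans h3
  have hyρ : 1 + y * ρ = 8 := by rw [hy]; field_simp; norm_num
  rw [hyρ] at h4
  -- numeric inequality
  have h5 : (8:ℝ) ^ 16 ≤ (1 + y) ^ 14 * (ρ / 3) ^ 2 := by
    have h6 : (7 / ρ) ^ 14 ≤ (1 + y) ^ 14 := by
      apply pow_le_pow_left₀ (by positivity)
      rw [hy]; linarith
    have h7 : (8:ℝ) ^ 16 ≤ (7 / ρ) ^ 14 * (ρ / 3) ^ 2 := by
      have e : (7 / ρ) ^ 14 * (ρ / 3) ^ 2 = 7 ^ 14 / (9 * ρ ^ 12) := by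
        field_simp; norm_num
      rw [e, le_div_iff₀ (by positivity)]
      have h8 : ρ ^ 12 ≤ (1 / 2) ^ 12 := pow_le_pow_left₀ hρ0.le hρ2 12
      nlinarith
    refine h7.trans (mul_le_mul_of_nonneg_right h6 (by positivity))
  have h6 : ((8:ℝ) ^ 16) ^ F.card ≤ ((1 + y) ^ 14 * (ρ / 3) ^ 2) ^ F.card :=
    pow_le_pow_left₀ (by positivity) h5 _
  have h7 : (1 + y) ^ (14 * F.card) * (bad F).card ≤
      (1 + y) ^ (14 * F.card) * ((((Fintype.card ι).factorial : ℝ) ^ 16) *
        ((ρ / 3) ^ 2) ^ F.card) := by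
    refine h4.trans ?_
    calc _ = (((Fintype.card ι).factorial : ℝ) ^ 16) * ((8:ℝ) ^ 16) ^ F.card := by
          rw [mul_pow, ← pow_mul, ← pow_mul, mul_comm F.card 16]
      _ ≤ (((Fintype.card ι).factorial : ℝ) ^ 16) * ((1 + y) ^ 14 * (ρ / 3) ^ 2) ^ F.card :=
          mul_le_mul_of_nonneg_left h6 (by positivity)
      _ = _ := by rw [mul_pow, ← pow_mul (1 + y)]; ring
  exact le_of_mul_le_mul_left h7 (by positivity)

lemma sum_small (m : ℕ) (hm : 1 ≤ m) :
    ∑ s ∈ range (m + 1), (m.choose s : ℝ) *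
      (if 1 ≤ s ∧ 2 * s ≤ m then ((((s : ℝ) / m) / 3) ^ 2) ^ s else 0) ≤ 1 / 5 := by
  have hm0 : (0:ℝ) < m := by exact_mod_cast hm
  have h1 : ∀ s ∈ range (m + 1), (m.choose s : ℝ) *
      (if 1 ≤ s ∧ 2 * s ≤ m then ((((s : ℝ) / m) / 3) ^ 2) ^ s else 0) ≤
      (if s = 0 then 0 else (1 / 6 : ℝ) ^ s) := by
    intro s _
    by_cases hs : 1 ≤ s ∧ 2 * s ≤ m
    · rw [if_pos hs, if_neg (by omega)]
      have hs0 : (0:ℝ) < s := by exact_mod_cast hs.1
      have h2 : (m.choose s : ℝ) ≤ (m : ℝ) ^ s / s.factorial := Nat.choose_le_pow_div s m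
      have h3 := Real.pow_div_factorial_le_exp (s : ℝ) hs0.le s
      have hρ : (s : ℝ) / m ≤ 1 / 2 := by
        rw [div_le_iff₀ hm0]
        have : (2:ℝ) * s ≤ m := by exact_mod_cast hs.2
        linarith
      have hf : (0:ℝ) < s.factorial := by exact_mod_cast s.factorial_pos
      calc (m.choose s : ℝ) * ((((s : ℝ) / m) / 3) ^ 2) ^ s
          ≤ ((m : ℝ) ^ s / s.factorial) * ((((s : ℝ) / m) / 3) ^ 2) ^ s :=
            mul_le_mul_of_nonneg_right h2 (by positivity)
        _ = ((s : ℝ) ^ s / s.factorial) * (((s : ℝ) / m) / 9) ^ s := by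
            rw [div_mul_eq_mul_div, div_mul_eq_mul_div, ← mul_pow, ← mul_pow]
            congr 2
            field_simp
            norm_num
        _ ≤ Real.exp s * ((1 / 2) / 9) ^ s := by
            apply mul_le_mul h3 _ (by positivity) (by positivity)
            apply pow_le_pow_left₀ (by positivity)
            linarith
        _ = (Real.exp 1 * ((1 / 2) / 9)) ^ s := by
            rw [mul_pow, ← Real.exp_nat_mul, mul_one]
        _ ≤ (1 / 6) ^ s := by
            apply pow_le_pow_left₀ (by positivity)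
            have := Real.exp_one_lt_d9
            linarith
    · rw [if_neg hs, mul_zero]
      split_ifs
      · exact le_rfl
      · positivity
  refine (Finset.sum_le_sum h1).trans ?_
  rw [Finset.sum_range_succ']
  simp only [Nat.add_eq_zero_iff, one_ne_zero, and_false, if_false, if_true, add_zero]
  have h2 : ∀ k : ℕ, ∑ s ∈ range k, (1 / 6 : ℝ) ^ (s + 1) ≤ 1 / 5 * (1 - (1 / 6) ^ k) := by
    intro k
    induction k with
    | zero => simp
    | succ k ih =>
      rw [Finset.sum_range_succ]
      have : (1 / 6 : ℝ) ^ (k + 1) = (1 / 6) ^ k / 6 := by rw [pow_succ]; ring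
      rw [this]
      linarith
  refine (h2 m).trans ?_
  have : (0:ℝ) < (1 / 6) ^ m := by positivity
  linarith

theorem perm_expander (m : ℕ) (hm : 1 ≤ m) : ∃ p : Fin 16 → Equiv.Perm (Fin m),
    ∀ F : Finset (Fin m), 2 * F.card ≤ m → ∑ t, stay F (p t) ≤ 14 * F.card := by
  classical
  have : Nonempty (Fin m) := ⟨⟨0, hm⟩⟩
  by_contra hcon
  push Not at hcon
  set P : Finset (Finset (Fin m)) := univ.filter (fun F => 1 ≤ F.card ∧ 2 * F.card ≤ m) with hP
  have hcover : (univ : Finset (Fin 16 → Equiv.Perm (Fin m))) ⊆ P.biUnion (fun F => bad F) := by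
    intro p _
    obtain ⟨F, hF, hlt⟩ := hcon p
    rw [Finset.mem_biUnion]
    refine ⟨F, ?_, ?_⟩
    · rw [hP, Finset.mem_filter]
      refine ⟨mem_univ _, ?_, hF⟩
      by_contra h0
      have h1 : F.card = 0 := by omega
      have h2 : F = ∅ := Finset.card_eq_zero.1 h1
      rw [h2] at hlt
      simp [stay] at hlt
    · exact Finset.mem_filter.2 ⟨mem_univ _, hlt⟩
  have h1 : ((univ : Finset (Fin 16 → Equiv.Perm (Fin m))).card : ℝ) ≤
      ∑ F ∈ P, ((bad F).card : ℝ) := by
    have := (Finset.card_le_card hcover).trans Finset.card_biUnion_le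
    exact_mod_cast this
  have hcard : ((univ : Finset (Fin 16 → Equiv.Perm (Fin m))).card : ℝ) =
      ((m.factorial : ℝ)) ^ 16 := by
    rw [card_univ, Fintype.card_fun, Fintype.card_perm, Fintype.card_fin, Fintype.card_fin]
    push_cast; rfl
  have h2 : ∑ F ∈ P, ((bad F).card : ℝ) ≤ ((m.factorial : ℝ)) ^ 16 * (1 / 5) := by
    have h3 : ∀ F ∈ P, ((bad F).card : ℝ) ≤ ((m.factorial : ℝ)) ^ 16 *
        ((((F.card : ℝ) / m) / 3) ^ 2) ^ F.card := by
      intro F hF
      rw [hP, Finset.mem_filter] at hF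
      have := bad_le F (Finset.card_pos.1 hF.2.1) (by rw [Fintype.card_fin]; exact hF.2.2)
      rw [Fintype.card_fin] at this
      exact this
    refine (Finset.sum_le_sum h3).trans ?_
    rw [← Finset.mul_sum]
    apply mul_le_mul_of_nonneg_left _ (by positivity)
    have h4 := Finset.sum_powerset_apply_card
      (fun s : ℕ => if 1 ≤ s ∧ 2 * s ≤ m then ((((s : ℝ) / m) / 3) ^ 2) ^ s else 0)
      (x := (univ : Finset (Fin m)))
    rw [card_univ, Fintype.card_fin] at h4
    simp only [nsmul_eq_mul] at h4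
    have h5 := sum_small m hm
    rw [← h4] at h5
    refine le_trans (le_of_eq ?_) h5
    rw [hP, Finset.sum_filter, Finset.powerset_univ]
  rw [hcard] at h1
  have h3 : (0:ℝ) < ((m.factorial : ℝ)) ^ 16 := by
    have : (0:ℝ) < m.factorial := by exact_mod_cast m.factorial_pos
    positivity
  linarith

/-- the number of points leaving `F` -/
def leave (F : Finset ι) (π : Equiv.Perm ι) : ℕ := (F.filter (fun a => π a ∉ F)).card

omit [DecidableEq ι] in
lemma leave_inst (i1 i2 : DecidableEq ι) (F : Finset ι) (π : Equiv.Perm ι) :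
    @leave ι i1 F π = @leave ι i2 F π := by
  have h : i1 = i2 := Subsingleton.elim _ _
  subst h
  rfl

lemma stay_add_leave (F : Finset ι) (π : Equiv.Perm ι) : stay F π + leave F π = F.card :=
  Finset.card_filter_add_card_filter_not _

lemma leave_compl (F : Finset ι) (π : Equiv.Perm ι) : leave Fᶜ π = leave F π := by
  have h1 := card_preimage_perm π F
  have h2 : (univ.filter (fun b => π b ∈ F)).card = stay F π + leave Fᶜ π := by
    rw [← Finset.card_filter_add_card_filter_not (s := univ.filter (fun b => π b ∈ F))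
      (fun b => b ∈ F)]
    congr 1
    · unfold stay
      congr 1
      ext b; simp [and_comm]
    · unfold leave
      congr 1
      ext b; simp [and_comm]
  have h3 := stay_add_leave F π
  omega

lemma leave_symm (F : Finset ι) (π : Equiv.Perm ι) : leave F π.symm = leave F π := by
  have h1 : stay F π.symm = stay F π := by
    unfold stay
    refine Finset.card_nbij' (fun b => π.symm b) (fun b => π b) ?_ ?_ ?_ ?_
    · intro b hb
      simp only [Finset.coe_filter, Set.mem_setOf_eq] at hb ⊢
      exact ⟨hb.2, by simpa using hb.1⟩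
    · intro b hb
      simp only [Finset.coe_filter, Set.mem_setOf_eq] at hb ⊢
      exact ⟨hb.2, by simpa using hb.1⟩
    · intro b _; simp
    · intro b _; simp
  have h2 := stay_add_leave F π
  have h3 := stay_add_leave F π.symm
  omega

/-- The form used later. -/
theorem perm_expander' (m : ℕ) (hm : 1 ≤ m) : ∃ p : Fin 16 → Equiv.Perm (Fin m),
    ∀ F : Finset (Fin m), 5 * F.card ≤ 4 * m → F.card ≤ 2 * ∑ t, leave F (p t) := by
  obtain ⟨p, hp⟩ := perm_expander m hm
  refine ⟨p, ?_⟩
  have key : ∀ F : Finset (Fin m), 2 * F.card ≤ m → 2 * F.card ≤ ∑ t, leave F (p t) := by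
    intro F hF
    have h1 := hp F hF
    have h2 : ∑ t : Fin 16, (stay F (p t) + leave F (p t)) = 16 * F.card := by
      simp only [stay_add_leave]
      rw [Finset.sum_const, card_univ, Fintype.card_fin, smul_eq_mul]
    rw [Finset.sum_add_distrib] at h2
    omega
  intro F hF
  by_cases h : 2 * F.card ≤ m
  · have := key F h; omega
  · have hc : F.card + Fᶜ.card = m := by
      rw [Finset.card_add_card_compl, Fintype.card_fin]
    have h2 := key Fᶜ (by omega)
    simp only [leave_compl] at h2
    omega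

end Perm

end H111R4
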