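import Mathlib
import Pool.Agent.H111R4.Perm
import Pool.Agent.H111R4.Intra

/-!
Expansion of the lifted graph.
-/

namespace H111R4

open Finset Classical

section Exp

variable {A B I T : Type} [Fintype A] [Fintype B] [Fintype I] [Fintype T]

/-- the lifted relation with voltages `τ` -/
def Lr (R : A → B → Prop) (τ : A → B → Equiv.Perm I) (x : A × I) (y : B × I) : Prop :=
  R x.1 y.1 ∧ τ x.1 y.1 x.2 = y.2

/-- slices -/
noncomputable def sl {A : Type} [Fintype A] (X : Finset (A × I)) (i : I) : Finset A :=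
  univ.filter (fun a => (a, i) ∈ X)

lemma card_eq_sum_sl {A : Type} [Fintype A] (X : Finset (A × I)) :
    X.card = ∑ i, (sl X i).card := by
  have h1 : X.card = ∑ p : A × I, (if p ∈ X then 1 else 0) := by
    rw [← Finset.card_filter]
    congr 1
    ext p; simp
  rw [h1, Fintype.sum_prod_type_right]
  apply Finset.sum_congr rfl
  intro i _
  rw [sl, Finset.card_filter]

theorem expand (q k' m : ℕ) (hq : 19 ≤ q) (hk : 16 * k' ≤ (q + 1) ^ 2)
    (hA : Fintype.card A = (q + 1) ^ 2) (hB : Fintype.card B = (q + 1) ^ 2)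
    (hI : Fintype.card I = m) (hT : Fintype.card T = 16 * k')
    (R : A → B → Prop)
    (hdA : ∀ a, (univ.filter (fun b => R a b)).card = q + 1)
    (hdB : ∀ b, (univ.filter (fun a => R a b)).card = q + 1)
    (hcA : ∀ a a', a ≠ a' → (univ.filter (fun b => R a b ∧ R a' b)).card ≤ 1)
    (hcB : ∀ b b', b ≠ b' → (univ.filter (fun a => R a b ∧ R a b')).card ≤ 1)
    (u : T → A) (v : T → B) (hu : Function.Injective u) (hv : Function.Injective v)
    (huv : ∀ t, R (u t) (v t))
    (σ : T → Equiv.Perm I) (τ : A → B → Equiv.Perm I)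
    (hτ1 : ∀ t, τ (u t) (v t) = σ t)
    (hτ0 : ∀ a b, (¬ ∃ t, u t = a ∧ v t = b) → τ a b = 1)
    (hσ : ∀ F : Finset I, 5 * F.card ≤ 4 * m → k' * F.card ≤ 2 * ∑ t, leave F (σ t))
    (X : Finset (A × I)) (hX : 4 * X.card ≤ 3 * ((q + 1) ^ 2 * m)) :
    (1 + (k' : ℝ) / (1024 * ((q : ℝ) + 1) ^ 2)) * X.card ≤
      ((univ.filter (fun y : B × I => ∃ x ∈ X, Lr R τ x y)).card : ℝ) := by
  set P : ℕ := (q + 1) ^ 2 with hP
  obtain ⟨R', hR'⟩ : ∃ R' : A → B → Prop, ∀ a b, R' a b ↔
      (R a b ∧ ¬ ∃ t, u t = a ∧ v t = b) := ⟨_, fun _ _ => Iff.rfl⟩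
  have hP400 : 400 ≤ P := by rw [hP]; nlinarith
  have hkP : 16 * k' ≤ P := hk
  -- degrees of R'
  have hsplitA : ∀ a, (univ.filter (fun b => R' a b)).card + 1 ≥ q + 1 := by
    intro a
    rw [← hdA a, ← Finset.card_filter_add_card_filter_not (s := univ.filter (fun b => R a b))
      (fun b => ∃ t, u t = a ∧ v t = b)]
    have e1 : (univ.filter (fun b => R a b)).filter (fun b => ¬ ∃ t, u t = a ∧ v t = b) =
        univ.filter (fun b => R' a b) := by
      ext b; simp [hR']
    rw [e1]
    have e2 : ((univ.filter (fun b => R a b)).filter (fun b => ∃ t, u t = a ∧ v t = b)).card ≤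
        1 := by
      rw [Finset.card_le_one]
      intro b hb b' hb'
      simp only [Finset.mem_filter] at hb hb'
      obtain ⟨t, ht, rfl⟩ := hb.2
      obtain ⟨t', ht', rfl⟩ := hb'.2
      rw [hu (ht.trans ht'.symm)]
    omega
  have hsplitB : ∀ b, (univ.filter (fun a => R' a b)).card + 1 ≥ q + 1 := by
    intro b
    rw [← hdB b, ← Finset.card_filter_add_card_filter_not (s := univ.filter (fun a => R a b))
      (fun a => ∃ t, u t = a ∧ v t = b)]
    have e1 : (univ.filter (fun a => R a b)).filter (fun a => ¬ ∃ t, u t = a ∧ v t = b) =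
        univ.filter (fun a => R' a b) := by
      ext b; simp [hR']
    rw [e1]
    have e2 : ((univ.filter (fun a => R a b)).filter (fun a => ∃ t, u t = a ∧ v t = b)).card ≤
        1 := by
      rw [Finset.card_le_one]
      intro a ha a' ha'
      simp only [Finset.mem_filter] at ha ha'
      obtain ⟨t, rfl, ht⟩ := ha.2
      obtain ⟨t', rfl, ht'⟩ := ha'.2
      rw [hv (ht.trans ht'.symm)]
    omega
  have hintra := intra R' q hq hA hB (fun a => by have := hsplitA a; omega)
    (fun a => by
      rw [← hdA a]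
      apply Finset.card_le_card
      intro b hb
      simp only [Finset.mem_filter, hR'] at hb ⊢
      exact ⟨hb.1, hb.2.1⟩)
    (fun a a' haa' => by
      refine le_trans (Finset.card_le_card ?_) (hcA a a' haa')
      intro b hb
      simp only [Finset.mem_filter, hR'] at hb ⊢
      exact ⟨hb.1, hb.2.1.1, hb.2.2.1⟩)
    (fun b => by have := hsplitB b; omega)
    (fun b => by
      rw [← hdB b]
      apply Finset.card_le_card
      intro b hb
      simp only [Finset.mem_filter, hR'] at hb ⊢
      exact ⟨hb.1, hb.2.1⟩)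
    (fun b b' hbb' => by
      refine le_trans (Finset.card_le_card ?_) (hcB b b' hbb')
      intro b hb
      simp only [Finset.mem_filter, hR'] at hb ⊢
      exact ⟨hb.1, hb.2.1.1, hb.2.2.1⟩)
  set N : Finset (B × I) := univ.filter (fun y : B × I => ∃ x ∈ X, Lr R τ x y) with hN
  set F : Finset I := univ.filter (fun i => 4 * P ≤ 4 * (sl X i).card + k') with hF
  set e : I → ℕ := fun j =>
    (univ.filter (fun t => (σ t).symm j ∈ F ∧ (u t, (σ t).symm j) ∈ X)).card with he
  have hslP : ∀ i, (sl X i).card ≤ P := by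
    intro i; rw [← hA]; exact Finset.card_le_univ _
  -- first inclusion
  have hinc1 : ∀ j, (nb R' (sl X j)).card ≤ (sl N j).card := by
    intro j
    apply Finset.card_le_card
    intro b hb
    simp only [nb, sl, Finset.mem_filter, mem_univ, true_and, hN] at hb ⊢
    obtain ⟨a, ha, hRR⟩ := hb
    obtain ⟨hR, hnt⟩ := (hR' a b).1 hRR
    exact ⟨(a, j), ha, hR, by rw [hτ0 a b hnt]; rfl⟩
  have hinc2 : ∀ j, e j ≤ (sl N j).card := by
    intro j
    rw [he]
    refine Finset.card_le_card_of_injOn v ?_ hv.injOn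
    intro t ht
    simp only [Finset.coe_filter, mem_univ, true_and, Set.mem_setOf_eq] at ht
    simp only [sl, Finset.coe_filter, Finset.mem_filter, mem_univ, true_and, hN, Set.mem_setOf_eq]
    refine ⟨(u t, (σ t).symm j), ht.2, huv t, ?_⟩
    rw [hτ1]; simp
  have he16 : ∀ j, e j ≤ 16 * k' := by
    intro j; rw [he, ← hT]; exact Finset.card_le_univ _
  -- size of F
  have hXsum := card_eq_sum_sl X
  have hFcard : 5 * F.card ≤ 4 * m := by
    have h1 : F.card * (15 * P) ≤ 16 * ∑ i ∈ F, (sl X i).card := by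
      rw [Finset.mul_sum, ← smul_eq_mul, ← Finset.sum_const]
      apply Finset.sum_le_sum
      intro i hi
      rw [hF, Finset.mem_filter] at hi
      have := hi.2
      omega
    have h2 : ∑ i ∈ F, (sl X i).card ≤ X.card := by
      rw [hXsum]; exact Finset.sum_le_sum_of_subset (Finset.subset_univ _)
    have h3 : F.card * (15 * P) ≤ 12 * (P * m) := by omega
    have h4 : P * (15 * F.card) ≤ P * (12 * m) := by linarith
    have h5 := Nat.le_of_mul_le_mul_left h4 (by omega)
    omega
  have hleave := hσ F hFcard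
  -- double counting of the crossing edges
  have hcross : ∑ t, leave F (σ t) ≤ ∑ j ∈ Fᶜ, e j + ∑ i ∈ F, (P - (sl X i).card) := by
    have h1 : ∑ t, leave F (σ t) =
        (univ.filter (fun p : T × I => p.2 ∈ F ∧ σ p.1 p.2 ∉ F)).card := by
      rw [Finset.card_filter, Fintype.sum_prod_type]
      apply Finset.sum_congr rfl
      intro t _
      rw [leave, Finset.card_filter, ← Finset.sum_subset (Finset.subset_univ F)]
      · apply Finset.sum_congr rfl
        intro i hi; simp [hi]
      · intro i _ hi; simp [hi]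
    have h2 : (univ.filter (fun p : T × I => p.2 ∈ F ∧ σ p.1 p.2 ∉ F)).card ≤
        (univ.filter (fun p : T × I => p.2 ∈ F ∧ σ p.1 p.2 ∉ F ∧ (u p.1, p.2) ∈ X)).card +
        (univ.filter (fun p : T × I => p.2 ∈ F ∧ (u p.1, p.2) ∉ X)).card := by
      rw [← Finset.card_filter_add_card_filter_not (s := univ.filter
        (fun p : T × I => p.2 ∈ F ∧ σ p.1 p.2 ∉ F)) (fun p => (u p.1, p.2) ∈ X)]
      apply Nat.add_le_add
      · apply Finset.card_le_card
        intro p hp
        simp only [Finset.mem_filter, mem_univ, true_and] at hp ⊢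
        exact ⟨hp.1.1, hp.1.2, hp.2⟩
      · apply Finset.card_le_card
        intro p hp
        simp only [Finset.mem_filter, mem_univ, true_and] at hp ⊢
        exact ⟨hp.1.1, hp.2⟩
    have h3 : (univ.filter (fun p : T × I => p.2 ∈ F ∧ σ p.1 p.2 ∉ F ∧ (u p.1, p.2) ∈ X)).card =
        ∑ j ∈ Fᶜ, e j := by
      have h4 : ∑ j ∈ Fᶜ, e j = (univ.filter (fun p : T × I => p.2 ∈ Fᶜ ∧
          (σ p.1).symm p.2 ∈ F ∧ (u p.1, (σ p.1).symm p.2) ∈ X)).card := by
        rw [Finset.card_filter, Fintype.sum_prod_type_right,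
          ← Finset.sum_subset (Finset.subset_univ Fᶜ)]
        · apply Finset.sum_congr rfl
          intro j hj
          rw [he]
          simp only [Finset.card_filter]
          apply Finset.sum_congr rfl
          intro t _
          simp only [hj, true_and]
        · intro j _ hj; simp [hj]
      rw [h4]
      refine Finset.card_nbij' (fun p => (p.1, σ p.1 p.2)) (fun p => (p.1, (σ p.1).symm p.2))
        ?_ ?_ ?_ ?_
      · intro p hp
        simp only [Finset.coe_filter, mem_univ, true_and, Set.mem_setOf_eq, Finset.mem_compl,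
          Equiv.symm_apply_apply] at hp ⊢
        exact ⟨hp.2.1, hp.1, hp.2.2⟩
      · intro p hp
        simp only [Finset.coe_filter, mem_univ, true_and, Set.mem_setOf_eq, Finset.mem_compl,
          Equiv.apply_symm_apply] at hp ⊢
        exact ⟨hp.2.1, hp.1, hp.2.2⟩
      · intro p _; simp
      · intro p _; simp
    have h5 : (univ.filter (fun p : T × I => p.2 ∈ F ∧ (u p.1, p.2) ∉ X)).card ≤
        ∑ i ∈ F, (P - (sl X i).card) := by
      rw [Finset.card_filter, Fintype.sum_prod_type_right,
        ← Finset.sum_subset (Finset.subset_univ F)]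
      · apply Finset.sum_le_sum
        intro i hi
        simp only [hi, true_and]
        rw [← Finset.card_filter]
        have h6 : (univ.filter (fun t => (u t, i) ∉ X)).card ≤ (sl X i)ᶜ.card := by
          refine Finset.card_le_card_of_injOn u ?_ hu.injOn
          intro t ht
          simp only [Finset.coe_filter, mem_univ, true_and, Set.mem_setOf_eq] at ht
          simp [sl, ht]
        rw [Finset.card_compl, hA] at h6
        exact h6
      · intro i _ hi; simp [hi]
    rw [h1]
    omega
  have hlost : 4 * ∑ i ∈ F, (P - (sl X i).card) ≤ k' * F.card := by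
    rw [Finset.mul_sum, mul_comm k', ← smul_eq_mul, ← Finset.sum_const]
    apply Finset.sum_le_sum
    intro i hi
    rw [hF, Finset.mem_filter] at hi
    have := hi.2
    omega
  have hE : k' * F.card ≤ 4 * ∑ j ∈ Fᶜ, e j := by omega
  -- excess
  have hNsum := card_eq_sum_sl N
  have hexF : ∀ j ∈ F, ((sl X j).card : ℝ) ≤ (sl N j).card := by
    intro j hj
    rw [hF, Finset.mem_filter] at hj
    have h1 := hj.2
    have h2 := (hintra (sl X j)).2 (by omega)
    have h3 := hinc1 j
    have h4 := hslP j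
    have : (sl X j).card ≤ (sl N j).card := by omega
    exact_mod_cast this
  have hPpos : (0:ℝ) < P := by
    have : 0 < P := by omega
    exact_mod_cast this
  have hexFc : ∀ j ∈ Fᶜ, (e j : ℝ) / 128 + (k' : ℝ) / (8 * P) * (sl X j).card ≤
      2 * ((sl N j).card - (sl X j).card) := by
    intro j hj
    rw [Finset.mem_compl, hF, Finset.mem_filter] at hj
    have hj' : 4 * (sl X j).card + k' < 4 * P := by
      by_contra h
      exact hj ⟨mem_univ _, by omega⟩
    have h3 := hinc1 j
    have h3' := hinc2 j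
    have h4 := hslP j
    have h5 := he16 j
    have hx : ((sl X j).card : ℝ) ≤ P := by exact_mod_cast h4
    have hk0 : (0:ℝ) ≤ k' := Nat.cast_nonneg _
    have hx0 : (0:ℝ) ≤ (sl X j).card := Nat.cast_nonneg _
    have he0 : (0:ℝ) ≤ e j := Nat.cast_nonneg _
    by_cases hcase : 4 * (sl X j).card ≤ P
    · have h2 := (hintra (sl X j)).1 hcase
      have h6 : 2 * (sl X j).card ≤ (sl N j).card := h2.trans h3
      have h6' : 2 * ((sl X j).card : ℝ) ≤ (sl N j).card := by exact_mod_cast h6
      have h7 : (e j : ℝ) ≤ (sl N j).card := by exact_mod_cast h3'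
      have h8 : (k' : ℝ) / (8 * P) ≤ 1 := by
        rw [div_le_one (by positivity)]
        have : k' ≤ 8 * P := by omega
        exact_mod_cast this
      have h9 : (k' : ℝ) / (8 * P) * (sl X j).card ≤ 1 * (sl X j).card :=
        mul_le_mul_of_nonneg_right h8 hx0
      have h10 : (k' : ℝ) / (8 * P) ≤ 1 / 128 := by
        rw [div_le_div_iff₀ (by positivity) (by norm_num)]
        have : (16:ℝ) * k' ≤ P := by exact_mod_cast hkP
        linarith
      have h11 : (k' : ℝ) / (8 * P) * (sl X j).card ≤ 1 / 128 * (sl X j).card :=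
        mul_le_mul_of_nonneg_right h10 hx0
      linarith
    · have h2 := (hintra (sl X j)).2 (by omega)
      have h6 : P + (sl X j).card ≤ 2 * (sl N j).card := by omega
      have h6' : (P : ℝ) + (sl X j).card ≤ 2 * (sl N j).card := by exact_mod_cast h6
      have hj'' : 4 * ((sl X j).card : ℝ) + k' < 4 * P := by exact_mod_cast hj'
      have h5' : (e j : ℝ) ≤ 16 * k' := by exact_mod_cast h5
      have h8 : (k' : ℝ) / (8 * P) * (sl X j).card ≤ k' / 8 := by
        rw [div_mul_eq_mul_div, div_le_div_iff₀ (by positivity) (by norm_num)]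
        have := mul_le_mul_of_nonneg_left hx hk0
        linarith
      linarith
  -- total
  have htot : (k' : ℝ) / (512 * P) * X.card ≤ 2 * ((N.card : ℝ) - X.card) := by
    have e1 : ((X.card : ℕ) : ℝ) = ∑ i ∈ F, ((sl X i).card : ℝ) + ∑ i ∈ Fᶜ, ((sl X i).card : ℝ) := by
      rw [hXsum]; push_cast
      rw [Finset.sum_add_sum_compl]
    have e2 : ((N.card : ℕ) : ℝ) = ∑ i ∈ F, ((sl N i).card : ℝ) + ∑ i ∈ Fᶜ, ((sl N i).card : ℝ) := by
      rw [hNsum]; push_cast
      rw [Finset.sum_add_sum_compl]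
    have h1 := Finset.sum_le_sum hexF
    have h2 := Finset.sum_le_sum hexFc
    rw [Finset.sum_add_distrib, ← Finset.sum_div, ← Finset.mul_sum, ← Finset.mul_sum,
      Finset.sum_sub_distrib] at h2
    have h3 : (k' : ℝ) * F.card ≤ 4 * ∑ j ∈ Fᶜ, (e j : ℝ) := by exact_mod_cast hE
    have h4 : ∑ i ∈ F, ((sl X i).card : ℝ) ≤ P * F.card := by
      have : ∑ i ∈ F, (sl X i).card ≤ F.card * P := by
        rw [← smul_eq_mul, ← Finset.sum_const]
        exact Finset.sum_le_sum fun i _ => hslP i
      have h5 : ((∑ i ∈ F, (sl X i).card : ℕ) : ℝ) ≤ F.card * P := by exact_mod_cast this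
      push_cast at h5; linarith
    have hk0 : (0:ℝ) ≤ k' := Nat.cast_nonneg _
    have hS0 : (0:ℝ) ≤ ∑ i ∈ Fᶜ, ((sl X i).card : ℝ) :=
      Finset.sum_nonneg fun i _ => Nat.cast_nonneg _
    have h5 : (k' : ℝ) / (512 * P) * ∑ i ∈ F, ((sl X i).card : ℝ) ≤ k' * F.card / 512 := by
      have : (k' : ℝ) / (512 * P) * ∑ i ∈ F, ((sl X i).card : ℝ) ≤
          (k' : ℝ) / (512 * P) * (P * F.card) := mul_le_mul_of_nonneg_left h4 (by positivity)
      refine this.trans (le_of_eq ?_)
      field_simp
    have h6 : (k' : ℝ) / (512 * P) * ∑ i ∈ Fᶜ, ((sl X i).card : ℝ) ≤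
        (k' : ℝ) / (8 * P) * ∑ i ∈ Fᶜ, ((sl X i).card : ℝ) := by
      apply mul_le_mul_of_nonneg_right _ hS0
      apply div_le_div_of_nonneg_left hk0 (by positivity)
      linarith
    rw [e1, e2, mul_add]
    linarith
  have hfin : (k' : ℝ) / (1024 * ((q : ℝ) + 1) ^ 2) * X.card ≤ (N.card : ℝ) - X.card := by
    have hPr : (P : ℝ) = ((q : ℝ) + 1) ^ 2 := by rw [hP]; push_cast; ring
    have e3 : (k' : ℝ) / (1024 * ((q : ℝ) + 1) ^ 2) * X.card =
        ((k' : ℝ) / (512 * P) * X.card) / 2 := by
      rw [hPr]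
      generalize ((q : ℝ) + 1) ^ 2 = Q
      ring
    rw [e3]; linarith
  calc (1 + (k' : ℝ) / (1024 * ((q : ℝ) + 1) ^ 2)) * X.card =
      X.card + (k' : ℝ) / (1024 * ((q : ℝ) + 1) ^ 2) * X.card := by ring
    _ ≤ _ := by linarith

end Exp

end H111R4
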