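import Mathlib
import Pool.Agent.H111R4.Comp

/-!
From the Poincaré inequality to the mixing time of the Glauber dynamics.
-/

namespace H111R4

open Finset

section Mix

variable {V I : Type} [Fintype V] [DecidableEq V] [DecidableEq I] [Fintype I]

omit [DecidableEq I] [Fintype I] in
lemma nbrsIn_erase (G : SimpleGraph V) (v : V) (S : Finset V) :
    nbrsIn G v (S.erase v) = nbrsIn G v S := by
  unfold nbrsIn
  congr 1
  ext u
  simp only [Set.mem_setOf_eq, Finset.mem_erase]
  constructor
  · rintro ⟨h1, _, h2⟩; exact ⟨h1, h2⟩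
  · rintro ⟨h1, h2⟩; exact ⟨h1, h1.ne', h2⟩

omit [DecidableEq I] [Fintype I] in
lemma weight_insert_erase (G : SimpleGraph V) (lam β : ℝ) (v : V) (S : Finset V) :
    weight G lam β (insert v S) =
      weight G lam β (S.erase v) * (lam * Real.exp (-(β * nbrsIn G v S))) := by
  have h : insert v S = insert v (S.erase v) := by
    ext x; simp only [Finset.mem_insert, Finset.mem_erase]; tauto
  rw [h, weight_insert G lam β (Finset.notMem_erase v S), nbrsIn_erase]

variable (G : SimpleGraph V) {lam β : ℝ} (hl : 0 < lam) (hβ : 0 < β)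

omit [DecidableEq I] [Fintype I] in
include hl in
lemma Pr_glauber (v : V) (f : Finset V → ℝ) (S : Finset V) :
    Pr (weight G lam β) (id : V → V) v f S =
      incProb G lam β S v * f (insert v S) + (1 - incProb G lam β S v) * f (S.erase v) := by
  rw [Pr_site (weight_pos G hl β), weight_insert_erase]
  have h1 := weight_pos G hl β (S.erase v)
  set q := lam * Real.exp (-(β * nbrsIn G v S)) with hq
  have hq0 : 0 < q := by rw [hq]; positivity
  unfold incProb
  rw [← hq]
  field_simp
  ring

omit [DecidableEq I] [Fintype I] in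
include hl in
lemma glauber_mulVec (f : Finset V → ℝ) (S : Finset V) :
    ∑ T, glauber G lam β S T * f T = Qop (weight G lam β) (id : V → V) f S := by
  unfold Qop glauber
  simp only [Pr_glauber G hl]
  have : ∀ T, (∑ v : V, ((if T = insert v S then incProb G lam β S v else 0) +
      (if T = S.erase v then 1 - incProb G lam β S v else 0))) / (Fintype.card V : ℝ) * f T =
      (∑ v : V, ((if T = insert v S then incProb G lam β S v * f T else 0) +
      (if T = S.erase v then (1 - incProb G lam β S v) * f T else 0))) / Fintype.card V := by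
    intro T
    rw [div_mul_eq_mul_div, Finset.sum_mul]
    congr 1
    apply Finset.sum_congr rfl
    intro v _
    split_ifs <;> ring
  simp only [this]
  rw [← Finset.sum_div, Finset.sum_comm]
  congr 1
  apply Finset.sum_congr rfl
  intro v _
  rw [Finset.sum_add_distrib]
  simp

omit [DecidableEq I] [Fintype I] in
include hl in
lemma glauber_pow (t : ℕ) (f : Finset V → ℝ) (S : Finset V) :
    ∑ T, ((glauber G lam β) ^ t) S T * f T = (Qop (weight G lam β) (id : V → V))^[t] f S := by
  induction t generalizing S with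
  | zero => simp [Matrix.one_apply]
  | succ t ih =>
    rw [Function.iterate_succ_apply', ← glauber_mulVec G hl, pow_succ']
    simp only [Matrix.mul_apply, Finset.sum_mul]
    rw [Finset.sum_comm]
    apply Finset.sum_congr rfl
    intro U _
    rw [← ih U, Finset.mul_sum]
    apply Finset.sum_congr rfl
    intro T _
    ring

variable {w : Finset V → ℝ} (hw : ∀ S, 0 < w S)

omit [DecidableEq I] [Fintype I] in
include hw in
lemma iter_selfadj (t : ℕ) (f g : Finset V → ℝ) :
    ip w ((Qop w (id : V → V))^[t] f) g = ip w f ((Qop w (id : V → V))^[t] g) := by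
  induction t generalizing f g with
  | zero => rfl
  | succ t ih =>
    rw [Function.iterate_succ_apply, Function.iterate_succ_apply', ih, Q_selfadj hw]

omit [DecidableEq I] [Fintype I] in
include hw in
lemma Qop_const [Nonempty V] (c : ℝ) : Qop w (id : V → V) (fun _ => c) = fun _ => c := by
  funext S
  unfold Qop
  simp only [Pr_const hw]
  rw [Finset.sum_const, card_univ, nsmul_eq_mul]
  have hm : (0 : ℝ) < Fintype.card V := by exact_mod_cast Fintype.card_pos
  field_simp

omit [DecidableEq I] [Fintype I] in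
include hw in
lemma iter_const [Nonempty V] (t : ℕ) (c : ℝ) :
    (Qop w (id : V → V))^[t] (fun _ => c) = fun _ => c := by
  induction t with
  | zero => rfl
  | succ t ih => rw [Function.iterate_succ_apply', ih, Qop_const hw]

omit [DecidableEq I] [Fintype I] in
include hl in
lemma glauber_rev (t : ℕ) (S T : Finset V) :
    weight G lam β S * ((glauber G lam β) ^ t) S T =
      weight G lam β T * ((glauber G lam β) ^ t) T S := by
  have key : ∀ S T : Finset V, ((glauber G lam β) ^ t) S T =
      (Qop (weight G lam β) (id : V → V))^[t] (fun U => if U = T then 1 else 0) S := by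
    intro S T
    rw [← glauber_pow G hl]
    simp
  have h := iter_selfadj (weight_pos G hl β) t (fun U => if U = T then (1:ℝ) else 0)
    (fun U => if U = S then (1:ℝ) else 0)
  unfold ip at h
  have e1 : ∑ U, weight G lam β U * (Qop (weight G lam β) (id : V → V))^[t]
      (fun U => if U = T then (1:ℝ) else 0) U * (if U = S then (1:ℝ) else 0) =
      weight G lam β S * ((glauber G lam β) ^ t) S T := by
    rw [key S T]
    simp
  have e2 : ∑ U, weight G lam β U * (if U = T then (1:ℝ) else 0) *
      (Qop (weight G lam β) (id : V → V))^[t] (fun U => if U = S then (1:ℝ) else 0) U =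
      weight G lam β T * ((glauber G lam β) ^ t) T S := by
    rw [key T S]
    simp
  rw [e1, e2] at h
  exact h

omit [DecidableEq I] [Fintype I] in
include hw in
/-- contraction of the Glauber dynamics -/
lemma site_contract [Nonempty V] (γ : ℝ) (hγ0 : 0 < γ) (hγ1 : γ < 1)
    (hP : ∀ g : Finset V → ℝ, ∑ S, w S * g S = 0 →
      ip w g (Qop w (id : V → V) g) ≤ (1 - γ) * ip w g g)
    (g : Finset V → ℝ) (hg : ∑ S, w S * g S = 0) :
    ip w (Qop w (id : V → V) g) (Qop w (id : V → V) g) ≤ (1 - γ) ^ 2 * ip w g g := by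
  have hn : (0 : ℝ) < Fintype.card V := by exact_mod_cast Fintype.card_pos
  have form : ∀ x y : Finset V → ℝ, ip w (Qop w (id : V → V) x) y =
      (∑ v, ip w (Pr w (id : V → V) v x) (Pr w (id : V → V) v y)) / Fintype.card V := by
    intro x y
    have h1 : ∀ v, ip w (Pr w (id : V → V) v x) (Pr w (id : V → V) v y) =
        ip w (Pr w (id : V → V) v x) y := by
      intro v
      rw [← Pr_selfadj hw]
      congr 1
      funext S
      exact Pr_Pr hw _ v x S
    simp only [h1]
    rw [← ip_sum_left]
    unfold ip Qop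
    rw [Finset.sum_div]
    exact Finset.sum_congr rfl fun S _ => by ring
  set h := Qop w (id : V → V) g with hh
  have hh0 : ∑ S, w S * h S = 0 := by rw [hh, mean_Q hw, hg]
  have hc : 0 < 1 - γ := by linarith
  set c := 1 - γ with hcdef
  have young : ∀ x y : Finset V → ℝ, ip w x y ≤ c / 2 * ip w x x + 1 / (2 * c) * ip w y y := by
    intro x y
    have h1 := ip_self_nonneg hw (fun S => c * x S - y S)
    have e : ip w (fun S => c * x S - y S) (fun S => c * x S - y S) =
        c ^ 2 * ip w x x - 2 * c * ip w x y + ip w y y := by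
      unfold ip
      rw [Finset.mul_sum, Finset.mul_sum, ← Finset.sum_sub_distrib, ← Finset.sum_add_distrib]
      exact Finset.sum_congr rfl fun S _ => by ring
    rw [e] at h1
    have h2 : 2 * c * ip w x y ≤ c ^ 2 * ip w x x + ip w y y := by linarith
    have h3 : ip w x y = (2 * c * ip w x y) / (2 * c) := by field_simp
    rw [h3]
    calc (2 * c * ip w x y) / (2 * c) ≤ (c ^ 2 * ip w x x + ip w y y) / (2 * c) :=
          div_le_div_of_nonneg_right h2 (by positivity)
      _ = _ := by field_simp
  have h1 : ip w h h ≤ c / 2 * ip w g h + 1 / (2 * c) * ip w h (Qop w (id : V → V) h) := by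
    have e1 : ip w h h = (∑ v, ip w (Pr w (id : V → V) v g) (Pr w (id : V → V) v h)) /
        Fintype.card V := form g h
    have e2 : ip w g h = (∑ v, ip w (Pr w (id : V → V) v g) (Pr w (id : V → V) v g)) /
        Fintype.card V := by rw [ip_comm, ← form g g]
    have e3 : ip w h (Qop w (id : V → V) h) =
        (∑ v, ip w (Pr w (id : V → V) v h) (Pr w (id : V → V) v h)) /
        Fintype.card V := by rw [ip_comm, ← form h h]
    rw [e1, e2, e3, mul_div_assoc', mul_div_assoc', ← add_div]
    apply div_le_div_of_nonneg_right _ hn.le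
    rw [Finset.mul_sum, Finset.mul_sum, ← Finset.sum_add_distrib]
    exact Finset.sum_le_sum fun v _ => young _ _
  have h2 := hP g hg
  have h3 := hP h hh0
  have h4 : c / 2 * ip w g h ≤ c / 2 * (c * ip w g g) :=
    mul_le_mul_of_nonneg_left h2 (by positivity)
  have h5 : 1 / (2 * c) * ip w h (Qop w (id : V → V) h) ≤ 1 / (2 * c) * (c * ip w h h) :=
    mul_le_mul_of_nonneg_left h3 (by positivity)
  have h6 : 1 / (2 * c) * (c * ip w h h) = ip w h h / 2 := by field_simp
  rw [h6] at h5
  nlinarith

omit [DecidableEq I] [Fintype I] in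
include hw in
lemma iter_contract [Nonempty V] (γ : ℝ) (hγ0 : 0 < γ) (hγ1 : γ < 1)
    (hP : ∀ g : Finset V → ℝ, ∑ S, w S * g S = 0 →
      ip w g (Qop w (id : V → V) g) ≤ (1 - γ) * ip w g g)
    (g : Finset V → ℝ) (hg : ∑ S, w S * g S = 0) (t : ℕ) :
    ∑ S, w S * ((Qop w (id : V → V))^[t] g) S = 0 ∧
    ip w ((Qop w (id : V → V))^[t] g) ((Qop w (id : V → V))^[t] g) ≤
      ((1 - γ) ^ 2) ^ t * ip w g g := by
  induction t with
  | zero => exact ⟨hg, by simp⟩
  | succ t ih =>
    obtain ⟨h1, h2⟩ := ih
    rw [Function.iterate_succ_apply']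
    refine ⟨by rw [mean_Q hw, h1], ?_⟩
    refine (site_contract hw γ hγ0 hγ1 hP _ h1).trans ?_
    rw [pow_succ ((1 - γ) ^ 2) t, mul_comm (((1 - γ) ^ 2) ^ t), mul_assoc]
    exact mul_le_mul_of_nonneg_left h2 (by positivity)

omit [DecidableEq I] [Fintype I] in
include hl in
/-- total variation bound -/
lemma tv_le [Nonempty V] (γ : ℝ) (hγ0 : 0 < γ) (hγ1 : γ < 1)
    (hP : ∀ g : Finset V → ℝ, ∑ S, weight G lam β S * g S = 0 →
      ip (weight G lam β) g (Qop (weight G lam β) (id : V → V) g) ≤
        (1 - γ) * ip (weight G lam β) g g) (S : Finset V) (t : ℕ) :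
    (∑ T, |((glauber G lam β) ^ t) S T - gibbs G lam β T|) ^ 2 ≤
      ((∑ T, weight G lam β T) / weight G lam β S) * ((1 - γ) ^ 2) ^ t := by
  set w := weight G lam β with hwdef
  have hw : ∀ S, 0 < w S := weight_pos G hl β
  set W := ∑ T, w T with hW
  have hWpos : 0 < W := Finset.sum_pos (fun T _ => hw T) ⟨∅, mem_univ _⟩
  set g : Finset V → ℝ := fun U => (w S)⁻¹ * (if U = S then 1 else 0) + (-(1 / W)) with hg
  have hmean : ∑ U, w U * g U = 0 := by
    rw [hg]
    simp only [mul_add, Finset.sum_add_distrib]
    have e1 : ∑ U, w U * ((w S)⁻¹ * (if U = S then (1:ℝ) else 0)) = 1 := by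
      simp [(hw S).ne']
    have e2 : ∑ U, w U * (-(1 / W)) = -1 := by
      rw [← Finset.sum_mul, ← hW]; field_simp
    rw [e1, e2]; ring
  have hgg : ip w g g ≤ 1 / w S := by
    have e : ip w g g = ∑ U, (w U * ((w S)⁻¹ * (if U = S then (1:ℝ) else 0)) *
        ((w S)⁻¹ - 2 / W)) + (1 / W) ^ 2 * ∑ U, w U := by
      unfold ip
      rw [Finset.mul_sum, ← Finset.sum_add_distrib]
      apply Finset.sum_congr rfl
      intro U _
      rw [hg]
      have hS := (hw S).ne'
      by_cases hU : U = S
      · simp only [hU, if_true]; field_simp; ring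
      · simp only [hU, if_false]; ring
    rw [e, ← Finset.sum_mul, ← hW]
    have e1 : ∑ U, w U * ((w S)⁻¹ * (if U = S then (1:ℝ) else 0)) = 1 := by
      simp [(hw S).ne']
    rw [e1]
    have : 0 < 1 / W := by positivity
    have e3 : (1 / W) ^ 2 * W = 1 / W := by field_simp
    rw [e3, one_mul, one_div (w S)]
    have : 2 / W = 2 * (1 / W) := by ring
    linarith
  have hiter : ∀ T, ((Qop w (id : V → V))^[t] g) T =
      (w S)⁻¹ * ((glauber G lam β) ^ t) T S - 1 / W := by
    intro T
    rw [hwdef, ← glauber_pow G hl, ← hwdef, hg]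
    simp only [mul_add, Finset.sum_add_distrib]
    have e1 : ∑ U, ((glauber G lam β) ^ t) T U * ((w S)⁻¹ * (if U = S then (1:ℝ) else 0)) =
        (w S)⁻¹ * ((glauber G lam β) ^ t) T S := by
      simp [mul_comm]
    have e2 : ∑ U, ((glauber G lam β) ^ t) T U * (-(1 / W)) = -(1 / W) := by
      have h := glauber_pow G hl (β := β) t (fun _ => -(1 / W)) T
      rw [iter_const (weight_pos G hl β)] at h
      exact h
    rw [e1, e2]; ring
  have hterm : ∀ T, |((glauber G lam β) ^ t) S T - gibbs G lam β T| =
      w T * 1 * |((Qop w (id : V → V))^[t] g) T| := by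
    intro T
    rw [hiter, mul_one]
    nth_rewrite 1 [← abs_of_pos (hw T)]
    rw [← abs_mul]
    congr 1
    have h := glauber_rev G hl (β := β) t S T
    rw [← hwdef] at h
    unfold gibbs
    rw [← hwdef, ← hW]
    have hS := (hw S).ne'
    field_simp
    linear_combination W * h
  have hcs := ip_sq_le hw (fun _ => 1) (fun T => |((Qop w (id : V → V))^[t] g) T|)
  have e0 : ∑ T, |((glauber G lam β) ^ t) S T - gibbs G lam β T| =
      ip w (fun _ => 1) (fun T => |((Qop w (id : V → V))^[t] g) T|) := by
    unfold ip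
    exact Finset.sum_congr rfl fun T _ => hterm T
  have e1 : ip w (fun _ => 1) (fun _ => 1) = W := by
    unfold ip; simp [hW]
  have e2 : ip w (fun T => |((Qop w (id : V → V))^[t] g) T|)
      (fun T => |((Qop w (id : V → V))^[t] g) T|) =
      ip w ((Qop w (id : V → V))^[t] g) ((Qop w (id : V → V))^[t] g) := by
    unfold ip
    apply Finset.sum_congr rfl
    intro T _
    rw [mul_assoc, abs_mul_abs_self, mul_assoc]
  rw [e0]
  refine hcs.trans ?_
  rw [e1, e2]
  have h3 := (iter_contract hw γ hγ0 hγ1 hP g hmean t).2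
  have h4 : ((1 - γ) ^ 2) ^ t * ip w g g ≤ ((1 - γ) ^ 2) ^ t * (1 / w S) :=
    mul_le_mul_of_nonneg_left hgg (by positivity)
  calc _ ≤ W * (((1 - γ) ^ 2) ^ t * (1 / w S)) :=
        mul_le_mul_of_nonneg_left (h3.trans h4) hWpos.le
    _ = _ := by ring

/-- the ratio constant -/
noncomputable def rr (d : ℕ) (lam β : ℝ) : ℝ := 1 + lam + Real.exp (β * d) / lam

omit [DecidableEq I] [Fintype I] in
include hl hβ in
lemma rr_spec (d : ℕ) (hd : ∀ v, {u : V | G.Adj v u}.ncard ≤ d) (S : Finset V) (v : V) :
    weight G lam β (insert v S) ≤ rr d lam β * weight G lam β (S.erase v) ∧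
      weight G lam β (S.erase v) ≤ rr d lam β * weight G lam β (insert v S) := by
  rw [weight_insert_erase]
  have h0 := weight_pos G hl β (S.erase v)
  have hn : nbrsIn G v S ≤ d := by
    unfold nbrsIn
    exact (Set.ncard_le_ncard (fun u hu => hu.1) (Set.toFinite _)).trans (hd v)
  have hn' : (nbrsIn G v S : ℝ) ≤ d := by exact_mod_cast hn
  have h1 : Real.exp (-(β * nbrsIn G v S)) ≤ 1 := by
    rw [Real.exp_le_one_iff]
    have : 0 ≤ β * (nbrsIn G v S : ℝ) := by positivity
    linarith
  have h2 : Real.exp (-(β * d)) ≤ Real.exp (-(β * nbrsIn G v S)) := by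
    apply Real.exp_le_exp.2
    have := mul_le_mul_of_nonneg_left hn' hβ.le
    linarith
  have h3 : 0 < Real.exp (β * d) / lam := by positivity
  constructor
  · have : lam * Real.exp (-(β * nbrsIn G v S)) ≤ rr d lam β := by
      unfold rr
      have := mul_le_mul_of_nonneg_left h1 hl.le
      linarith
    rw [mul_comm (rr d lam β)]
    exact mul_le_mul_of_nonneg_left this h0.le
  · have h4 : 1 ≤ rr d lam β * (lam * Real.exp (-(β * nbrsIn G v S))) := by
      have h5 : Real.exp (β * d) / lam * (lam * Real.exp (-(β * d))) = 1 := by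
        rw [show Real.exp (β * d) / lam * (lam * Real.exp (-(β * d))) =
          Real.exp (β * d) * Real.exp (-(β * d)) by field_simp, ← Real.exp_add]
        simp
      rw [← h5]
      unfold rr
      apply mul_le_mul
      · linarith
      · exact mul_le_mul_of_nonneg_left h2 hl.le
      · positivity
      · positivity
    calc weight G lam β (S.erase v) = weight G lam β (S.erase v) * 1 := by ring
      _ ≤ weight G lam β (S.erase v) *
          (rr d lam β * (lam * Real.exp (-(β * nbrsIn G v S)))) :=
        mul_le_mul_of_nonneg_left h4 h0.le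
      _ = _ := by ring

/-- comparison constant -/
noncomputable def Cc (L d : ℕ) (lam β : ℝ) : ℝ :=
  (L + 1) * (4 * rr d lam β ^ 2 * (2 ^ L * rr d lam β ^ L))

/-- mixing time constant -/
noncomputable def Cmix (L d : ℕ) (lam β : ℝ) : ℝ :=
  Cc L d lam β * (Real.log (2 * rr d lam β) + 2) + 1

include hl hβ in
theorem mixing [Nonempty V] (b : V → I)
    (hPB : ∀ g : Finset V → ℝ, ∑ S, weight G lam β S * g S = 0 →
      ip (weight G lam β) g g ≤ 2 * ∑ i, ip (weight G lam β)
        (fun S => g S - Pr (weight G lam β) b i g S)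
        (fun S => g S - Pr (weight G lam β) b i g S))
    (L : ℕ) (hL : ∀ i, (univ.filter (fun v => b v = i)).card ≤ L)
    (d : ℕ) (hd : ∀ v, {u : V | G.Adj v u}.ncard ≤ d) :
    ∃ t : ℕ, (t : ℝ) ≤ Cmix L d lam β * (Fintype.card V : ℝ) ^ 2 ∧ MixedAt G lam β t := by
  classical
  set w := weight G lam β with hwdef
  have hw : ∀ S, 0 < w S := weight_pos G hl β
  set n : ℝ := (Fintype.card V : ℝ) with hn
  have hn1 : 1 ≤ n := by rw [hn]; exact_mod_cast Fintype.card_pos
  set r := rr d lam β with hr
  have hexp : 0 < Real.exp (β * d) / lam := by positivity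
  have hr1 : 1 ≤ r := by rw [hr, rr]; linarith
  have hrspec := rr_spec G hl hβ d hd
  have : Nonempty I := ⟨b (Classical.arbitrary V)⟩
  set C := Cc L d lam β with hC
  have hC1 : 1 ≤ C := by
    rw [hC, Cc, ← hr]
    have h1 : (1:ℝ) ≤ L + 1 := by
      have : (0:ℝ) ≤ L := Nat.cast_nonneg _
      linarith
    have h2 : (1:ℝ) ≤ 4 * r ^ 2 := by nlinarith
    have h3 : (1:ℝ) ≤ 2 ^ L * r ^ L := by
      have := one_le_pow₀ (n := L) (show (1:ℝ) ≤ 2 by norm_num)
      have := one_le_pow₀ (n := L) hr1
      nlinarith
    have h4 : (1:ℝ) ≤ 4 * r ^ 2 * (2 ^ L * r ^ L) := by nlinarith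
    nlinarith
  have hblock : ∀ (i : I) (f : Finset V → ℝ),
      ip w (fun S => f S - Pr w b i f S) (fun S => f S - Pr w b i f S) ≤
      C * ∑ v ∈ univ.filter (fun v => b v = i),
        ip w (fun S => f S - Pr w (id : V → V) v f S)
          (fun S => f S - Pr w (id : V → V) v f S) := by
    intro i f
    refine (block_le_site hw hr1 hrspec b i f).trans ?_
    apply mul_le_mul_of_nonneg_right _ (Finset.sum_nonneg fun v _ => ip_self_nonneg hw _)
    rw [hC, Cc, ← hr]
    have h1 : ((univ.filter (fun v => b v = i)).card : ℝ) ≤ L := by exact_mod_cast hL i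
    have h2 : (2:ℝ) ^ (univ.filter (fun v => b v = i)).card ≤ 2 ^ L :=
      pow_le_pow_right₀ (by norm_num) (hL i)
    have h3 : r ^ (univ.filter (fun v => b v = i)).card ≤ r ^ L :=
      pow_le_pow_right₀ hr1 (hL i)
    have hr0 : 0 < r := by linarith
    gcongr
    linarith
  have hP : ∀ g : Finset V → ℝ, ∑ S, w S * g S = 0 →
      ip w g (Qop w (id : V → V) g) ≤ (1 - 1 / (2 * C * n)) * ip w g g := by
    intro g hg
    have h1 := hPB g hg
    have h2 : ∑ i, ip w (fun S => g S - Pr w b i g S) (fun S => g S - Pr w b i g S) ≤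
        ∑ i, C * ∑ v ∈ univ.filter (fun v => b v = i),
        ip w (fun S => g S - Pr w (id : V → V) v g S)
          (fun S => g S - Pr w (id : V → V) v g S) := Finset.sum_le_sum fun i _ => hblock i g
    rw [← Finset.mul_sum] at h2
    have h3 : ∑ i, ∑ v ∈ univ.filter (fun v => b v = i),
        ip w (fun S => g S - Pr w (id : V → V) v g S)
          (fun S => g S - Pr w (id : V → V) v g S) =
        ∑ v, ip w (fun S => g S - Pr w (id : V → V) v g S)
          (fun S => g S - Pr w (id : V → V) v g S) :=
      Finset.sum_fiberwise univ b _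
    rw [h3] at h2
    have h4 : ∑ v, ip w (fun S => g S - Pr w (id : V → V) v g S)
          (fun S => g S - Pr w (id : V → V) v g S) =
        n * ip w g g - n * ip w g (Qop w (id : V → V) g) := by
      simp only [ip_residual hw]
      rw [Finset.sum_sub_distrib, Finset.sum_const, card_univ, nsmul_eq_mul, ← hn]
      congr 1
      have h5 : ∀ v, ip w g (Pr w (id : V → V) v g) = ip w (Pr w (id : V → V) v g) g :=
        fun v => ip_comm _ _
      simp only [h5]
      rw [← ip_sum_left, ip_comm g]
      unfold ip Qop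
      rw [Finset.mul_sum]
      apply Finset.sum_congr rfl
      intro S _
      rw [← hn]
      field_simp
    rw [h4] at h2
    have h5 : ip w g g ≤ 2 * C * n * (ip w g g - ip w g (Qop w (id : V → V) g)) := by
      calc ip w g g ≤ 2 * (C * (n * ip w g g - n * ip w g (Qop w (id : V → V) g))) := by
            linarith
        _ = _ := by ring
    have hpos : 0 < 2 * C * n := by positivity
    have h6 : ip w g g / (2 * C * n) ≤ ip w g g - ip w g (Qop w (id : V → V) g) := by
      rw [div_le_iff₀ hpos]; linarith
    have h7 : (1 - 1 / (2 * C * n)) * ip w g g = ip w g g - ip w g g / (2 * C * n) := by ring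
    rw [h7]; linarith
  set γ := 1 / (2 * C * n) with hγ
  have hpos : 0 < 2 * C * n := by positivity
  have hγ0 : 0 < γ := by positivity
  have hγ1 : γ < 1 := by
    rw [hγ, div_lt_one hpos]; nlinarith
  have hlog : 0 < Real.log (2 * r) := Real.log_pos (by linarith)
  set t : ℕ := ⌈C * n * (n * Real.log (2 * r) + 2)⌉₊ with ht
  refine ⟨t, ?_, ?_⟩
  · have h1 : (t : ℝ) < C * n * (n * Real.log (2 * r) + 2) + 1 := Nat.ceil_lt_add_one (by positivity)
    rw [Cmix, ← hC, ← hr]
    have h2 : C * n * (n * Real.log (2 * r) + 2) + 1 ≤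
        (C * (Real.log (2 * r) + 2) + 1) * n ^ 2 := by
      have h3 : n ≤ n ^ 2 := by nlinarith
      have h4 : (1:ℝ) ≤ n ^ 2 := by nlinarith
      have h5 : 2 * C * n ≤ 2 * C * n ^ 2 := mul_le_mul_of_nonneg_left h3 (by positivity)
      nlinarith
    linarith
  · intro S
    unfold tvDist
    have h1 := tv_le G hl (β := β) γ hγ0 hγ1 hP S t
    have h2 : (∑ T, weight G lam β T) / weight G lam β S ≤ (2 * r) ^ (Fintype.card V) := by
      rw [div_le_iff₀ (hw S)]
      have h3 : ∀ T ∈ (univ : Finset (Finset V)), weight G lam β T ≤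
          r ^ (Fintype.card V) * weight G lam β S := by
        intro T _
        have h := ratio_mixV hw hr1 hrspec univ S T
        have e : mixV univ S T = T := by ext v; simp [mixV]
        rw [e, card_univ] at h
        exact h
      refine (Finset.sum_le_sum h3).trans ?_
      rw [Finset.sum_const, card_univ, Fintype.card_finset, nsmul_eq_mul, mul_pow]
      push_cast
      exact le_of_eq (by ring)
    have h3 : ((1 - γ) ^ 2) ^ t ≤ Real.exp (-(2 * γ * t)) := by
      have h4 : 1 - γ ≤ Real.exp (-γ) := by
        have := Real.add_one_le_exp (-γ); linarith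
      have h5 : ((1 - γ) ^ 2) ^ t ≤ ((Real.exp (-γ)) ^ 2) ^ t := by
        apply pow_le_pow_left₀ (by positivity)
        apply pow_le_pow_left₀ (by linarith) h4
      refine h5.trans (le_of_eq ?_)
      rw [← pow_mul, ← Real.exp_nat_mul]
      congr 1
      push_cast; ring
    have h4 : (∑ T, |((glauber G lam β) ^ t) S T - gibbs G lam β T|) ^ 2 ≤ (1 / 2) ^ 2 := by
      refine h1.trans ?_
      have h5 : (2 * r) ^ (Fintype.card V) = Real.exp (n * Real.log (2 * r)) := by
        rw [hn, Real.exp_nat_mul, Real.exp_log (by linarith)]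
      have h6 : n * Real.log (2 * r) + 2 ≤ 2 * γ * t := by
        have h7 : C * n * (n * Real.log (2 * r) + 2) ≤ t := Nat.le_ceil _
        have h8 : 2 * γ * t = t / (C * n) := by rw [hγ]; field_simp
        rw [h8, le_div_iff₀ (by positivity)]
        linarith
      calc (∑ T, weight G lam β T) / weight G lam β S * ((1 - γ) ^ 2) ^ t
          ≤ (2 * r) ^ (Fintype.card V) * Real.exp (-(2 * γ * t)) := by
            apply mul_le_mul h2 h3 (by positivity) (by positivity)
        _ = Real.exp (n * Real.log (2 * r) + -(2 * γ * t)) := by rw [h5, ← Real.exp_add]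
        _ ≤ Real.exp (-2) := Real.exp_le_exp.2 (by linarith)
        _ ≤ (1 / 2) ^ 2 := by
            have h9 : (2:ℝ) ≤ Real.exp 1 := by
              have := Real.add_one_le_exp (1:ℝ); linarith
            have h10 : Real.exp (-2) = (Real.exp 1)⁻¹ ^ 2 := by
              rw [← Real.exp_neg, ← Real.exp_nat_mul]; norm_num
            rw [h10]
            apply pow_le_pow_left₀ (by positivity)
            rw [one_div]
            exact inv_anti₀ (by norm_num) h9
    have h5 := abs_le_of_sq_le_sq h4 (by norm_num)
    have h6 := (le_abs_self _).trans h5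
    linarith

end Mix

end H111R4
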