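import Mathlib
import Pool.Agent.H111R4.Tilt
import Pool.Agent.H111R4.Dob2

/-!
Single site influences of a block update.
-/

namespace H111R4

open Finset

section Tilt2

lemma tilt_abs {ι : Type} [Fintype ι] [Nonempty ι] (a a' : ι → ℝ) (ha : ∀ T, 0 < a T)
    (A : ι → Prop) [DecidablePred A] (κ s : ℝ) (hκ : 0 < κ) (hs0 : 0 ≤ s) (hs1 : s < 1)
    (ha' : ∀ T, a' T = κ * a T * (if A T then 1 - s else 1)) (T : ι) :
    |a T / ∑ T, a T - a' T / ∑ T, a' T| =
      a T * (if A T then s * ((∑ T, a T) - ∑ T ∈ univ.filter A, a T)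
        else s * ∑ T ∈ univ.filter A, a T) /
        ((∑ T, a T) * ((∑ T, a T) - s * ∑ T ∈ univ.filter A, a T)) := by
  set Z := ∑ T, a T with hZ
  set Z₁ := ∑ T ∈ univ.filter A, a T with hZ₁
  have hZpos : 0 < Z := Finset.sum_pos (fun T _ => ha T) univ_nonempty
  have hZ₁0 : 0 ≤ Z₁ := Finset.sum_nonneg fun T _ => (ha T).le
  have hZ₁Z : Z₁ ≤ Z := Finset.sum_le_sum_of_subset_of_nonneg (filter_subset _ _)
    (fun T _ _ => (ha T).le)
  have hZ' : ∑ T, a' T = κ * (Z - s * Z₁) := by
    have h1 : ∑ T, a' T = κ * ∑ T, a T * (if A T then 1 - s else 1) := by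
      rw [Finset.mul_sum]
      exact Finset.sum_congr rfl fun T _ => by rw [ha' T]; ring
    have h2 : ∑ T, a T * (if A T then 1 - s else 1) = Z - s * Z₁ := by
      rw [hZ, hZ₁, Finset.mul_sum, Finset.sum_filter, ← Finset.sum_sub_distrib]
      apply Finset.sum_congr rfl
      intro T _
      split_ifs <;> ring
    rw [h1, h2]
  have hden : 0 < Z - s * Z₁ := by nlinarith
  rw [hZ', ha' T]
  by_cases hA : A T
  · rw [if_pos hA, if_pos hA]
    have e : a T / Z - κ * a T * (1 - s) / (κ * (Z - s * Z₁)) =
        a T * (s * (Z - Z₁)) / (Z * (Z - s * Z₁)) := by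
      field_simp
      ring
    rw [e, abs_of_nonneg]
    apply div_nonneg _ (by positivity)
    exact mul_nonneg (ha T).le (mul_nonneg hs0 (by linarith))
  · rw [if_neg hA, if_neg hA]
    have e : a T / Z - κ * a T * 1 / (κ * (Z - s * Z₁)) =
        -(a T * (s * Z₁) / (Z * (Z - s * Z₁))) := by
      field_simp
      ring
    rw [e, abs_neg, abs_of_nonneg]
    apply div_nonneg _ (by positivity)
    exact mul_nonneg (ha T).le (mul_nonneg hs0 hZ₁0)

lemma tilt_same {ι : Type} [Fintype ι] [Nonempty ι] (a a' : ι → ℝ) (ha : ∀ T, 0 < a T)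
    (A : ι → Prop) [DecidablePred A] (κ s lam : ℝ) (hκ : 0 < κ) (hs0 : 0 ≤ s) (hs1 : s < 1)
    (ha' : ∀ T, a' T = κ * a T * (if A T then 1 - s else 1))
    (h1 : ∑ T ∈ univ.filter A, a T ≤ lam * ∑ T, a T) :
    ∑ T ∈ univ.filter A, |a T / ∑ T, a T - a' T / ∑ T, a' T| ≤ lam * s := by
  simp only [tilt_abs a a' ha A κ s hκ hs0 hs1 ha']
  set Z := ∑ T, a T with hZ
  set Z₁ := ∑ T ∈ univ.filter A, a T with hZ₁
  have hZpos : 0 < Z := Finset.sum_pos (fun T _ => ha T) univ_nonempty
  have hZ₁0 : 0 ≤ Z₁ := Finset.sum_nonneg fun T _ => (ha T).le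
  have hZ₁Z : Z₁ ≤ Z := Finset.sum_le_sum_of_subset_of_nonneg (filter_subset _ _)
    (fun T _ _ => (ha T).le)
  have hden : 0 < Z - s * Z₁ := by nlinarith
  have e : ∑ T ∈ univ.filter A, a T * (if A T then s * (Z - Z₁) else s * Z₁) /
      (Z * (Z - s * Z₁)) = Z₁ * (s * (Z - Z₁)) / (Z * (Z - s * Z₁)) := by
    have e1 : ∀ T ∈ univ.filter A, a T * (if A T then s * (Z - Z₁) else s * Z₁) /
        (Z * (Z - s * Z₁)) = a T * (s * (Z - Z₁) / (Z * (Z - s * Z₁))) := by
      intro T hT
      rw [if_pos (Finset.mem_filter.1 hT).2]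
      ring
    rw [Finset.sum_congr rfl e1, ← Finset.sum_mul, ← hZ₁]
    ring
  rw [e, div_le_iff₀ (by positivity)]
  have h2 : Z - Z₁ ≤ Z - s * Z₁ := by nlinarith
  calc Z₁ * (s * (Z - Z₁)) ≤ Z₁ * (s * (Z - s * Z₁)) :=
        mul_le_mul_of_nonneg_left (mul_le_mul_of_nonneg_left h2 hs0) hZ₁0
    _ ≤ (lam * Z) * (s * (Z - s * Z₁)) :=
        mul_le_mul_of_nonneg_right h1 (mul_nonneg hs0 hden.le)
    _ = _ := by ring

lemma tilt_other {ι : Type} [Fintype ι] [Nonempty ι] (a a' : ι → ℝ) (ha : ∀ T, 0 < a T)
    (A B : ι → Prop) [DecidablePred A] [DecidablePred B] (κ s lam : ℝ) (hκ : 0 < κ)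
    (hs0 : 0 ≤ s) (hs1 : s < 1) (hlam : 0 ≤ lam)
    (ha' : ∀ T, a' T = κ * a T * (if A T then 1 - s else 1))
    (h1 : ∑ T ∈ univ.filter A, a T ≤ lam * ∑ T, a T)
    (h2 : ∑ T ∈ univ.filter (fun T => B T ∧ A T), a T ≤ lam * ∑ T ∈ univ.filter A, a T)
    (h3 : ∑ T ∈ univ.filter (fun T => B T ∧ ¬ A T), a T ≤
      lam * ∑ T ∈ univ.filter (fun T => ¬ A T), a T) :
    ∑ T ∈ univ.filter B, |a T / ∑ T, a T - a' T / ∑ T, a' T| ≤ 2 * (lam * s) * lam := by
  simp only [tilt_abs a a' ha A κ s hκ hs0 hs1 ha']
  have hsplit : ∑ T ∈ univ.filter (fun T => ¬ A T), a T =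
      (∑ T, a T) - ∑ T ∈ univ.filter A, a T := by
    rw [← Finset.sum_filter_add_sum_filter_not univ A (fun T => a T)]; ring
  rw [hsplit] at h3
  set Z := ∑ T, a T with hZ
  set Z₁ := ∑ T ∈ univ.filter A, a T with hZ₁
  have hZpos : 0 < Z := Finset.sum_pos (fun T _ => ha T) univ_nonempty
  have hZ₁0 : 0 ≤ Z₁ := Finset.sum_nonneg fun T _ => (ha T).le
  have hZ₁Z : Z₁ ≤ Z := Finset.sum_le_sum_of_subset_of_nonneg (filter_subset _ _)
    (fun T _ _ => (ha T).le)
  have hden : 0 < Z - s * Z₁ := by nlinarith
  have e : ∑ T ∈ univ.filter B, a T * (if A T then s * (Z - Z₁) else s * Z₁) /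
      (Z * (Z - s * Z₁)) =
      ((∑ T ∈ univ.filter (fun T => B T ∧ A T), a T) * (s * (Z - Z₁)) +
        (∑ T ∈ univ.filter (fun T => B T ∧ ¬ A T), a T) * (s * Z₁)) / (Z * (Z - s * Z₁)) := by
    rw [← Finset.sum_div]
    congr 1
    rw [← Finset.sum_filter_add_sum_filter_not (univ.filter B) A, Finset.filter_filter,
      Finset.filter_filter, Finset.sum_mul, Finset.sum_mul]
    congr 1
    · apply Finset.sum_congr rfl
      intro T hT
      rw [if_pos (Finset.mem_filter.1 hT).2.2]
    · apply Finset.sum_congr rfl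
      intro T hT
      rw [if_neg (Finset.mem_filter.1 hT).2.2]
  rw [e, div_le_iff₀ (by positivity)]
  have h4 : Z - Z₁ ≤ Z - s * Z₁ := by nlinarith
  have h5 : 0 ≤ Z - Z₁ := by linarith
  calc (∑ T ∈ univ.filter (fun T => B T ∧ A T), a T) * (s * (Z - Z₁)) +
        (∑ T ∈ univ.filter (fun T => B T ∧ ¬ A T), a T) * (s * Z₁)
      ≤ (lam * Z₁) * (s * (Z - Z₁)) + (lam * (Z - Z₁)) * (s * Z₁) :=
        add_le_add (mul_le_mul_of_nonneg_right h2 (mul_nonneg hs0 h5))
          (mul_le_mul_of_nonneg_right h3 (mul_nonneg hs0 hZ₁0))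
    _ = (2 * lam * s) * (Z₁ * (Z - Z₁)) := by ring
    _ ≤ (2 * lam * s) * ((lam * Z) * (Z - s * Z₁)) := by
        apply mul_le_mul_of_nonneg_left _ (by positivity)
        exact mul_le_mul h1 h4 h5 (by positivity)
    _ = _ := by ring

variable {V I : Type} [Fintype V] [DecidableEq V] [DecidableEq I]
variable (G : SimpleGraph V) {lam β : ℝ} (hl : 0 < lam) (hβ : 0 < β)

include hl hβ in
lemma domin (b : V → I) (i : I) (v : V) (hv : b v = i) (X : Finset V)
    (C : Finset V → Prop) [DecidablePred C] (hC : ∀ T, v ∉ T → (C (insert v T) ↔ C T)) :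
    ∑ T ∈ univ.filter (fun T : Finset V => v ∈ T ∧ C T), weight G lam β (mix b i X T) ≤
      lam * ∑ T ∈ univ.filter C, weight G lam β (mix b i X T) := by
  have h1 : (∑ T ∈ univ.filter (fun T : Finset V => v ∈ T ∧ C T), weight G lam β (mix b i X T)) =
      ∑ T ∈ univ.filter (fun T : Finset V => v ∉ T ∧ C T),
        weight G lam β (mix b i X (insert v T)) := by
    refine Finset.sum_nbij' (fun T => T.erase v) (fun T => insert v T) ?_ ?_ ?_ ?_ ?_
    · intro T hT
      simp only [Finset.mem_filter, mem_univ, true_and] at hT ⊢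
      refine ⟨Finset.notMem_erase v T, ?_⟩
      rw [← hC _ (Finset.notMem_erase v T), Finset.insert_erase hT.1]
      exact hT.2
    · intro T hT
      simp only [Finset.mem_filter, mem_univ, true_and] at hT ⊢
      exact ⟨Finset.mem_insert_self _ _, (hC T hT.1).2 hT.2⟩
    · intro T hT
      simp only [Finset.mem_filter, mem_univ, true_and] at hT
      exact Finset.insert_erase hT.1
    · intro T hT
      simp only [Finset.mem_filter, mem_univ, true_and] at hT
      exact Finset.erase_insert hT.1
    · intro T hT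
      simp only [Finset.mem_filter, mem_univ, true_and] at hT
      rw [Finset.insert_erase hT.1]
  rw [h1]
  have h2 : ∀ T ∈ univ.filter (fun T : Finset V => v ∉ T ∧ C T),
      weight G lam β (mix b i X (insert v T)) ≤ lam * weight G lam β (mix b i X T) := by
    intro T hT
    simp only [Finset.mem_filter, mem_univ, true_and] at hT
    have e : mix b i X (insert v T) = insert v (mix b i X T) := by
      ext x
      simp only [mem_mix, Finset.mem_insert]
      by_cases hx : x = v
      · subst hx; simp [hv]
      · simp [hx]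
    have hvmix : v ∉ mix b i X T := by simp [hv, hT.1]
    rw [e, weight_insert G lam β hvmix]
    have h3 : Real.exp (-(β * nbrsIn G v (mix b i X T))) ≤ 1 := by
      rw [Real.exp_le_one_iff]
      have : 0 ≤ β * (nbrsIn G v (mix b i X T) : ℝ) := by positivity
      linarith
    have h4 : 0 < weight G lam β (mix b i X T) := weight_pos G hl β _
    have h5 : lam * Real.exp (-(β * nbrsIn G v (mix b i X T))) ≤ lam * 1 :=
      mul_le_mul_of_nonneg_left h3 hl.le
    nlinarith
  refine (Finset.sum_le_sum h2).trans ?_
  rw [← Finset.mul_sum]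
  apply mul_le_mul_of_nonneg_left _ hl.le
  apply Finset.sum_le_sum_of_subset_of_nonneg
  · intro T hT
    simp only [Finset.mem_filter, mem_univ, true_and] at hT ⊢
    exact hT.2
  · intro T _ _; exact (weight_pos G hl β _).le

open Classical in
/-- influence coefficients -/
noncomputable def cc (G : SimpleGraph V) (b : V → I) (lam β : ℝ) (u v : V) : ℝ :=
  if HasNbr G b (b v) u then
    (if G.Adj u v then lam * (1 - Real.exp (-β)) else 2 * (lam * (1 - Real.exp (-β))) * lam)
  else 0

include hl hβ in
omit [Fintype V] [DecidableEq V] [DecidableEq I] in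
lemma cc_nonneg (b : V → I) (u v : V) : 0 ≤ cc G b lam β u v := by
  have h2 : 0 ≤ 1 - Real.exp (-β) := by
    have : Real.exp (-β) ≤ 1 := Real.exp_le_one_iff.2 (by linarith)
    linarith
  unfold cc
  split_ifs <;> positivity

include hl hβ in
/-- the change of the conditional law of block `i` caused by the site `u` -/
lemma law_change (b : V → I) (i : I) (u : V) (hu : b u ≠ i)
    (huniq : ∀ v v', G.Adj u v → b v = i → G.Adj u v' → b v' = i → v = v') (S : Finset V)
    (v : V) (hv : b v = i) :
    ∑ T ∈ univ.filter (fun T : Finset V => v ∈ T),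
      |weight G lam β (mix b i (S.erase u) T) / Zc (weight G lam β) b i (S.erase u) -
        weight G lam β (mix b i (insert u S) T) / Zc (weight G lam β) b i (insert u S)| ≤
      cc G b lam β u v := by
  classical
  set w := weight G lam β with hwdef
  have hw : ∀ S, 0 < w S := weight_pos G hl β
  set X := S.erase u with hX
  have huX : u ∉ X := by simp [hX]
  have hY : insert u S = insert u X := by ext v; simp [hX]; tauto
  have hmixY : ∀ T, mix b i (insert u S) T = insert u (mix b i X T) := by
    intro T
    rw [hY]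
    ext v
    simp only [mem_mix, Finset.mem_insert]
    by_cases hv : v = u
    · subst hv; simp [hu]
    · simp [hv]
  have humix : ∀ T, u ∉ mix b i X T := by
    intro T; simp [hu, huX]
  have hwY : ∀ T, w (mix b i (insert u S) T) =
      w (mix b i X T) * (lam * Real.exp (-(β * nbrsIn G u (mix b i X T)))) := by
    intro T
    rw [hmixY, hwdef, weight_insert G lam β (humix T)]
  set c0 := nbrsIn G u (X.filter (fun v => b v ≠ i)) with hc0
  by_cases hN : HasNbr G b i u
  · obtain ⟨v₀, hv₀, hbv₀⟩ := hN
    have hnb : ∀ T, nbrsIn G u (mix b i X T) = c0 + (if v₀ ∈ T then 1 else 0) := by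
      intro T
      by_cases hT : v₀ ∈ T
      · rw [if_pos hT]
        have e : {x : V | G.Adj u x ∧ x ∈ mix b i X T} =
            insert v₀ {x : V | G.Adj u x ∧ x ∈ X.filter (fun v => b v ≠ i)} := by
          ext x
          simp only [Set.mem_setOf_eq, mem_mix, Set.mem_insert_iff, Finset.mem_filter]
          constructor
          · rintro ⟨h1, h2⟩
            by_cases hx : b x = i
            · left; exact huniq x v₀ h1 hx hv₀ hbv₀
            · rw [if_neg hx] at h2; right; exact ⟨h1, h2, hx⟩
          · rintro (rfl | ⟨h1, h2, h3⟩)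
            · exact ⟨hv₀, by rw [if_pos hbv₀]; exact hT⟩
            · exact ⟨h1, by rw [if_neg h3]; exact h2⟩
        unfold nbrsIn at hc0 ⊢
        rw [e, Set.ncard_insert_of_notMem _ (Set.toFinite _), hc0]
        simp [hbv₀]
      · rw [if_neg hT]
        have e : {x : V | G.Adj u x ∧ x ∈ mix b i X T} =
            {x : V | G.Adj u x ∧ x ∈ X.filter (fun v => b v ≠ i)} := by
          ext x
          simp only [Set.mem_setOf_eq, mem_mix, Finset.mem_filter]
          constructor
          · rintro ⟨h1, h2⟩
            by_cases hx : b x = i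
            · rw [if_pos hx] at h2
              exact absurd (huniq x v₀ h1 hx hv₀ hbv₀ ▸ h2) hT
            · rw [if_neg hx] at h2; exact ⟨h1, h2, hx⟩
          · rintro ⟨h1, h2, h3⟩
            exact ⟨h1, by rw [if_neg h3]; exact h2⟩
        unfold nbrsIn at hc0 ⊢
        rw [e, hc0]; rfl
    have hs1 : 1 - Real.exp (-β) < 1 := by linarith [Real.exp_pos (-β)]
    have hs0 : 0 ≤ 1 - Real.exp (-β) := by
      have : Real.exp (-β) ≤ 1 := Real.exp_le_one_iff.2 (by linarith)
      linarith
    have hform : ∀ T : Finset V, w (mix b i (insert u S) T) =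
        (lam * Real.exp (-(β * c0))) * w (mix b i X T) *
          (if v₀ ∈ T then 1 - (1 - Real.exp (-β)) else 1) := by
      intro T
      rw [hwY, hnb]
      by_cases hT : v₀ ∈ T
      · simp only [if_pos hT]
        push_cast
        rw [show -(β * ((c0 : ℝ) + 1)) = -(β * c0) + -β by ring, Real.exp_add]
        ring
      · simp only [if_neg hT]
        push_cast
        rw [add_zero]; ring
    have hq : ∑ T ∈ univ.filter (fun T : Finset V => v₀ ∈ T), w (mix b i X T) ≤
        lam * ∑ T, w (mix b i X T) := by
      have h := domin G hl hβ b i v₀ hbv₀ X (fun _ => True) (fun _ _ => Iff.rfl)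
      simpa using h
    have hHas : HasNbr G b (b v) u := ⟨v₀, hv₀, hbv₀.trans hv.symm⟩
    unfold cc
    rw [if_pos hHas]
    by_cases hadj : G.Adj u v
    · have hvv : v = v₀ := huniq v v₀ hadj hv hv₀ hbv₀
      rw [if_pos hadj]
      subst hvv
      exact tilt_same (fun T => w (mix b i X T)) (fun T => w (mix b i (insert u S) T))
        (fun T => hw _) (fun T : Finset V => v ∈ T) (lam * Real.exp (-(β * c0)))
        (1 - Real.exp (-β)) lam (by positivity) hs0 hs1 hform hq
    · have hvv : v ≠ v₀ := by rintro rfl; exact hadj hv₀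
      rw [if_neg hadj]
      refine tilt_other (fun T => w (mix b i X T)) (fun T => w (mix b i (insert u S) T))
        (fun T => hw _) (fun T : Finset V => v₀ ∈ T) (fun T : Finset V => v ∈ T)
        (lam * Real.exp (-(β * c0)))
        (1 - Real.exp (-β)) lam (by positivity) hs0 hs1 hl.le hform hq ?_ ?_
      · exact domin G hl hβ b i v hv X (fun T => v₀ ∈ T) (fun T _ => by
          simp [Finset.mem_insert, hvv.symm])
      · exact domin G hl hβ b i v hv X (fun T => ¬ v₀ ∈ T) (fun T _ => by
          simp [Finset.mem_insert, hvv.symm])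
  · have hnb : ∀ T, nbrsIn G u (mix b i X T) = c0 := by
      intro T
      have e : {x : V | G.Adj u x ∧ x ∈ mix b i X T} =
          {x : V | G.Adj u x ∧ x ∈ X.filter (fun v => b v ≠ i)} := by
        ext x
        simp only [Set.mem_setOf_eq, mem_mix, Finset.mem_filter]
        constructor
        · rintro ⟨h1, h2⟩
          by_cases hx : b x = i
          · exact absurd ⟨x, h1, hx⟩ hN
          · rw [if_neg hx] at h2; exact ⟨h1, h2, hx⟩
        · rintro ⟨h1, h2, h3⟩
          exact ⟨h1, by rw [if_neg h3]; exact h2⟩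
      unfold nbrsIn at hc0 ⊢
      rw [e, hc0]
    have hZ : Zc w b i (insert u S) = (lam * Real.exp (-(β * c0))) * Zc w b i X := by
      unfold Zc
      rw [Finset.mul_sum]
      apply Finset.sum_congr rfl
      intro T _
      rw [hwY, hnb]; ring
    refine le_trans (le_of_eq ?_) (cc_nonneg G hl hβ b u v)
    apply Finset.sum_eq_zero
    intro T _
    rw [hZ, hwY, hnb]
    have h1 := Zc_pos hw b i X
    have h2 : 0 < lam * Real.exp (-(β * c0)) := by positivity
    rw [abs_eq_zero, sub_eq_zero]
    field_simp

include hl hβ in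
/-- the effect of a block update on the single site oscillations -/
lemma osc_site_Pr (b : V → I) (i : I) (u : V) (hu : b u ≠ i)
    (huniq : ∀ v v', G.Adj u v → b v = i → G.Adj u v' → b v' = i → v = v')
    (f : Finset V → ℝ) :
    osc (id : V → V) u (Pr (weight G lam β) b i f) ≤ osc (id : V → V) u f +
      ∑ v ∈ univ.filter (fun v => b v = i), cc G b lam β u v * osc (id : V → V) v f := by
  classical
  set w := weight G lam β with hwdef
  have hw : ∀ S, 0 < w S := weight_pos G hl β
  set RHS := osc (id : V → V) u f +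
      ∑ v ∈ univ.filter (fun v => b v = i), cc G b lam β u v * osc (id : V → V) v f with hRHS
  have hRHS0 : 0 ≤ RHS := by
    apply add_nonneg (osc_nonneg _ _ _)
    exact Finset.sum_nonneg fun v _ => mul_nonneg (cc_nonneg G hl hβ b u v) (osc_nonneg _ _ _)
  have main : ∀ S : Finset V, |Pr w b i f (S.erase u) - Pr w b i f (insert u S)| ≤ RHS := by
    intro S
    set X := S.erase u with hX
    set Y := insert u S with hY
    have huX : u ∉ X := by simp [hX]
    have hmixY : ∀ T, mix b i Y T = insert u (mix b i X T) := by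
      intro T
      ext v
      simp only [mem_mix, Finset.mem_insert, hX, hY, Finset.mem_erase]
      by_cases hv : v = u
      · subst hv; simp [hu]
      · simp [hv]
    have e : Pr w b i f X - Pr w b i f Y =
        ∑ T, (w (mix b i X T) / Zc w b i X) * (f (mix b i X T) - f (mix b i Y T)) +
        ∑ T, (w (mix b i X T) / Zc w b i X - w (mix b i Y T) / Zc w b i Y) *
          (f (mix b i Y T) - f (mix b i Y ∅)) := by
      have h1 : ∑ T, (w (mix b i X T) / Zc w b i X - w (mix b i Y T) / Zc w b i Y) *
          f (mix b i Y ∅) = 0 := by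
        rw [← Finset.sum_mul, Finset.sum_sub_distrib, sum_nu hw, sum_nu hw]; ring
      rw [Pr_eq_sum hw, Pr_eq_sum hw]
      have h2 : ∑ T, (w (mix b i X T) / Zc w b i X - w (mix b i Y T) / Zc w b i Y) *
          (f (mix b i Y T) - f (mix b i Y ∅)) = ∑ T, (w (mix b i X T) / Zc w b i X -
            w (mix b i Y T) / Zc w b i Y) * f (mix b i Y T) := by
        rw [← sub_zero (∑ T, (w (mix b i X T) / Zc w b i X -
            w (mix b i Y T) / Zc w b i Y) * f (mix b i Y T)), ← h1, ← Finset.sum_sub_distrib]
        exact Finset.sum_congr rfl fun T _ => by ring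
      rw [h2, ← Finset.sum_add_distrib, ← Finset.sum_sub_distrib]
      exact Finset.sum_congr rfl fun T _ => by ring
    rw [e]
    refine (abs_add_le _ _).trans (add_le_add ?_ ?_)
    · refine (Finset.abs_sum_le_sum_abs _ _).trans ?_
      have h3 : ∀ T ∈ (univ : Finset (Finset V)),
          |w (mix b i X T) / Zc w b i X * (f (mix b i X T) - f (mix b i Y T))| ≤
          w (mix b i X T) / Zc w b i X * osc (id : V → V) u f := by
        intro T _
        rw [abs_mul, abs_of_pos (div_pos (hw _) (Zc_pos hw b i X))]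
        apply mul_le_mul_of_nonneg_left _ (div_pos (hw _) (Zc_pos hw b i X)).le
        rw [hmixY]
        have h4 := le_osc (id : V → V) u f (mix b i X T) univ
        have e2 : mix (id : V → V) u (mix b i X T) univ = insert u (mix b i X T) := by
          ext x
          simp only [mem_mix, id, Finset.mem_insert, mem_univ]
          by_cases hx : x = u <;> simp [hx]
        rw [e2] at h4
        exact h4
      refine (Finset.sum_le_sum h3).trans ?_
      rw [← Finset.sum_mul, sum_nu hw, one_mul]
    · refine (Finset.abs_sum_le_sum_abs _ _).trans ?_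
      have h3 : ∀ T ∈ (univ : Finset (Finset V)),
          |(w (mix b i X T) / Zc w b i X - w (mix b i Y T) / Zc w b i Y) *
            (f (mix b i Y T) - f (mix b i Y ∅))| ≤
          ∑ v ∈ univ.filter (fun v => b v = i), (if v ∈ T then
            |w (mix b i X T) / Zc w b i X - w (mix b i Y T) / Zc w b i Y| else 0) *
            osc (id : V → V) v f := by
        intro T _
        rw [abs_mul]
        have h4 := abs_sub_mixJ_le (id : V → V) f (mix b i Y T) ∅
          ((univ.filter (fun v => b v = i)).filter (fun v => v ∈ T))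
        have e2 : mixJ (id : V → V) ((univ.filter (fun v => b v = i)).filter (fun v => v ∈ T))
            (mix b i Y T) ∅ = mix b i Y ∅ := by
          ext x
          simp only [mixJ, mem_mix, id, Finset.mem_filter, mem_univ, true_and,
            Finset.notMem_empty]
          by_cases hx : b x = i
          · simp [hx]
          · simp [hx]
        rw [e2, Finset.sum_filter] at h4
        have h5 := mul_le_mul_of_nonneg_left h4
          (abs_nonneg (w (mix b i X T) / Zc w b i X - w (mix b i Y T) / Zc w b i Y))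
        refine h5.trans (le_of_eq ?_)
        rw [Finset.mul_sum]
        apply Finset.sum_congr rfl
        intro v _
        split_ifs <;> ring
      refine (Finset.sum_le_sum h3).trans ?_
      rw [Finset.sum_comm]
      apply Finset.sum_le_sum
      intro v hv
      rw [← Finset.sum_mul, ← Finset.sum_filter]
      apply mul_le_mul_of_nonneg_right _ (osc_nonneg _ _ _)
      have hvi : b v = i := (Finset.mem_filter.1 hv).2
      exact law_change G hl hβ b i u hu huniq S v hvi
  apply osc_le
  intro S T
  by_cases hT : u ∈ T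
  · have e : mix (id : V → V) u S T = insert u S := by
      ext x
      simp only [mem_mix, id, Finset.mem_insert]
      by_cases hx : x = u
      · subst hx; simp [hT]
      · simp [hx]
    rw [e]
    by_cases hS : u ∈ S
    · rw [Finset.insert_eq_of_mem hS]; simpa using hRHS0
    · have := main S
      rw [Finset.erase_eq_of_notMem hS] at this
      exact this
  · have e : mix (id : V → V) u S T = S.erase u := by
      ext x
      simp only [mem_mix, id, Finset.mem_erase]
      by_cases hx : x = u
      · subst hx; simp [hT]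
      · simp [hx]
    rw [e]
    by_cases hS : u ∈ S
    · have := main S
      rw [Finset.insert_eq_of_mem hS, abs_sub_comm] at this
      exact this
    · rw [Finset.erase_eq_of_notMem hS]; simpa using hRHS0

/-- vertices with a neighbour outside their block -/
def Port (G : SimpleGraph V) (b : V → I) (u : V) : Prop := ∃ v, G.Adj u v ∧ b v ≠ b u

include hl hβ in
theorem poincare_ports [Fintype I] [Nonempty I] (b : V → I)
    (huniq : ∀ u v v', G.Adj u v → b v ≠ b u → G.Adj u v' → b v' ≠ b u → v = v')
    (K L : ℕ) (hL0 : 1 ≤ L) (hK : ∀ i, {u : V | b u = i ∧ Port G b u}.ncard ≤ K)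
    (hL : ∀ i, (univ.filter (fun v => b v = i)).card ≤ L)
    (hα : lam * (1 - Real.exp (-β)) + 2 * (lam * (1 - Real.exp (-β))) * lam * (K + 1) ≤ 1 / 2)
    (g : Finset V → ℝ) (hg : ∑ S, weight G lam β S * g S = 0) :
    ip (weight G lam β) g g ≤ 2 * ∑ i, ip (weight G lam β)
      (fun S => g S - Pr (weight G lam β) b i g S)
      (fun S => g S - Pr (weight G lam β) b i g S) := by
  classical
  have hL0' : (0:ℝ) < L := by exact_mod_cast hL0
  have hs0 : 0 ≤ 1 - Real.exp (-β) := by
    have : Real.exp (-β) ≤ 1 := Real.exp_le_one_iff.2 (by linarith)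
    linarith
  set α := lam * (1 - Real.exp (-β)) with hαdef
  have hα0 : 0 ≤ α := by positivity
  set a : V → ℝ := fun v => if Port G b v then 1 else 1 / L with ha
  have ha0 : ∀ v, 0 < a v := by
    intro v; rw [ha]; simp only; split_ifs
    · norm_num
    · positivity
  have hasum : ∀ i, ∑ v ∈ univ.filter (fun v => b v = i), a v ≤ K + 1 := by
    intro i
    have h1 : ∀ v ∈ univ.filter (fun v => b v = i), a v ≤ (if Port G b v then 1 else 0) + 1 / L := by
      intro v _
      rw [ha]; simp only
      split_ifs
      · have : (0:ℝ) ≤ 1 / L := by positivity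
        linarith
      · linarith
    refine (Finset.sum_le_sum h1).trans ?_
    rw [Finset.sum_add_distrib, Finset.sum_const, nsmul_eq_mul]
    apply add_le_add
    · rw [← Finset.sum_filter, Finset.sum_const, nsmul_eq_mul, mul_one, Finset.filter_filter]
      have h2 := hK i
      rw [Set.ncard_eq_toFinset_card'] at h2
      have h3 : (univ.filter (fun v => b v = i ∧ Port G b v)) =
          {u : V | b u = i ∧ Port G b u}.toFinset := by
        ext x; simp
      rw [h3]
      exact_mod_cast h2
    · rw [mul_one_div, div_le_one hL0']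
      exact_mod_cast hL i
  refine block_poincare_lip (weight_pos G hl β) b (cc G b lam β) a ha0
    (cc_nonneg G hl hβ b) ?_ ?_ g hg
  · intro i u f hu
    exact osc_site_Pr G hl hβ b i u hu
      (fun v v' h1 h2 h3 h4 => huniq u v v' h1 (by rw [h2]; exact hu.symm) h3
        (by rw [h4]; exact hu.symm)) f
  · intro u
    by_cases hp : Port G b u
    · obtain ⟨w₀, hw₀, hbw₀⟩ := hp
      have hau : a u = 1 := by rw [ha]; simp only; rw [if_pos ⟨w₀, hw₀, hbw₀⟩]
      have haw : a w₀ = 1 := by
        rw [ha]; simp only; rw [if_pos ⟨u, hw₀.symm, hbw₀.symm⟩]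
      rw [hau]
      have h1 : ∀ v ∈ univ.filter (fun v => b v ≠ b u), cc G b lam β u v * a v ≤
          (if v = w₀ then α else 0) + (if b v = b w₀ then 2 * α * lam * a v else 0) := by
        intro v hv
        have hvu : b v ≠ b u := (Finset.mem_filter.1 hv).2
        have hpos2 : 0 ≤ (if b v = b w₀ then 2 * α * lam * a v else 0) := by
          split_ifs
          · have := ha0 v; positivity
          · exact le_rfl
        unfold cc
        by_cases hN : HasNbr G b (b v) u
        · rw [if_pos hN]
          obtain ⟨x, hx, hbx⟩ := hN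
          have hxw : x = w₀ := huniq u x w₀ hx (by rw [hbx]; exact hvu) hw₀ hbw₀
          have hbv : b v = b w₀ := by rw [← hxw, hbx]
          by_cases hadj : G.Adj u v
          · have hvw : v = w₀ := huniq u v w₀ hadj hvu hw₀ hbw₀
            rw [if_pos hadj, if_pos hvw, hvw, haw, mul_one]
            have : 0 ≤ (if b w₀ = b w₀ then 2 * α * lam * 1 else 0) := by
              rw [if_pos rfl]; positivity
            linarith
          · have hvw : v ≠ w₀ := by rintro rfl; exact hadj hw₀
            rw [if_neg hadj, if_neg hvw, if_pos hbv, zero_add]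
        · rw [if_neg hN, zero_mul]
          have : 0 ≤ (if v = w₀ then α else 0) := by split_ifs <;> linarith
          linarith
      refine (Finset.sum_le_sum h1).trans ?_
      rw [Finset.sum_add_distrib]
      have h2 : ∑ v ∈ univ.filter (fun v => b v ≠ b u), (if v = w₀ then α else 0) ≤ α := by
        rw [Finset.sum_ite_eq']
        split_ifs <;> linarith
      have h3 : ∑ v ∈ univ.filter (fun v => b v ≠ b u),
          (if b v = b w₀ then 2 * α * lam * a v else 0) ≤
          2 * α * lam * (K + 1) := by
        rw [← Finset.sum_filter]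
        have h4 : ∑ v ∈ (univ.filter (fun v => b v ≠ b u)).filter (fun v => b v = b w₀),
            2 * α * lam * a v ≤ ∑ v ∈ univ.filter (fun v => b v = b w₀), 2 * α * lam * a v := by
          apply Finset.sum_le_sum_of_subset_of_nonneg
          · intro v hv
            simp only [Finset.mem_filter, mem_univ, true_and] at hv ⊢
            exact hv.2
          · intro v _ _
            have := ha0 v; positivity
        refine h4.trans ?_
        rw [← Finset.mul_sum]
        exact mul_le_mul_of_nonneg_left (hasum _) (by positivity)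
      linarith
    · have h1 : ∀ v ∈ univ.filter (fun v => b v ≠ b u), cc G b lam β u v * a v = 0 := by
        intro v hv
        have hvu : b v ≠ b u := (Finset.mem_filter.1 hv).2
        unfold cc
        rw [if_neg, zero_mul]
        rintro ⟨x, hx, hbx⟩
        exact hp ⟨x, hx, by rw [hbx]; exact hvu⟩
      rw [Finset.sum_eq_zero h1]
      have := ha0 u
      linarith

end Tilt2

end H111R4
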