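import Mathlib
import Pool.Agent.H111R4.Exp
import Pool.Agent.H111R4.Def
import Pool.Agent.H111R4.Tilt2

/-!
The lifted graph: class membership and block structure.
-/

namespace H111R4

open Finset

section Lift

variable {A B I T : Type} [Fintype A] [Fintype B] [Fintype I] [Fintype T]

/-- the bipartite graph of a relation -/
def LG {U W : Type} (L : U → W → Prop) : SimpleGraph (U ⊕ W) where
  Adj x y := match x, y with
    | Sum.inl a, Sum.inr b => L a b
    | Sum.inr b, Sum.inl a => L a b
    | Sum.inl _, Sum.inl _ => False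
    | Sum.inr _, Sum.inr _ => False
  symm := ⟨by rintro (a | b) (c | d) h <;> exact h⟩
  loopless := ⟨by rintro (a | b) h <;> exact h⟩

lemma Lr_transpose (R : A → B → Prop) (τ : A → B → Equiv.Perm I) (x : A × I) (y : B × I) :
    Lr (fun b a => R a b) (fun b a => (τ a b).symm) y x ↔ Lr R τ x y := by
  unfold Lr
  simp only
  rw [Equiv.symm_apply_eq, eq_comm]

/-- the data of the construction -/
structure Dat (q k' m : ℕ) (R : A → B → Prop) (u : T → A) (v : T → B)
    (σ : T → Equiv.Perm I) (τ : A → B → Equiv.Perm I) : Prop where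
  hq : 19 ≤ q
  hk : 16 * k' ≤ (q + 1) ^ 2
  hA : Fintype.card A = (q + 1) ^ 2
  hB : Fintype.card B = (q + 1) ^ 2
  hI : Fintype.card I = m
  hT : Fintype.card T = 16 * k'
  hdA : ∀ a, {b | R a b}.ncard = q + 1
  hdB : ∀ b, {a | R a b}.ncard = q + 1
  hC4 : ∀ a a' b b', R a b → R a' b → R a b' → R a' b' → a = a' ∨ b = b'
  hu : Function.Injective u
  hv : Function.Injective v
  huv : ∀ t, R (u t) (v t)
  hτ1 : ∀ t, τ (u t) (v t) = σ t
  hτ0 : ∀ a b, (¬ ∃ t, u t = a ∧ v t = b) → τ a b = 1
  hσ : ∀ F : Finset I, 5 * F.card ≤ 4 * m → k' * F.card ≤ 2 * ∑ t, (by classical exact leave F (σ t))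

variable {q k' m : ℕ} {R : A → B → Prop} {u : T → A} {v : T → B}
    {σ : T → Equiv.Perm I} {τ : A → B → Equiv.Perm I}

lemma Dat.transpose (D : Dat q k' m R u v σ τ) :
    Dat q k' m (fun b a => R a b) v u (fun t => (σ t).symm) (fun b a => (τ a b).symm) where
  hq := D.hq
  hk := D.hk
  hA := D.hB
  hB := D.hA
  hI := D.hI
  hT := D.hT
  hdA := D.hdB
  hdB := D.hdA
  hC4 := fun b b' a a' h1 h2 h3 h4 => (D.hC4 a a' b b' h1 h3 h2 h4).symm
  hu := D.hv
  hv := D.hu
  huv := D.huv
  hτ1 := fun t => by rw [D.hτ1]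
  hτ0 := fun b a h => by
    rw [D.hτ0 a b (fun ⟨t, h1, h2⟩ => h ⟨t, h2, h1⟩)]; rfl
  hσ := fun F hF => by
    classical
    have := D.hσ F hF
    simp only [leave_symm]
    exact this

open Classical in
lemma Dat.expand (D : Dat q k' m R u v σ τ) (X : Finset (A × I))
    (hX : 4 * X.card ≤ 3 * ((q + 1) ^ 2 * m)) :
    (1 + (k' : ℝ) / (1024 * ((q : ℝ) + 1) ^ 2)) * X.card ≤
      ({y : B × I | ∃ x ∈ X, Lr R τ x y}.ncard : ℝ) := by
  have h := H111R4.expand q k' m D.hq D.hk D.hA D.hB D.hI D.hT R
    (fun a => by rw [← D.hdA a, Set.ncard_eq_toFinset_card']; congr 1; ext; simp)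
    (fun b => by rw [← D.hdB b, Set.ncard_eq_toFinset_card']; congr 1; ext; simp)
    (fun a a' haa' => by
      rw [Finset.card_le_one]
      intro b hb b' hb'
      simp only [Finset.mem_filter, mem_univ, true_and] at hb hb'
      rcases D.hC4 a a' b b' hb.1 hb.2 hb'.1 hb'.2 with h | h
      · exact absurd h haa'
      · exact h)
    (fun b b' hbb' => by
      rw [Finset.card_le_one]
      intro a ha a' ha'
      simp only [Finset.mem_filter, mem_univ, true_and] at ha ha'
      rcases D.hC4 a a' b b' ha.1 ha'.1 ha.2 ha'.2 with h | h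
      · exact h
      · exact absurd h hbb')
    u v D.hu D.hv D.huv σ τ D.hτ1 D.hτ0 (fun F hF => D.hσ F hF) X hX
  refine h.trans (le_of_eq ?_)
  congr 1
  rw [Set.ncard_eq_toFinset_card']
  congr 1
  ext y; simp

lemma Dat.regular (D : Dat q k' m R u v σ τ) (x : A × I) :
    {y : B × I | Lr R τ x y}.ncard = q + 1 := by
  have e : {y : B × I | Lr R τ x y} = (fun b => (b, τ x.1 b x.2)) '' {b | R x.1 b} := by
    ext y
    simp only [Set.mem_setOf_eq, Set.mem_image, Lr]
    constructor
    · rintro ⟨h1, h2⟩
      exact ⟨y.1, h1, by rw [h2]⟩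
    · rintro ⟨b, hb, rfl⟩
      exact ⟨hb, rfl⟩
  rw [e, Set.ncard_image_of_injective, D.hdA]
  intro b b' h
  exact (Prod.ext_iff.1 h).1

lemma Dat.codeg (D : Dat q k' m R u v σ τ) (x x' : A × I) (hxx' : x ≠ x') (y y' : B × I)
    (h1 : Lr R τ x y) (h2 : Lr R τ x' y) (h3 : Lr R τ x y') (h4 : Lr R τ x' y') : y = y' := by
  unfold Lr at h1 h2 h3 h4
  by_cases hx : x.1 = x'.1
  · exfalso
    apply hxx'
    have h5 : τ x.1 y.1 x.2 = τ x.1 y.1 x'.2 := by
      rw [h1.2]; rw [hx]; exact h2.2.symm
    exact Prod.ext hx ((τ x.1 y.1).injective h5)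
  · rcases D.hC4 x.1 x'.1 y.1 y'.1 h1.1 h2.1 h3.1 h4.1 with h | h
    · exact absurd h hx
    · refine Prod.ext h ?_
      rw [← h1.2, ← h3.2, h]

variable [DecidableEq A] [DecidableEq B] [DecidableEq I]

/-- the left part -/
def leftPart (U W : Type) [Fintype U] [Fintype W] : Finset (U ⊕ W) :=
  univ.filter (fun x => x.isLeft = true)

theorem Dat.inClass (D : Dat q k' m R u v σ τ) (κ c₁ c₂ : ℝ)
    (hc1 : c₁ * ((q + 1 : ℕ) : ℝ) ^ (-κ) ≤ (k' : ℝ) / (1024 * ((q : ℝ) + 1) ^ 2))
    (hc2 : c₂ * ((q + 1 : ℕ) : ℝ) ^ 6 * Real.log ((q + 1 : ℕ) : ℝ) ≤ 2 * ((q : ℝ) + 1) ^ 2 * m) :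
    InClass (LG (Lr R τ)) (q + 1) 1 κ c₁ c₂ (leftPart (A × I) (B × I)) := by
  have hcard : (Fintype.card ((A × I) ⊕ (B × I)) : ℝ) = 2 * ((q : ℝ) + 1) ^ 2 * m := by
    rw [Fintype.card_sum, Fintype.card_prod, Fintype.card_prod, D.hA, D.hB, D.hI]
    push_cast; ring
  have D' := D.transpose
  refine ⟨?_, ?_, ?_, ?_, ?_⟩
  · rintro (a | b) (c | d) h
    · exact absurd h (by intro h; exact h)
    · simp [leftPart]
    · simp [leftPart]
    · exact absurd h (by intro h; exact h)
  · rintro (x | y)
    · have e : {w | (LG (Lr R τ)).Adj (Sum.inl x) w} = Sum.inr '' {y | Lr R τ x y} := by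
        ext w
        rcases w with w | w
        · constructor
          · intro h; exact absurd h (by intro h; exact h)
          · rintro ⟨z, _, hz⟩; exact absurd hz (by simp)
        · constructor
          · intro h; exact ⟨w, h, rfl⟩
          · rintro ⟨z, hz, hzw⟩
            rw [Sum.inr.injEq] at hzw
            subst hzw; exact hz
      rw [e, Set.ncard_image_of_injective _ Sum.inr_injective, D.regular]
    · have e : {w | (LG (Lr R τ)).Adj (Sum.inr y) w} = Sum.inl '' {x | Lr R τ x y} := by
        ext w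
        rcases w with w | w
        · constructor
          · intro h; exact ⟨w, h, rfl⟩
          · rintro ⟨z, hz, hzw⟩
            rw [Sum.inl.injEq] at hzw
            subst hzw; exact hz
        · constructor
          · intro h; exact absurd h (by intro h; exact h)
          · rintro ⟨z, _, hz⟩; exact absurd hz (by simp)
      rw [e, Set.ncard_image_of_injective _ Sum.inl_injective, ← D'.regular y]
      congr 1
      ext x
      exact (Lr_transpose R τ x y).symm
  · rintro (x | y) (x' | y') hne
    · rw [Set.ncard_le_one (Set.toFinite _)]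
      rintro (w | w) ⟨h1, h2⟩ (w' | w') ⟨h3, h4⟩
      · exact absurd h1 (by intro h; exact h)
      · exact absurd h1 (by intro h; exact h)
      · exact absurd h3 (by intro h; exact h)
      · congr 1
        exact D.codeg x x' (fun h => hne (by rw [h])) w w' h1 h2 h3 h4
    · rw [Set.ncard_le_one (Set.toFinite _)]
      rintro (w | w) ⟨h1, h2⟩ (w' | w') ⟨h3, h4⟩
      · exact absurd h1 (by intro h; exact h)
      · exact absurd h1 (by intro h; exact h)
      · exact absurd h2 (by intro h; exact h)
      · exact absurd h2 (by intro h; exact h)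
    · rw [Set.ncard_le_one (Set.toFinite _)]
      rintro (w | w) ⟨h1, h2⟩ (w' | w') ⟨h3, h4⟩
      · exact absurd h2 (by intro h; exact h)
      · exact absurd h2 (by intro h; exact h)
      · exact absurd h1 (by intro h; exact h)
      · exact absurd h1 (by intro h; exact h)
    · rw [Set.ncard_le_one (Set.toFinite _)]
      rintro (w | w) ⟨h1, h2⟩ (w' | w') ⟨h3, h4⟩
      · congr 1
        exact D'.codeg y y' (fun h => hne (by rw [h])) w w'
          ((Lr_transpose R τ w y).2 h1) ((Lr_transpose R τ w y').2 h2)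
          ((Lr_transpose R τ w' y).2 h3) ((Lr_transpose R τ w' y').2 h4)
      · exact absurd h3 (by intro h; exact h)
      · exact absurd h1 (by intro h; exact h)
      · exact absurd h1 (by intro h; exact h)
  · intro X hX hXc
    rw [hcard] at hXc
    have hXc' : 4 * X.card ≤ 3 * ((q + 1) ^ 2 * m) := by
      have h1 : (4 * X.card : ℝ) ≤ 3 * (((q : ℝ) + 1) ^ 2 * m) := by linarith
      exact_mod_cast h1
    have hstep : (1 + c₁ * ((q + 1 : ℕ) : ℝ) ^ (-κ)) * (X.card : ℝ) ≤
        (1 + (k' : ℝ) / (1024 * ((q : ℝ) + 1) ^ 2)) * X.card :=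
      mul_le_mul_of_nonneg_right (by linarith) (Nat.cast_nonneg _)
    refine hstep.trans ?_
    rcases hX with hX | hX
    · -- left part
      set X₀ : Finset (A × I) := univ.filter (fun x => Sum.inl x ∈ X) with hX₀
      have hXe : X = X₀.map ⟨Sum.inl, Sum.inl_injective⟩ := by
        ext z
        rcases z with z | z
        · simp [hX₀]
        · constructor
          · intro h
            have := hX h
            simp [leftPart] at this
          · intro h; simp at h
      have hc : X.card = X₀.card := by rw [hXe, Finset.card_map]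
      rw [hc] at hXc' ⊢
      refine (D.expand X₀ hXc').trans ?_
      have e : {w | ∃ z ∈ X, (LG (Lr R τ)).Adj z w} =
          Sum.inr '' {y : B × I | ∃ x ∈ X₀, Lr R τ x y} := by
        ext w
        rcases w with w | w
        · constructor
          · rintro ⟨z, hz, h⟩
            rcases z with z | z
            · exact absurd h (by intro h; exact h)
            · have := hX hz
              simp [leftPart] at this
          · rintro ⟨z, _, hz⟩; exact absurd hz (by simp)
        · constructor
          · rintro ⟨z, hz, h⟩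
            rcases z with z | z
            · exact ⟨w, ⟨z, by simpa [hX₀] using hz, h⟩, rfl⟩
            · exact absurd h (by intro h; exact h)
          · rintro ⟨z, ⟨x, hx, h⟩, hz⟩
            rw [Sum.inr.injEq] at hz
            subst hz
            exact ⟨Sum.inl x, by simpa [hX₀] using hx, h⟩
      rw [e, Set.ncard_image_of_injective _ Sum.inr_injective]
    · set X₀ : Finset (B × I) := univ.filter (fun x => Sum.inr x ∈ X) with hX₀
      have hXe : X = X₀.map ⟨Sum.inr, Sum.inr_injective⟩ := by
        ext z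
        rcases z with z | z
        · constructor
          · intro h
            have := hX h
            simp [leftPart] at this
          · intro h; simp at h
        · simp [hX₀]
      have hc : X.card = X₀.card := by rw [hXe, Finset.card_map]
      rw [hc] at hXc' ⊢
      refine (D'.expand X₀ hXc').trans ?_
      have e : {w | ∃ z ∈ X, (LG (Lr R τ)).Adj z w} =
          Sum.inl '' {y : A × I | ∃ x ∈ X₀, Lr (fun b a => R a b)
            (fun b a => (τ a b).symm) x y} := by
        ext w
        rcases w with w | w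
        · constructor
          · rintro ⟨z, hz, h⟩
            rcases z with z | z
            · exact absurd h (by intro h; exact h)
            · exact ⟨w, ⟨z, by simpa [hX₀] using hz, (Lr_transpose R τ w z).2 h⟩, rfl⟩
          · rintro ⟨z, ⟨x, hx, h⟩, hz⟩
            rw [Sum.inl.injEq] at hz
            subst hz
            exact ⟨Sum.inr x, by simpa [hX₀] using hx, (Lr_transpose R τ z x).1 h⟩
        · constructor
          · rintro ⟨z, hz, h⟩
            rcases z with z | z
            · have := hX hz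
              simp [leftPart] at this
            · exact absurd h (by intro h; exact h)
          · rintro ⟨z, _, hz⟩; exact absurd hz (by simp)
      rw [e, Set.ncard_image_of_injective _ Sum.inl_injective]
  · rw [hcard]; exact hc2

/-- block of a vertex -/
def blk : (A × I) ⊕ (B × I) → I
  | Sum.inl x => x.2
  | Sum.inr y => y.2

lemma Dat.cross (D : Dat q k' m R u v σ τ) (x : A × I) (y : B × I) (h : Lr R τ x y)
    (hne : x.2 ≠ y.2) : ∃ t, u t = x.1 ∧ v t = y.1 ∧ σ t x.2 = y.2 := by
  by_cases ht : ∃ t, u t = x.1 ∧ v t = y.1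
  · obtain ⟨t, h1, h2⟩ := ht
    refine ⟨t, h1, h2, ?_⟩
    rw [← D.hτ1, h1, h2]; exact h.2
  · exfalso
    have := h.2
    rw [D.hτ0 _ _ ht] at this
    exact hne this

lemma Dat.huniq (D : Dat q k' m R u v σ τ) (z : (A × I) ⊕ (B × I))
    (w w' : (A × I) ⊕ (B × I)) (h1 : (LG (Lr R τ)).Adj z w) (h2 : blk w ≠ blk z)
    (h3 : (LG (Lr R τ)).Adj z w') (h4 : blk w' ≠ blk z) : w = w' := by
  rcases z with x | y
  · rcases w with w | w
    · exact absurd h1 (by intro h; exact h)
    rcases w' with w' | w'
    · exact absurd h3 (by intro h; exact h)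
    simp only [blk] at h2 h4
    obtain ⟨t, ht1, ht2, ht3⟩ := D.cross x w h1 h2.symm
    obtain ⟨t', ht1', ht2', ht3'⟩ := D.cross x w' h3 h4.symm
    have htt : t = t' := D.hu (ht1.trans ht1'.symm)
    subst htt
    congr 1
    exact Prod.ext (ht2.symm.trans ht2') (ht3.symm.trans ht3')
  · rcases w with w | w
    swap
    · exact absurd h1 (by intro h; exact h)
    rcases w' with w' | w'
    swap
    · exact absurd h3 (by intro h; exact h)
    simp only [blk] at h2 h4
    obtain ⟨t, ht1, ht2, ht3⟩ := D.cross w y h1 h2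
    obtain ⟨t', ht1', ht2', ht3'⟩ := D.cross w' y h3 h4
    have htt : t = t' := D.hv (ht2.trans ht2'.symm)
    subst htt
    congr 1
    exact Prod.ext (ht1.symm.trans ht1') ((σ t).injective (ht3.trans ht3'.symm))

lemma Dat.hK (D : Dat q k' m R u v σ τ) (i : I) :
    {z : (A × I) ⊕ (B × I) | blk z = i ∧ Port (LG (Lr R τ)) blk z}.ncard ≤ 32 * k' := by
  have hsub : {z : (A × I) ⊕ (B × I) | blk z = i ∧ Port (LG (Lr R τ)) blk z} ⊆
      (fun s : T ⊕ T => match s with
        | Sum.inl t => Sum.inl (u t, i)
        | Sum.inr t => Sum.inr (v t, i)) '' Set.univ := by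
    rintro z ⟨hz, w, hw, hwi⟩
    rcases z with x | y
    · rcases w with w | w
      · exact absurd hw (by intro h; exact h)
      simp only [blk] at hz hwi
      obtain ⟨t, ht1, ht2, ht3⟩ := D.cross x w hw hwi.symm
      exact ⟨Sum.inl t, Set.mem_univ _, congrArg Sum.inl (Prod.ext ht1 hz.symm)⟩
    · rcases w with w | w
      swap
      · exact absurd hw (by intro h; exact h)
      simp only [blk] at hz hwi
      obtain ⟨t, ht1, ht2, ht3⟩ := D.cross w y hw hwi
      exact ⟨Sum.inr t, Set.mem_univ _, congrArg Sum.inr (Prod.ext ht2 hz.symm)⟩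
  refine (Set.ncard_le_ncard hsub (Set.toFinite _)).trans ?_
  refine (Set.ncard_image_le (Set.toFinite _)).trans ?_
  rw [Set.ncard_univ, Nat.card_eq_fintype_card, Fintype.card_sum, D.hT]
  omega

lemma Dat.hL (D : Dat q k' m R u v σ τ) (i : I) :
    (univ.filter (fun z : (A × I) ⊕ (B × I) => blk z = i)).card ≤ 2 * (q + 1) ^ 2 := by
  have hsub : (univ.filter (fun z : (A × I) ⊕ (B × I) => blk z = i)) ⊆
      univ.image (fun s : A ⊕ B => match s with
        | Sum.inl a => Sum.inl (a, i)
        | Sum.inr b => Sum.inr (b, i)) := by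
    intro z hz
    simp only [Finset.mem_filter, mem_univ, true_and] at hz
    simp only [Finset.mem_image, mem_univ, true_and]
    rcases z with x | y
    · exact ⟨Sum.inl x.1, by simp only [blk] at hz; simp only; rw [← hz]⟩
    · exact ⟨Sum.inr y.1, by simp only [blk] at hz; simp only; rw [← hz]⟩
  refine (Finset.card_le_card hsub).trans (Finset.card_image_le.trans ?_)
  rw [card_univ, Fintype.card_sum, D.hA, D.hB]
  omega

end Lift

end H111R4
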