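import Mathlib
import Pool.Agent.H111R4.Lift

/-!
The incidence graph of the affine plane over `ZMod p` (non-vertical lines) with a matching.
-/

namespace H111R4

open Finset

section Plane

/-- incidence -/
def Rp (p : ℕ) (x y : ZMod p × ZMod p) : Prop := x.2 + y.2 = y.1 * x.1

variable {p : ℕ} [hp : Fact p.Prime]

lemma Rp_symm (x y : ZMod p × ZMod p) : Rp p x y ↔ Rp p y x := by
  unfold Rp
  constructor
  · intro h; linear_combination h
  · intro h; linear_combination h

lemma Rp_deg (x : ZMod p × ZMod p) : {y | Rp p x y}.ncard = p := by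
  have e : {y : ZMod p × ZMod p | Rp p x y} = (fun a => (a, a * x.1 - x.2)) '' Set.univ := by
    ext y
    simp only [Set.mem_setOf_eq, Rp, Set.mem_image, Set.mem_univ, true_and]
    constructor
    · intro h
      refine ⟨y.1, ?_⟩
      refine Prod.ext rfl ?_
      simp only
      linear_combination -h
    · rintro ⟨a, rfl⟩
      simp only
      ring
  rw [e, Set.ncard_image_of_injective, Set.ncard_univ, Nat.card_eq_fintype_card, ZMod.card]
  intro a b h
  exact (Prod.ext_iff.1 h).1

lemma Rp_C4 (x x' y y' : ZMod p × ZMod p) (h1 : Rp p x y) (h2 : Rp p x' y) (h3 : Rp p x y')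
    (h4 : Rp p x' y') : x = x' ∨ y = y' := by
  unfold Rp at h1 h2 h3 h4
  have h5 : (y.1 - y'.1) * (x.1 - x'.1) = 0 := by
    linear_combination h2 - h1 + h3 - h4
  rcases mul_eq_zero.1 h5 with h | h
  · right
    have h6 : y.1 = y'.1 := sub_eq_zero.1 h
    refine Prod.ext h6 ?_
    rw [← h6] at h3
    linear_combination h1 - h3
  · left
    have h6 : x.1 = x'.1 := sub_eq_zero.1 h
    refine Prod.ext h6 ?_
    rw [← h6] at h2
    linear_combination h1 - h2

theorem exists_dat (p : ℕ) [hp : Fact p.Prime] (hp20 : 20 ≤ p) (k' m : ℕ) (hk : 16 * k' ≤ p ^ 2)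
    (hm : 1 ≤ m) :
    ∃ (u v : Fin 16 × Fin k' → ZMod p × ZMod p) (σ : Fin 16 × Fin k' → Equiv.Perm (Fin m))
      (τ : ZMod p × ZMod p → ZMod p × ZMod p → Equiv.Perm (Fin m)),
      Dat (p - 1) k' m (Rp p) u v σ τ := by
  classical
  obtain ⟨P, hP⟩ := perm_expander' m hm
  have hp1 : p - 1 + 1 = p := by omega
  have hcardle : Fintype.card (Fin 16 × Fin k') ≤ Fintype.card (ZMod p × ZMod p) := by
    rw [Fintype.card_prod, Fintype.card_prod, Fintype.card_fin, Fintype.card_fin, ZMod.card, ← sq]
    exact hk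
  obtain ⟨c⟩ := Function.Embedding.nonempty_of_card_le hcardle
  set u : Fin 16 × Fin k' → ZMod p × ZMod p := fun t => c t with hu
  set v : Fin 16 × Fin k' → ZMod p × ZMod p :=
    fun t => ((c t).1, (c t).1 * (c t).1 - (c t).2) with hv
  have huinj : Function.Injective u := fun t t' h => c.injective h
  have hvinj : Function.Injective v := by
    intro t t' h
    have h1 : (c t).1 = (c t').1 := (Prod.ext_iff.1 h).1
    have h2 : (c t).1 * (c t).1 - (c t).2 = (c t').1 * (c t').1 - (c t').2 :=
      (Prod.ext_iff.1 h).2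
    apply c.injective
    refine Prod.ext h1 ?_
    rw [h1] at h2
    exact sub_right_injective h2
  set σ : Fin 16 × Fin k' → Equiv.Perm (Fin m) := fun t => P t.1 with hσ
  set τ : ZMod p × ZMod p → ZMod p × ZMod p → Equiv.Perm (Fin m) := fun a b =>
    if h : ∃ t, u t = a ∧ v t = b then σ h.choose else 1 with hτ
  refine ⟨u, v, σ, τ, ?_⟩
  refine ⟨by omega, by rw [hp1]; exact hk, ?_, ?_, by simp, by simp, ?_, ?_, ?_, huinj, hvinj,
    ?_, ?_, ?_, ?_⟩
  · rw [Fintype.card_prod, ZMod.card, hp1, sq]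
  · rw [Fintype.card_prod, ZMod.card, hp1, sq]
  · intro a; rw [hp1]; exact Rp_deg a
  · intro b
    rw [hp1]
    refine Eq.trans ?_ (Rp_deg b)
    congr 1
    ext a
    exact Rp_symm a b
  · exact fun a a' b b' h1 h2 h3 h4 => Rp_C4 a a' b b' h1 h2 h3 h4
  · intro t
    simp only [Rp, hu, hv]
    ring
  · intro t
    have h : ∃ t', u t' = u t ∧ v t' = v t := ⟨t, rfl, rfl⟩
    rw [hτ]
    simp only
    rw [dif_pos h]
    have h1 := h.choose_spec.1
    rw [huinj h1]
  · intro a b h
    rw [hτ]
    simp only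
    rw [dif_neg h]
  · intro F hF
    have h1 := hP F hF
    rw [Fintype.sum_prod_type]
    simp only [hσ, Finset.sum_const, card_univ, Fintype.card_fin, smul_eq_mul]
    rw [← Finset.mul_sum]
    have h2 := Nat.mul_le_mul_left k' h1
    calc k' * F.card ≤ k' * (2 * ∑ t, leave F (P t)) := h2
      _ = 2 * (k' * ∑ t, leave F (P t)) := by ring
      _ = _ := by
        congr 2
        apply Finset.sum_congr rfl
        intro t _
        exact leave_inst _ _ F (P t)

end Plane

end H111R4
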