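import Mathlib
import Pool.Agent.H111R4.Mix
import Pool.Agent.H111R4.Plane

/-!
Assembly.
-/

namespace H111R4

open Finset Filter Topology

section Final

lemma tmix_spec {V : Type} [Fintype V] [DecidableEq V] (G : SimpleGraph V) (lam β : ℝ) (t : ℕ)
    (h : MixedAt G lam β t) : MixedAt G lam β (tmix G lam β) ∧ tmix G lam β ≤ t :=
  ⟨Nat.sInf_mem (s := {t : ℕ | MixedAt G lam β t}) ⟨t, h⟩, Nat.sInf_le h⟩

/-- The graphs. -/
theorem family (p : ℕ) [hp : Fact p.Prime] (hp20 : 20 ≤ p) (k' : ℕ) (hk : 16 * k' ≤ p ^ 2)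
    (κ c₁ c₂ : ℝ)
    (hc1 : c₁ * (p : ℝ) ^ (-κ) ≤ (k' : ℝ) / (1024 * (p : ℝ) ^ 2)) (j : ℕ) :
    ∃ (V : Type) (_ : Fintype V) (_ : DecidableEq V) (G : SimpleGraph V) (O : Finset V),
      Nonempty V ∧ j ≤ Fintype.card V ∧ InClass G p 1 κ c₁ c₂ O ∧
      ∀ lam β : ℝ, 0 < lam → 0 < β →
        lam * (1 - Real.exp (-β)) + 2 * (lam * (1 - Real.exp (-β))) * lam * (32 * k' + 1) ≤
          1 / 2 →
        MixedAt G lam β (tmix G lam β) ∧
        (tmix G lam β : ℝ) ≤ Cmix (2 * p ^ 2) p lam β * (Fintype.card V : ℝ) ^ 2 := by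
  set m : ℕ := j + 1 + ⌈|c₂| * (p : ℝ) ^ 6 * Real.log p⌉₊ with hm
  obtain ⟨u, v, σ, τ, D⟩ := exists_dat p hp20 k' m hk (by omega)
  have hp1 : p - 1 + 1 = p := by omega
  have hpR : (((p - 1 : ℕ) : ℝ) + 1) = p := by
    rw [← Nat.cast_add_one, hp1]
  have hcard : Fintype.card (((ZMod p × ZMod p) × Fin m) ⊕ ((ZMod p × ZMod p) × Fin m)) =
      2 * p ^ 2 * m := by
    rw [Fintype.card_sum, Fintype.card_prod, Fintype.card_prod, ZMod.card, Fintype.card_fin]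
    ring
  have hp0 : (0:ℝ) < p := by exact_mod_cast (show 0 < p by omega)
  have hcls := D.inClass κ c₁ c₂ (by rw [hpR, hp1]; exact hc1) (by
    rw [hpR, hp1]
    have hlog : 0 ≤ Real.log p := Real.log_nonneg (by exact_mod_cast (show 1 ≤ p by omega))
    have h1 : c₂ * (p : ℝ) ^ 6 * Real.log p ≤ |c₂| * (p : ℝ) ^ 6 * Real.log p := by
      apply mul_le_mul_of_nonneg_right _ hlog
      exact mul_le_mul_of_nonneg_right (le_abs_self _) (by positivity)
    have h2 : |c₂| * (p : ℝ) ^ 6 * Real.log p ≤ m := by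
      refine (Nat.le_ceil _).trans ?_
      rw [hm]; push_cast
      have : (0:ℝ) ≤ j := Nat.cast_nonneg _
      linarith
    have h3 : (1:ℝ) ≤ (p : ℝ) ^ 2 := one_le_pow₀ (by exact_mod_cast (show 1 ≤ p by omega))
    have h4 : (0:ℝ) ≤ m := Nat.cast_nonneg _
    nlinarith)
  rw [hp1] at hcls
  have hne : Nonempty (((ZMod p × ZMod p) × Fin m) ⊕ ((ZMod p × ZMod p) × Fin m)) :=
    ⟨Sum.inl (0, ⟨0, by omega⟩)⟩
  have hneI : Nonempty (Fin m) := ⟨⟨0, by omega⟩⟩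
  refine ⟨((ZMod p × ZMod p) × Fin m) ⊕ ((ZMod p × ZMod p) × Fin m), inferInstance,
    inferInstance, LG (Lr (Rp p) τ), leftPart _ _, hne, ?_, hcls, ?_⟩
  · rw [hcard]
    have : j ≤ m := by omega
    have h1 : 1 ≤ 2 * p ^ 2 := by
      have : 0 < p ^ 2 := by positivity
      omega
    nlinarith
  · intro lam β hl hβ hα
    have hL : ∀ i, (univ.filter (fun z : ((ZMod p × ZMod p) × Fin m) ⊕
        ((ZMod p × ZMod p) × Fin m) => blk z = i)).card ≤ 2 * p ^ 2 := fun i => by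
      have := D.hL i
      rw [hp1] at this; exact this
    obtain ⟨t, ht1, ht2⟩ := mixing (LG (Lr (Rp p) τ)) hl hβ blk
      (poincare_ports (LG (Lr (Rp p) τ)) hl hβ blk
        (fun z w w' h1 h2 h3 h4 => D.huniq z w w' h1 h2 h3 h4) (32 * k') (2 * p ^ 2)
        (by have : 0 < p ^ 2 := by positivity
            omega) D.hK hL (by push_cast; exact hα))
      (2 * p ^ 2) hL p (fun z => (hcls.regular z).le)
    obtain ⟨h1, h2⟩ := tmix_spec _ lam β t ht2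
    refine ⟨h1, le_trans ?_ ht1⟩
    exact_mod_cast h2

/-- Sequences of graphs for all large primes. -/
theorem strong (κ : ℝ) (hκ0 : 0 < κ) (hκ2 : κ < 2) (c₁ c₂ : ℝ) (hc₁ : 0 < c₁) :
    ∃ c : ℝ, 0 < c ∧ c ≤ 1 / 4 ∧ ∃ d₀ : ℕ, ∀ d : ℕ, d₀ ≤ d → d.Prime →
      ∃ (V : ℕ → Type) (_ : ∀ j, Fintype (V j)) (_ : ∀ j, DecidableEq (V j))
        (G : ∀ j, SimpleGraph (V j)) (O : ∀ j, Finset (V j)),
        (∀ j, j ≤ Fintype.card (V j)) ∧ (∀ j, InClass (G j) d 1 κ c₁ c₂ (O j)) ∧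
        ∀ lam β : ℝ, 0 < lam → 0 < β → lam * (1 - Real.exp (-β)) ≤ 1 / 4 →
          lam * (lam * (1 - Real.exp (-β))) ≤ c * (d : ℝ) ^ (κ - 2) →
          ∃ C : ℝ, ∀ j, MixedAt (G j) lam β (tmix (G j) lam β) ∧
            (tmix (G j) lam β : ℝ) ≤ C * (Fintype.card (V j) : ℝ) ^ 2 := by
  set K : ℝ := 1024 * c₁ + 1 with hK
  have hK1 : 1 < K := by rw [hK]; linarith
  refine ⟨1 / (264 * K), by positivity, ?_, ?_⟩
  · rw [div_le_div_iff₀ (by positivity) (by norm_num)]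
    linarith
  have hlim : ∀ᶠ d : ℕ in atTop, 16 * K ≤ (d : ℝ) ^ κ :=
    ((tendsto_rpow_atTop hκ0).comp tendsto_natCast_atTop_atTop).eventually_ge_atTop _
  obtain ⟨d₁, hd₁⟩ := Filter.eventually_atTop.1 hlim
  refine ⟨max d₁ 20, ?_⟩
  intro p hpd hp
  have : Fact p.Prime := ⟨hp⟩
  have hp20 : 20 ≤ p := (le_max_right _ _).trans hpd
  have hpd1 := hd₁ p ((le_max_left _ _).trans hpd)
  have hp0 : (0:ℝ) < p := by exact_mod_cast hp.pos
  have hp1 : (1:ℝ) ≤ p := by exact_mod_cast (show 1 ≤ p by omega)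
  set k' : ℕ := ⌈1024 * c₁ * (p : ℝ) ^ (2 - κ)⌉₊ with hk'
  have hpow : (1:ℝ) ≤ (p : ℝ) ^ (2 - κ) := Real.one_le_rpow hp1 (by linarith)
  have hkle : (k' : ℝ) ≤ K * (p : ℝ) ^ (2 - κ) := by
    have h1 : (k' : ℝ) < 1024 * c₁ * (p : ℝ) ^ (2 - κ) + 1 := Nat.ceil_lt_add_one (by positivity)
    rw [hK]; linarith
  have hkge : 1024 * c₁ * (p : ℝ) ^ (2 - κ) ≤ k' := Nat.le_ceil _
  have hk : 16 * k' ≤ p ^ 2 := by
    have h1 : (16 * k' : ℝ) ≤ (p : ℝ) ^ 2 := by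
      have h2 : (p : ℝ) ^ 2 = (p : ℝ) ^ κ * (p : ℝ) ^ (2 - κ) := by
        rw [← Real.rpow_add hp0, ← Real.rpow_natCast]
        congr 1
        push_cast; ring
      calc (16 * k' : ℝ) ≤ 16 * (K * (p : ℝ) ^ (2 - κ)) := by linarith
        _ = (16 * K) * (p : ℝ) ^ (2 - κ) := by ring
        _ ≤ (p : ℝ) ^ κ * (p : ℝ) ^ (2 - κ) :=
            mul_le_mul_of_nonneg_right hpd1 (by positivity)
        _ = (p : ℝ) ^ 2 := h2.symm
    exact_mod_cast h1
  have hc1 : c₁ * (p : ℝ) ^ (-κ) ≤ (k' : ℝ) / (1024 * (p : ℝ) ^ 2) := by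
    rw [le_div_iff₀ (by positivity)]
    have h2 : (p : ℝ) ^ (2 - κ) = (p : ℝ) ^ (-κ) * (p : ℝ) ^ 2 := by
      rw [← Real.rpow_natCast, ← Real.rpow_add hp0]
      congr 1
      push_cast; ring
    calc c₁ * (p : ℝ) ^ (-κ) * (1024 * (p : ℝ) ^ 2) =
        1024 * c₁ * ((p : ℝ) ^ (-κ) * (p : ℝ) ^ 2) := by ring
      _ = 1024 * c₁ * (p : ℝ) ^ (2 - κ) := by rw [h2]
      _ ≤ _ := hkge
  choose V hV1 hV2 G O hne hj hcls hmix using
    fun j => family p hp20 k' hk κ c₁ c₂ hc1 j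
  refine ⟨V, hV1, hV2, G, O, hj, hcls, ?_⟩
  intro lam β hl hβ hα1 hα2
  refine ⟨Cmix (2 * p ^ 2) p lam β, fun j => hmix j lam β hl hβ ?_⟩
  set α := lam * (1 - Real.exp (-β)) with hαdef
  have hα0 : 0 ≤ α := by
    have : Real.exp (-β) ≤ 1 := Real.exp_le_one_iff.2 (by linarith)
    have h2 : 0 ≤ 1 - Real.exp (-β) := by linarith
    positivity
  have h33 : 32 * (k' : ℝ) + 1 ≤ 33 * K * (p : ℝ) ^ (2 - κ) := by
    have : (1:ℝ) ≤ K * (p : ℝ) ^ (2 - κ) := by nlinarith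
    nlinarith
  have h1 : 2 * α * lam * (32 * k' + 1) ≤ 1 / 4 := by
    calc 2 * α * lam * (32 * k' + 1) = 2 * (lam * α) * (32 * k' + 1) := by ring
      _ ≤ 2 * (1 / (264 * K) * (p : ℝ) ^ (κ - 2)) * (33 * K * (p : ℝ) ^ (2 - κ)) := by
          apply mul_le_mul _ h33 (by positivity) (by positivity)
          exact mul_le_mul_of_nonneg_left hα2 (by norm_num)
      _ = 1 / 4 * ((p : ℝ) ^ (κ - 2) * (p : ℝ) ^ (2 - κ)) := by field_simp; norm_num
      _ = 1 / 4 := by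
          rw [← Real.rpow_add hp0]; ring_nf; rw [Real.rpow_zero]; norm_num
      _ ≤ 1 / 4 := le_rfl
  linarith

theorem main (Δ₂ : ℕ) (hΔ : 1 ≤ Δ₂) (κ : ℝ) (hκ0 : 0 < κ) (hκ2 : κ < 2)
    (lam₀ : ℝ) (hlam₀ : 0 < lam₀) (c₁ c₂ : ℝ) (hc₁ : 0 < c₁) :
    ∃ c : ℝ, 0 < c ∧ ∀ C₀ A : ℝ, ∃ d₀ : ℕ, ∀ d : ℕ, d₀ ≤ d → d.Prime →
      ∃ (V : ℕ → Type) (_ : ∀ j, Fintype (V j)) (_ : ∀ j, DecidableEq (V j))
        (G : ∀ j, SimpleGraph (V j)) (O : ∀ j, Finset (V j)),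
        (∀ j, InClass (G j) d Δ₂ κ c₁ c₂ (O j)) ∧
        Tendsto (fun j => Fintype.card (V j)) atTop atTop ∧
        (∀ lam β : ℝ, 0 < lam → 0 < β → lam * (1 - Real.exp (-β)) ≤ 1 / 4 →
          lam * (lam * (1 - Real.exp (-β))) ≤ c * (d : ℝ) ^ (κ - 2) →
          (∀ j, MixedAt (G j) lam β (tmix (G j) lam β)) ∧
          (∃ C : ℝ, ∀ j, (tmix (G j) lam β : ℝ) ≤ C * (Fintype.card (V j) : ℝ) ^ 2) ∧
          Tendsto (fun j => Real.log (tmix (G j) lam β) / (Fintype.card (V j) : ℝ)) atTop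
            (𝓝 0)) ∧
        ∃ lam β : ℝ, 0 < lam ∧ lam ≤ lam₀ ∧ 0 < β ∧ lam * (1 - Real.exp (-β)) ≤ 1 / 4 ∧
          lam * (lam * (1 - Real.exp (-β))) ≤ c * (d : ℝ) ^ (κ - 2) ∧
          lam * (1 - Real.exp (-β)) = c * (d : ℝ) ^ (κ / 2 - 1) ∧
          C₀ * (Real.log d) ^ A / d ≤ lam * (1 - Real.exp (-β)) := by
  obtain ⟨c, hc, hc4, d₁, hstrong⟩ := strong κ hκ0 hκ2 c₁ c₂ hc₁
  refine ⟨c, hc, fun C₀ A => ?_⟩
  have hA : ∀ᶠ x : ℝ in atTop, C₀ * (Real.log x) ^ A ≤ c * x ^ (κ / 2) := by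
    have h := (isLittleO_log_rpow_rpow_atTop A (by linarith : 0 < κ / 2)).bound
      (show 0 < c / (|C₀| + 1) by positivity)
    filter_upwards [h, Filter.eventually_ge_atTop 1] with x hx hx1
    have hx0 : 0 < x := by linarith
    have hlog : 0 ≤ Real.log x := Real.log_nonneg hx1
    rw [Real.norm_of_nonneg (Real.rpow_nonneg hlog _),
      Real.norm_of_nonneg (Real.rpow_nonneg hx0.le _)] at hx
    calc C₀ * (Real.log x) ^ A ≤ (|C₀| + 1) * (Real.log x) ^ A := by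
          apply mul_le_mul_of_nonneg_right _ (Real.rpow_nonneg hlog _)
          linarith [le_abs_self C₀]
      _ ≤ (|C₀| + 1) * (c / (|C₀| + 1) * x ^ (κ / 2)) :=
          mul_le_mul_of_nonneg_left hx (by positivity)
      _ = _ := by
          have : |C₀| + 1 ≠ 0 := by positivity
          field_simp
  have hB : ∀ᶠ x : ℝ in atTop, 2 * (c * x ^ (κ / 2 - 1)) ≤ lam₀ := by
    have h1 : Tendsto (fun x : ℝ => x ^ (κ / 2 - 1)) atTop (𝓝 0) := by
      have := tendsto_rpow_neg_atTop (show 0 < 1 - κ / 2 by linarith)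
      refine this.congr (fun x => ?_)
      congr 1; ring
    have h2 : Tendsto (fun x : ℝ => 2 * (c * x ^ (κ / 2 - 1))) atTop (𝓝 (2 * (c * 0))) :=
      (h1.const_mul c).const_mul 2
    rw [mul_zero, mul_zero] at h2
    exact (h2.eventually_lt_const hlam₀).mono fun x hx => hx.le
  obtain ⟨N, hN⟩ := Filter.eventually_atTop.1
    ((tendsto_natCast_atTop_atTop (R := ℝ)).eventually (hA.and hB))
  refine ⟨max N d₁, fun p hpge hp => ?_⟩
  obtain ⟨hA', hB'⟩ := hN p ((le_max_left _ _).trans hpge)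
  obtain ⟨V, hV1, hV2, G, O, hj, hcls, hmix⟩ := hstrong p ((le_max_right _ _).trans hpge) hp
  have hp0 : (0:ℝ) < p := by exact_mod_cast hp.pos
  have hp1 : (1:ℝ) ≤ p := by exact_mod_cast hp.one_le
  have hcardR : Tendsto (fun j => (Fintype.card (V j) : ℝ)) atTop atTop :=
    tendsto_natCast_atTop_atTop.comp (tendsto_atTop_mono hj tendsto_id)
  refine ⟨V, hV1, hV2, G, O, ?_, tendsto_atTop_mono hj tendsto_id, ?_, ?_⟩
  · intro j
    have h := hcls j
    exact ⟨h.bipartite, h.regular, fun a b hab => (h.codegree a b hab).trans hΔ, h.expansion,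
      h.size⟩
  · intro lam β hl hβ hα1 hα2
    obtain ⟨C, hC⟩ := hmix lam β hl hβ hα1 hα2
    refine ⟨fun j => (hC j).1, ⟨C, fun j => (hC j).2⟩, ?_⟩
    have hup : Tendsto (fun j => (Real.log (|C| + 1) + 2 * Real.log (Fintype.card (V j))) /
        (Fintype.card (V j) : ℝ)) atTop (𝓝 0) := by
      have h1 : Tendsto (fun x : ℝ => (Real.log (|C| + 1) + 2 * Real.log x) / x) atTop (𝓝 0) := by
        have h2 : Tendsto (fun x : ℝ => Real.log (|C| + 1) / x) atTop (𝓝 0) :=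
          tendsto_const_nhds.div_atTop tendsto_id
        have h3 : Tendsto (fun x : ℝ => Real.log x / x) atTop (𝓝 0) := by
          have := Real.isLittleO_log_id_atTop.tendsto_div_nhds_zero
          exact this
        have h4 := h2.add (h3.const_mul 2)
        simp only [mul_zero, add_zero] at h4
        refine h4.congr (fun x => ?_)
        ring
      exact h1.comp hcardR
    refine squeeze_zero' (Filter.Eventually.of_forall fun j => ?_) ?_ hup
    · exact div_nonneg (Real.log_natCast_nonneg _) (Nat.cast_nonneg _)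
    · filter_upwards [hcardR.eventually_ge_atTop 1] with j hj1
      apply div_le_div_of_nonneg_right _ (Nat.cast_nonneg _)
      rcases Nat.eq_zero_or_pos (tmix (G j) lam β) with h0 | h0
      · rw [h0]
        simp only [Nat.cast_zero, Real.log_zero]
        have h1 : 0 ≤ Real.log (|C| + 1) := Real.log_nonneg (by linarith [abs_nonneg C])
        have h2 : 0 ≤ Real.log (Fintype.card (V j) : ℝ) := Real.log_nonneg hj1
        linarith
      · have h1 : (tmix (G j) lam β : ℝ) ≤ (|C| + 1) * (Fintype.card (V j) : ℝ) ^ 2 := by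
          refine ((hC j).2).trans ?_
          apply mul_le_mul_of_nonneg_right _ (by positivity)
          linarith [le_abs_self C]
        have h2 : (0:ℝ) < tmix (G j) lam β := by exact_mod_cast h0
        have h3 := Real.log_le_log h2 h1
        rw [Real.log_mul (by linarith [abs_nonneg C]) (by positivity), Real.log_pow] at h3
        push_cast at h3
        exact h3
  · have hexp : Real.exp (-Real.log 2) = 1 / 2 := by
      rw [Real.exp_neg, Real.exp_log (by norm_num)]; norm_num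
    set ε : ℝ := c * (p : ℝ) ^ (κ / 2 - 1) with hε
    have hε0 : 0 < ε := by positivity
    have hεc : ε ≤ c := by
      have : (p : ℝ) ^ (κ / 2 - 1) ≤ 1 := Real.rpow_le_one_of_one_le_of_nonpos hp1 (by linarith)
      calc ε ≤ c * 1 := mul_le_mul_of_nonneg_left this hc.le
        _ = c := mul_one c
    have hα : (2 * ε) * (1 - Real.exp (-Real.log 2)) = ε := by rw [hexp]; ring
    refine ⟨2 * ε, Real.log 2, by positivity, hB', Real.log_pos (by norm_num), ?_, ?_, ?_, ?_⟩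
    · rw [hα]; linarith
    · rw [hα]
      have h1 : ε * ε = c * c * (p : ℝ) ^ (κ - 2) := by
        rw [hε]
        have : (p : ℝ) ^ (κ - 2) = (p : ℝ) ^ (κ / 2 - 1) * (p : ℝ) ^ (κ / 2 - 1) := by
          rw [← Real.rpow_add hp0]; congr 1; ring
        rw [this]; ring
      calc 2 * ε * ε = (2 * c) * (c * (p : ℝ) ^ (κ - 2)) := by rw [mul_assoc, h1]; ring
        _ ≤ 1 * (c * (p : ℝ) ^ (κ - 2)) := by
            apply mul_le_mul_of_nonneg_right _ (by positivity)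
            linarith
        _ = _ := one_mul _
    · exact hα
    · rw [hα, hε, div_le_iff₀ hp0]
      have h2 : (p : ℝ) ^ (κ / 2) = (p : ℝ) ^ (κ / 2 - 1) * p := by
        nth_rewrite 3 [← Real.rpow_one (p : ℝ)]
        rw [← Real.rpow_add hp0]
        congr 1; ring
      rw [mul_assoc, ← h2]
      exact hA'

/-- The positive statement of Q1 for the implied constants `c₁`, `c₂`. -/
def SlowMixing (Δ₂ : ℕ) (κ lam₀ c₁ c₂ : ℝ) : Prop :=
  ∃ C₀ A : ℝ, 0 < C₀ ∧ ∀ (d : ℕ) (lam β : ℝ), 2 ≤ d → 0 < lam → lam ≤ lam₀ → 0 < β →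
    C₀ * (Real.log d) ^ A / d ≤ lam * (1 - Real.exp (-β)) →
    ∃ c : ℝ, 0 < c ∧ ∀ (V : Type) [Fintype V] [DecidableEq V] (G : SimpleGraph V) (O : Finset V),
      InClass G d Δ₂ κ c₁ c₂ O → Real.exp (c * Fintype.card V) ≤ tmix G lam β

theorem not_slowMixing (Δ₂ : ℕ) (hΔ : 1 ≤ Δ₂) (κ : ℝ) (hκ0 : 0 < κ) (hκ2 : κ < 2)
    (lam₀ : ℝ) (hlam₀ : 0 < lam₀) (c₁ c₂ : ℝ) (hc₁ : 0 < c₁) :
    ¬ SlowMixing Δ₂ κ lam₀ c₁ c₂ := by
  rintro ⟨C₀, A, hC₀, h⟩
  obtain ⟨c, hc, hmain⟩ := main Δ₂ hΔ κ hκ0 hκ2 lam₀ hlam₀ c₁ c₂ hc₁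
  obtain ⟨d₀, hd₀⟩ := hmain C₀ A
  obtain ⟨p, hpge, hp⟩ := Nat.exists_infinite_primes d₀
  obtain ⟨V, hV1, hV2, G, O, hcls, hcard, hmix, lam, β, hl, hl0, hβ, h1, h2, _, h3⟩ :=
    hd₀ p hpge hp
  obtain ⟨_, _, hlim⟩ := hmix lam β hl hβ h1 h2
  obtain ⟨c', hc', hslow⟩ := h p lam β hp.two_le hl hl0 hβ h3
  have hcardR : Tendsto (fun j => (Fintype.card (V j) : ℝ)) atTop atTop :=
    tendsto_natCast_atTop_atTop.comp hcard
  have h4 : ∀ᶠ j in atTop, c' ≤ Real.log (tmix (G j) lam β) / (Fintype.card (V j) : ℝ) := by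
    filter_upwards [hcardR.eventually_ge_atTop 1] with j hj1
    rw [le_div_iff₀ (by linarith)]
    have h5 := hslow (V j) (G j) (O j) (hcls j)
    have h6 := Real.log_le_log (Real.exp_pos _) h5
    rwa [Real.log_exp] at h6
  have h5 := ge_of_tendsto hlim h4
  linarith

end Final

end H111R4
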